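import Mathlib

/-! # MP_245544_co, lower bound: Jordan arcs as sets

`Arc S a b`: the set `S` is the image of an injective continuous path from `a` to `b`. -/

set_option autoImplicit false

namespace Pool.Agent.MP_245544_coL

open Set

/-- `S` is a Jordan arc from `a` to `b`. -/
def Arc (S : Set ℂ) (a b : ℂ) : Prop :=
  ∃ g : unitInterval → ℂ, Continuous g ∧ Function.Injective g ∧ g 0 = a ∧ g 1 = b ∧ Set.range g = S

theorem Arc.mem_left {S : Set ℂ} {a b : ℂ} (h : Arc S a b) : a ∈ S := by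
  obtain ⟨g, _, _, h0, _, hr⟩ := h
  rw [← hr, ← h0]
  exact ⟨0, rfl⟩

theorem Arc.mem_right {S : Set ℂ} {a b : ℂ} (h : Arc S a b) : b ∈ S := by
  obtain ⟨g, _, _, _, h1, hr⟩ := h
  rw [← hr, ← h1]
  exact ⟨1, rfl⟩

theorem Arc.ne {S : Set ℂ} {a b : ℂ} (h : Arc S a b) : a ≠ b := by
  obtain ⟨g, _, hi, h0, h1, _⟩ := h
  rw [← h0, ← h1]
  intro h
  exact zero_ne_one (hi h)

/-- A path on an interval `[p, q]`. -/
theorem Arc.of_Icc {f : ℝ → ℂ} {p q : ℝ} (hpq : p < q) (hc : ContinuousOn f (Icc p q))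
    (hi : InjOn f (Icc p q)) : Arc (f '' Icc p q) (f p) (f q) := by
  have hd : 0 < q - p := sub_pos.mpr hpq
  have hm : ∀ t : unitInterval, p + (t : ℝ) * (q - p) ∈ Icc p q := by
    intro t
    have h0 := t.2.1
    have h1 := t.2.2
    constructor
    · nlinarith
    · nlinarith
  refine ⟨fun t => f (p + (t : ℝ) * (q - p)), ?_, ?_, ?_, ?_, ?_⟩
  · exact hc.comp_continuous (by fun_prop) hm
  · intro s t hst
    have h := hi (hm s) (hm t) hst
    have h2 : (s : ℝ) * (q - p) = (t : ℝ) * (q - p) := by linarith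
    exact Subtype.ext (mul_right_cancel₀ hd.ne' h2)
  · simp
  · simp
  · ext z
    constructor
    · rintro ⟨t, rfl⟩
      exact ⟨_, hm t, rfl⟩
    · rintro ⟨x, hx, rfl⟩
      have hx0 : 0 ≤ (x - p) / (q - p) := div_nonneg (by linarith [hx.1]) hd.le
      have hx1 : (x - p) / (q - p) ≤ 1 := by
        rw [div_le_one hd]
        linarith [hx.2]
      refine ⟨⟨(x - p) / (q - p), hx0, hx1⟩, ?_⟩
      show f (p + (x - p) / (q - p) * (q - p)) = f x
      rw [div_mul_cancel₀ _ hd.ne']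
      congr 1
      ring

/-- Every arc is the image of `[0, 1]` under a continuous function on the line. -/
theorem Arc.exists_path {S : Set ℂ} {a b : ℂ} (h : Arc S a b) :
    ∃ f : ℝ → ℂ, Continuous f ∧ InjOn f (Icc 0 1) ∧ f 0 = a ∧ f 1 = b ∧ f '' Icc 0 1 = S := by
  obtain ⟨g, hc, hi, h0, h1, hr⟩ := h
  refine ⟨Set.IccExtend (zero_le_one' ℝ) g, hc.Icc_extend', ?_, ?_, ?_, ?_⟩
  · intro s hs t ht hst
    rw [IccExtend_of_mem _ _ hs, IccExtend_of_mem _ _ ht] at hst
    exact congrArg Subtype.val (hi hst)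
  · rw [IccExtend_left]
    exact h0
  · rw [IccExtend_right]
    exact h1
  · rw [← hr]
    ext z
    constructor
    · rintro ⟨t, ht, rfl⟩
      rw [IccExtend_of_mem _ _ ht]
      exact ⟨_, rfl⟩
    · rintro ⟨t, rfl⟩
      exact ⟨t, t.2, IccExtend_of_mem _ _ t.2⟩

/-- A path on `[p, q]` with given image and ends. -/
theorem Arc.of_path {S : Set ℂ} {a b : ℂ} {f : ℝ → ℂ} {p q : ℝ} (hpq : p < q)
    (hc : ContinuousOn f (Icc p q)) (hi : InjOn f (Icc p q)) (ha : f p = a) (hb : f q = b)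
    (hS : f '' Icc p q = S) : Arc S a b := by
  rw [← ha, ← hb, ← hS]
  exact Arc.of_Icc hpq hc hi

theorem Arc.symm {S : Set ℂ} {a b : ℂ} (h : Arc S a b) : Arc S b a := by
  obtain ⟨g, hc, hi, h0, h1, hr⟩ := h
  refine ⟨g ∘ unitInterval.symm, hc.comp unitInterval.continuous_symm,
    hi.comp unitInterval.symm_bijective.injective, ?_, ?_, ?_⟩
  · simp [h1]
  · simp [h0]
  · rw [unitInterval.symm_bijective.surjective.range_comp]
    exact hr

/-- Image under a map which is continuous and injective on the arc. -/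
theorem Arc.image {S : Set ℂ} {a b : ℂ} (h : Arc S a b) {f : ℂ → ℂ} (hc : ContinuousOn f S)
    (hi : InjOn f S) : Arc (f '' S) (f a) (f b) := by
  obtain ⟨g, hg, hgi, h0, h1, hr⟩ := h
  have hm : ∀ t, g t ∈ S := fun t => hr ▸ Set.mem_range_self t
  refine ⟨f ∘ g, hc.comp_continuous hg hm, ?_, ?_, ?_, ?_⟩
  · intro s t hst
    exact hgi (hi (hm s) (hm t) hst)
  · simp [h0]
  · simp [h1]
  · rw [Set.range_comp, hr]

/-- Concatenation of two arcs which meet only in the common end. -/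
theorem Arc.trans {S T : Set ℂ} {a b c : ℂ} (h : Arc S a b) (h' : Arc T b c)
    (hST : S ∩ T ⊆ {b}) : Arc (S ∪ T) a c := by
  obtain ⟨f, hf, hfi, f0, f1, fS⟩ := h.exists_path
  obtain ⟨g, hg, hgi, g0, g1, gT⟩ := h'.exists_path
  have hfS : ∀ t ∈ Icc (0 : ℝ) 1, f t ∈ S := fun t ht => fS ▸ mem_image_of_mem f ht
  have hgT : ∀ t ∈ Icc (0 : ℝ) 1, g t ∈ T := fun t ht => gT ▸ mem_image_of_mem g ht
  set k : ℝ → ℂ := fun t => if t ≤ 1 then f t else g (t - 1) with hk
  have hkc : Continuous k := by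
    refine Continuous.if_le hf (hg.comp (continuous_sub_right 1)) continuous_id continuous_const ?_
    intro t ht
    rw [ht, f1]
    simp [g0]
  have kl : ∀ t, t ≤ 1 → k t = f t := fun t ht => if_pos ht
  have kr : ∀ t, 1 < t → k t = g (t - 1) := fun t ht => if_neg (not_le.mpr ht)
  have kr' : ∀ t, 1 ≤ t → k t = g (t - 1) := by
    intro t ht
    rcases ht.eq_or_lt with h | h
    · rw [kl t h.ge, ← h, f1]
      simp [g0]
    · exact kr t h
  have key : ∀ s t : ℝ, s ∈ Icc (0 : ℝ) 1 → 1 < t → t ≤ 2 → k s = k t → False := by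
    intro s t hs ht ht2 hst
    rw [kl s hs.2, kr t ht] at hst
    have ht' : t - 1 ∈ Icc (0 : ℝ) 1 := ⟨by linarith, by linarith⟩
    have hb : g (t - 1) = b := by
      have : g (t - 1) ∈ S ∩ T := ⟨hst ▸ hfS s hs, hgT _ ht'⟩
      exact hST this
    have h3 := hgi ht' (left_mem_Icc.mpr zero_le_one) (hb.trans g0.symm)
    linarith
  refine Arc.of_path (f := k) (p := 0) (q := 2) (by norm_num) hkc.continuousOn ?_ ?_ ?_ ?_
  · intro s hs t ht hst
    rcases le_or_gt s 1 with h1 | h1 <;> rcases le_or_gt t 1 with h2 | h2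
    · rw [kl s h1, kl t h2] at hst
      exact hfi ⟨hs.1, h1⟩ ⟨ht.1, h2⟩ hst
    · exact (key s t ⟨hs.1, h1⟩ h2 ht.2 hst).elim
    · exact (key t s ⟨ht.1, h2⟩ h1 hs.2 hst.symm).elim
    · rw [kr s h1, kr t h2] at hst
      have h3 := hgi ⟨by linarith, by linarith [hs.2]⟩ ⟨by linarith, by linarith [ht.2]⟩ hst
      linarith
  · rw [kl 0 zero_le_one, f0]
  · rw [kr 2 (by norm_num)]
    norm_num [g1]
  · ext z
    constructor
    · rintro ⟨t, ht, rfl⟩
      rcases le_or_gt t 1 with h1 | h1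
      · left
        rw [kl t h1]
        exact hfS t ⟨ht.1, h1⟩
      · right
        rw [kr t h1]
        exact hgT _ ⟨by linarith, by linarith [ht.2]⟩
    · rintro (hz | hz)
      · rw [← fS] at hz
        obtain ⟨t, ht, rfl⟩ := hz
        exact ⟨t, ⟨ht.1, by linarith [ht.2]⟩, kl t ht.2⟩
      · rw [← gT] at hz
        obtain ⟨t, ht, rfl⟩ := hz
        refine ⟨t + 1, ⟨by linarith [ht.1], by linarith [ht.2]⟩, ?_⟩
        rw [kr' (t + 1) (by linarith [ht.1])]
        congr 1
        ring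

/-- A segment is an arc. -/
theorem arc_segment {a b : ℂ} (h : a ≠ b) : Arc (segment ℝ a b) a b := by
  refine Arc.of_path (f := AffineMap.lineMap (k := ℝ) a b) (p := 0) (q := 1) zero_lt_one
    AffineMap.lineMap_continuous.continuousOn ?_ ?_ ?_ ?_
  · exact (AffineMap.lineMap_injective ℝ h).injOn
  · simp
  · simp
  · rw [segment_eq_image_lineMap]

/-- Arcs given by a function of the radius in polar coordinates. -/
theorem arc_polar {f : ℝ → ℝ} {p q : ℝ} (hp : 0 < p) (hpq : p < q)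
    (hf : ContinuousOn f (Icc p q)) :
    Arc ((fun r : ℝ => (r : ℂ) * Complex.exp (f r * Complex.I)) '' Icc p q)
      ((p : ℂ) * Complex.exp (f p * Complex.I)) ((q : ℂ) * Complex.exp (f q * Complex.I)) := by
  refine Arc.of_Icc (f := fun r : ℝ => (r : ℂ) * Complex.exp (f r * Complex.I)) hpq ?_ ?_
  · refine ContinuousOn.mul Complex.continuous_ofReal.continuousOn ?_
    refine Complex.continuous_exp.comp_continuousOn ?_
    exact (Complex.continuous_ofReal.comp_continuousOn hf).mul continuousOn_const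
  · intro r hr s hs h
    have h1 := congrArg norm h
    simp only [norm_mul, Complex.norm_exp_ofReal_mul_I, mul_one, Complex.norm_real,
      Real.norm_eq_abs] at h1
    rwa [abs_of_pos (hp.trans_le hr.1), abs_of_pos (hp.trans_le hs.1)] at h1

/-- Restriction of an arc to a plane curve with values in the plane of pairs of real numbers. -/
theorem Arc.toProd {S : Set ℂ} {a b : ℂ} (h : Arc S a b) :
    ∃ γ : unitInterval → ℝ × ℝ, Continuous γ ∧ Function.Injective γ ∧ γ 0 = (a.re, a.im) ∧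
      γ 1 = (b.re, b.im) ∧ Set.range γ = (fun z : ℂ => (z.re, z.im)) '' S := by
  obtain ⟨g, hc, hi, h0, h1, hr⟩ := h
  refine ⟨fun t => ((g t).re, (g t).im), ?_, ?_, ?_, ?_, ?_⟩
  · exact (Complex.continuous_re.comp hc).prodMk (Complex.continuous_im.comp hc)
  · intro s t hst
    have h2 := Prod.ext_iff.mp hst
    exact hi (Complex.ext h2.1 h2.2)
  · simp [h0]
  · simp [h1]
  · rw [← hr, ← Set.range_comp]
    rfl

end Pool.Agent.MP_245544_coL
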