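import Pool.Agent.Lib.MP_245544_coL.AsyCopies2
import Pool.Agent.Lib.MP_245544_coI.LogAsy

/-! MP_245544_co, lower bound: from a family of drawn graphs of tower size to the asymptotic bound. -/

namespace Pool.Agent.MP_245544_coL

open Pool.Agent.MP_245544_coT Asymptotics Filter

/-- One step of the sizes: `E ↦ E 2^E`. -/
def stepS (E : ℕ) : ℕ := E * 2 ^ E

theorem stepS_mono : Monotone stepS := fun _ _ h =>
  Nat.mul_le_mul h (Nat.pow_le_pow_right (by norm_num) h)

theorem stepS_iter_mono (j : ℕ) : Monotone (stepS^[j]) := stepS_mono.iterate j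

theorem le_stepS (E : ℕ) : E ≤ stepS E := Nat.le_mul_of_pos_right E (by positivity)

theorem le_stepS_iter (j x : ℕ) : x ≤ stepS^[j] x := by
  induction j with
  | zero => exact le_rfl
  | succ j ih => rw [Function.iterate_succ_apply']; exact ih.trans (le_stepS _)

theorem log_iter_le (j : ℕ) : ∀ (a : ℝ) (_ : 1 ≤ a) (x : ℕ) (_ : 1 ≤ x) (t : ℝ)
    (_ : ∀ i < j, 0 < Real.log^[i] t) (_ : t ≤ a * (stepS^[j] x : ℕ)),
    Real.log^[j] t ≤ (a + j) * x := by
  induction j with
  | zero => intro a _ x _ t _ h; simpa using h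
  | succ j ih =>
    intro a ha x hx t ht h
    rw [Function.iterate_succ_apply]
    have ht0 : 0 < t := by simpa using ht 0 (Nat.succ_pos j)
    set y := stepS^[j] x with hy
    have hy1 : 1 ≤ y := hx.trans (le_stepS_iter j x)
    have hy1' : (1 : ℝ) ≤ (y : ℕ) := by exact_mod_cast hy1
    have hy0 : (0 : ℝ) < (y : ℕ) := by linarith
    have h1 : t ≤ a * ((y : ℝ) * 2 ^ y) := by
      rw [Function.iterate_succ_apply'] at h
      simpa [stepS] using h
    have h2 : Real.log t ≤ Real.log a + (Real.log y + y * Real.log 2) := by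
      have h3 := Real.log_le_log ht0 h1
      rwa [Real.log_mul (by positivity) (by positivity), Real.log_mul (by positivity) (by positivity),
        Real.log_pow] at h3
    have h4 := Real.log_le_sub_one_of_pos (show (0 : ℝ) < a by linarith)
    have h5 := Real.log_le_sub_one_of_pos hy0
    have h6 : Real.log 2 ≤ 1 := by
      have := Real.log_le_sub_one_of_pos (show (0 : ℝ) < 2 by norm_num)
      linarith
    have h7 : (y : ℝ) * Real.log 2 ≤ y := by nlinarith
    have h8 : 0 ≤ (a - 1) * ((y : ℝ) - 1) := mul_nonneg (by linarith) (by linarith)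
    have h9 : Real.log t ≤ (a + 1) * (stepS^[j] x : ℕ) := by
      rw [← hy]; nlinarith
    have h10 := ih (a + 1) (by linarith) x hx (Real.log t) (fun i hi => by
      rw [← Function.iterate_succ_apply]; exact ht (i + 1) (by omega)) h9
    push_cast
    linarith

/-- **From a family of drawn graphs to the asymptotic lower bound.** -/
theorem lower_of_family {j k C p : ℕ} (hC : 1 ≤ C) (hp : 1 ≤ p)
    (H : ∀ D : ℕ, 1 ≤ D → ∃ (V : Type) (_ : Fintype V) (_ : Nonempty V) (G : SimpleGraph V)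
      (Dr : Drawing G), Dr.CrossingsFar k ∧ Fintype.card V ≤ stepS^[j] (C * D ^ p) ∧
        D * Fintype.card V ≤ C * G.edgeSet.ncard) :
    (fun n : ℕ => (n : ℝ) * (Real.log^[j] (n : ℝ)) ^ (1 / (p : ℝ))) =O[atTop]
      (fun n : ℕ => (maxEdges k n : ℝ)) := by
  have hlog : ∀ᶠ n : ℕ in atTop, ∀ i < j + 1, 0 < Real.log^[i] (n : ℝ) := by
    have h1 : ∀ i ∈ Finset.range (j + 1), ∀ᶠ n : ℕ in atTop, 0 < Real.log^[i] (n : ℝ) := fun i _ =>
      (tendsto_log_iter i).eventually_gt_atTop 0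
    filter_upwards [(Filter.eventually_all_finset (Finset.range (j + 1))).2 h1] with n hn i hi
    exact hn i (Finset.mem_range.2 hi)
  refine IsBigO.of_bound (2 * ((1 + j) * C : ℝ) ^ (1 / (p : ℝ)) * (2 * C)) ?_
  filter_upwards [hlog, eventually_ge_atTop (stepS^[j] (C * 1 ^ p)), eventually_ge_atTop 1]
    with n hn hn1 hn2
  classical
  set P : ℕ → Prop := fun D => stepS^[j] (C * D ^ p) ≤ n with hP
  set D := Nat.findGreatest P n with hD
  have hPD : P D := Nat.findGreatest_spec (m := 1) hn2 hn1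
  have hD1 : 1 ≤ D := Nat.le_findGreatest hn2 hn1
  have hlt : n < stepS^[j] (C * (D + 1) ^ p) := by
    by_cases h : D + 1 ≤ n
    · have := Nat.findGreatest_is_greatest (P := P) (Nat.lt_succ_self D) h
      exact not_le.1 this
    · have h0 : D + 1 ≤ (D + 1) ^ p := Nat.le_self_pow (by omega) _
      have h1 : D + 1 ≤ C * (D + 1) ^ p := h0.trans (Nat.le_mul_of_pos_left _ hC)
      have h2 := le_stepS_iter j (C * (D + 1) ^ p)
      omega
  obtain ⟨V, _, _, G, Dr, hfar, hcard, hedges⟩ := H D hD1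
  have hcopies := maxEdges_copies Dr hfar n
  set N := Fintype.card V with hN
  have hN0 : 0 < N := Fintype.card_pos
  have hNn : N ≤ n := hcard.trans hPD
  set q := n / N with hq
  have hq1 : n ≤ 2 * (N * q) := by
    have h1 : 1 ≤ q := (Nat.one_le_div_iff hN0).2 hNn
    have h2 : n < N * q + N := by
      have := Nat.lt_mul_div_succ n hN0
      rw [Nat.mul_add, Nat.mul_one] at this
      exact this
    nlinarith
  have hmain : n * D ≤ 2 * C * maxEdges k n := by
    calc n * D ≤ 2 * (N * q) * D := Nat.mul_le_mul_right _ hq1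
      _ = 2 * q * (D * N) := by ring
      _ ≤ 2 * q * (C * G.edgeSet.ncard) := Nat.mul_le_mul_left _ hedges
      _ = 2 * C * (q * G.edgeSet.ncard) := by ring
      _ ≤ 2 * C * maxEdges k n := Nat.mul_le_mul_left _ hcopies
  have hL0 : 0 < Real.log^[j] (n : ℝ) := hn j (by omega)
  have hL : Real.log^[j] (n : ℝ) ≤ (1 + j) * C * (2 * D) ^ p := by
    have hx : 1 ≤ C * (D + 1) ^ p := Nat.one_le_iff_ne_zero.2 (by positivity)
    have h1 := log_iter_le j 1 le_rfl (C * (D + 1) ^ p) hx (n : ℝ)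
      (fun i hi => hn i (by omega)) (by rw [one_mul]; exact_mod_cast hlt.le)
    refine h1.trans ?_
    have h2 : ((C * (D + 1) ^ p : ℕ) : ℝ) ≤ (C : ℝ) * (2 * D) ^ p := by
      have h3 : C * (D + 1) ^ p ≤ C * (2 * D) ^ p :=
        Nat.mul_le_mul_left _ (Nat.pow_le_pow_left (by omega) p)
      exact_mod_cast h3
    rw [mul_assoc]
    exact mul_le_mul_of_nonneg_left h2 (by positivity)
  have hp0 : (p : ℝ) ≠ 0 := by positivity
  have hS : (Real.log^[j] (n : ℝ)) ^ (1 / (p : ℝ)) ≤ 2 * ((1 + j) * C : ℝ) ^ (1 / (p : ℝ)) * D := by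
    refine (Real.rpow_le_rpow hL0.le hL (by positivity)).trans (le_of_eq ?_)
    rw [Real.mul_rpow (by positivity) (by positivity), ← Real.rpow_natCast (2 * (D : ℝ)) p,
      ← Real.rpow_mul (by positivity), mul_one_div_cancel hp0, Real.rpow_one]
    ring
  rw [Real.norm_of_nonneg (by positivity), Real.norm_of_nonneg (by positivity)]
  have hm' : (n : ℝ) * D ≤ 2 * C * maxEdges k n := by exact_mod_cast hmain
  calc (n : ℝ) * (Real.log^[j] (n : ℝ)) ^ (1 / (p : ℝ))
      ≤ n * (2 * ((1 + j) * C : ℝ) ^ (1 / (p : ℝ)) * D) :=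
        mul_le_mul_of_nonneg_left hS (by positivity)
    _ = 2 * ((1 + j) * C : ℝ) ^ (1 / (p : ℝ)) * (n * D) := by ring
    _ ≤ 2 * ((1 + j) * C : ℝ) ^ (1 / (p : ℝ)) * (2 * C * maxEdges k n) :=
        mul_le_mul_of_nonneg_left hm' (by positivity)
    _ = 2 * ((1 + j) * C : ℝ) ^ (1 / (p : ℝ)) * (2 * C) * maxEdges k n := by ring

/-- The case `p = 2` with a square root. -/
theorem lower_of_family_sqrt {j k C : ℕ} (hC : 1 ≤ C)
    (H : ∀ D : ℕ, 1 ≤ D → ∃ (V : Type) (_ : Fintype V) (_ : Nonempty V) (G : SimpleGraph V)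
      (Dr : Drawing G), Dr.CrossingsFar k ∧ Fintype.card V ≤ stepS^[j] (C * D ^ 2) ∧
        D * Fintype.card V ≤ C * G.edgeSet.ncard) :
    (fun n : ℕ => (n : ℝ) * Real.sqrt (Real.log^[j] (n : ℝ))) =O[atTop]
      (fun n : ℕ => (maxEdges k n : ℝ)) := by
  simpa [Real.sqrt_eq_rpow] using lower_of_family hC (p := 2) (by norm_num) H

theorem log_isBigO_sqrt (j : ℕ) :
    (fun n : ℕ => (n : ℝ) * Real.log^[j + 1] (n : ℝ)) =O[atTop]
      (fun n : ℕ => (n : ℝ) * Real.sqrt (Real.log^[j] (n : ℝ))) := by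
  refine (isBigO_refl _ _).mul ?_
  refine IsBigO.of_bound 2 ?_
  filter_upwards [(tendsto_log_iter j).eventually_gt_atTop 0,
    (tendsto_log_iter (j + 1)).eventually_gt_atTop 0] with n h0 h1
  rw [Real.norm_of_nonneg h1.le, Real.norm_of_nonneg (Real.sqrt_nonneg _),
    Function.iterate_succ_apply']
  have h2 : Real.log (Real.log^[j] (n : ℝ)) = 2 * Real.log (Real.sqrt (Real.log^[j] (n : ℝ))) := by
    rw [Real.log_sqrt h0.le]; ring
  rw [h2]
  have h3 := Real.log_le_sub_one_of_pos (Real.sqrt_pos.2 h0)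
  linarith

end Pool.Agent.MP_245544_coL
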