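import Pool.Agent.Lib.MP_245544_coL.Asy

/-! MP_245544_co, lower bound: asymptotic bounds from families with a general size function. -/

namespace Pool.Agent.MP_245544_coL

open Pool.Agent.MP_245544_coT Asymptotics Filter

/-- **General size function.** -/
theorem lower_of_family_gen {j k C : ℕ} (g : ℕ → ℕ) (hg : ∀ D, 1 ≤ D → D ≤ g D) (h : ℕ → ℝ)
    {K : ℝ} (hK : 0 ≤ K) (hh0 : ∀ᶠ n : ℕ in atTop, 0 ≤ h n)
    (hh : ∀ᶠ n : ℕ in atTop, ∀ D : ℕ, 1 ≤ D →
      Real.log^[j] (n : ℝ) ≤ (1 + j) * (g (D + 1) : ℝ) → h n ≤ K * D)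
    (H : ∀ D : ℕ, 1 ≤ D → ∃ (V : Type) (_ : Fintype V) (_ : Nonempty V) (G : SimpleGraph V)
      (Dr : Drawing G), Dr.CrossingsFar k ∧ Fintype.card V ≤ stepS^[j] (g D) ∧
        D * Fintype.card V ≤ C * G.edgeSet.ncard) :
    (fun n : ℕ => (n : ℝ) * h n) =O[atTop] (fun n : ℕ => (maxEdges k n : ℝ)) := by
  have hlog : ∀ᶠ n : ℕ in atTop, ∀ i < j + 1, 0 < Real.log^[i] (n : ℝ) := by
    have h1 : ∀ i ∈ Finset.range (j + 1), ∀ᶠ n : ℕ in atTop, 0 < Real.log^[i] (n : ℝ) := fun i _ =>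
      (tendsto_log_iter i).eventually_gt_atTop 0
    filter_upwards [(Filter.eventually_all_finset (Finset.range (j + 1))).2 h1] with n hn i hi
    exact hn i (Finset.mem_range.2 hi)
  refine IsBigO.of_bound (K * (2 * C)) ?_
  filter_upwards [hlog, eventually_ge_atTop (stepS^[j] (g 1)), eventually_ge_atTop 1, hh0, hh]
    with n hn hn1 hn2 hn3 hn4
  classical
  set P : ℕ → Prop := fun D => stepS^[j] (g D) ≤ n with hP
  set D := Nat.findGreatest P n with hD
  have hPD : P D := Nat.findGreatest_spec (m := 1) hn2 hn1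
  have hD1 : 1 ≤ D := Nat.le_findGreatest hn2 hn1
  have hlt : n < stepS^[j] (g (D + 1)) := by
    by_cases h : D + 1 ≤ n
    · have := Nat.findGreatest_is_greatest (P := P) (Nat.lt_succ_self D) h
      exact not_le.1 this
    · have h1 : D + 1 ≤ g (D + 1) := hg _ (by omega)
      have h2 := le_stepS_iter j (g (D + 1))
      omega
  obtain ⟨V, _, _, G, Dr, hfar, hcard, hedges⟩ := H D hD1
  have hcopies := maxEdges_copies Dr hfar n
  set N := Fintype.card V with hN
  have hN0 : 0 < N := Fintype.card_pos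
  have hNn : N ≤ n := hcard.trans hPD
  set q := n / N with hq
  have hq1 : n ≤ 2 * (N * q) := by
    have h1 : 1 ≤ q := (Nat.one_le_div_iff hN0).2 hNn
    have h2 : n < N * q + N := by
      have := Nat.lt_mul_div_succ n hN0
      rw [Nat.mul_add, Nat.mul_one] at this
      exact this
    nlinarith
  have hmain : n * D ≤ 2 * C * maxEdges k n := by
    calc n * D ≤ 2 * (N * q) * D := Nat.mul_le_mul_right _ hq1
      _ = 2 * q * (D * N) := by ring
      _ ≤ 2 * q * (C * G.edgeSet.ncard) := Nat.mul_le_mul_left _ hedges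
      _ = 2 * C * (q * G.edgeSet.ncard) := by ring
      _ ≤ 2 * C * maxEdges k n := Nat.mul_le_mul_left _ hcopies
  have hL : Real.log^[j] (n : ℝ) ≤ (1 + j) * (g (D + 1) : ℝ) := by
    have hx : 1 ≤ g (D + 1) := le_trans (by omega) (hg (D + 1) (by omega))
    exact log_iter_le j 1 le_rfl (g (D + 1)) hx (n : ℝ)
      (fun i hi => hn i (by omega)) (by rw [one_mul]; exact_mod_cast hlt.le)
  have hS : h n ≤ K * D := hn4 D hD1 hL
  rw [Real.norm_of_nonneg (by positivity), Real.norm_of_nonneg (by positivity)]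
  have hm' : (n : ℝ) * D ≤ 2 * C * maxEdges k n := by exact_mod_cast hmain
  calc (n : ℝ) * h n ≤ n * (K * D) := mul_le_mul_of_nonneg_left hS (by positivity)
    _ = K * (n * D) := by ring
    _ ≤ K * (2 * C * maxEdges k n) := mul_le_mul_of_nonneg_left hm' hK
    _ = K * (2 * C) * maxEdges k n := by ring

/-- `L ≤ A x (2 log x + 2)` implies `L / log L ≤ 8 A x` (for `x ≥ 1`, `A ≥ 1` and `log L ≥ 1`). -/
theorem growth_aux {L A x : ℝ} (hA : 1 ≤ A) (hx : 1 ≤ x) (hL : 0 < L) (hL1 : 1 ≤ Real.log L)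
    (h : L ≤ A * x * (2 * Real.log x + 2)) : L / Real.log L ≤ 8 * A * x := by
  have hl0 : 0 < Real.log L := by linarith
  have hAx : 1 ≤ A * x := one_le_mul_of_one_le_of_one_le hA hx
  rw [div_le_iff₀ hl0]
  rcases le_total L x with h1 | h1
  · have h2 : x ≤ 8 * A * x := by nlinarith
    nlinarith
  · have h2 : Real.log x ≤ Real.log L := Real.log_le_log (by linarith) h1
    have h3 : A * x * (2 * Real.log x + 2) ≤ A * x * (4 * Real.log L) :=
      mul_le_mul_of_nonneg_left (by linarith) (by linarith)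
    nlinarith

theorem natLog_le (x : ℕ) (hx : 1 ≤ x) : ((Nat.log 2 x : ℕ) : ℝ) ≤ 2 * Real.log x := by
  have h1 : ((Nat.log 2 x : ℕ) : ℝ) ≤ Real.logb 2 x := Real.natLog_le_logb x 2
  refine h1.trans ?_
  rw [Real.logb, div_le_iff₀ (Real.log_pos (by norm_num))]
  have h2 : (0.5 : ℝ) ≤ Real.log 2 := by have := Real.log_two_gt_d9; linarith
  have h3 : 0 ≤ Real.log x := Real.log_nonneg (by exact_mod_cast hx)
  nlinarith

/-- The size function `C D (log₂ (D + 1) + 1)`. -/
theorem lower_of_family_log {j k C : ℕ} (hC : 1 ≤ C)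
    (H : ∀ D : ℕ, 1 ≤ D → ∃ (V : Type) (_ : Fintype V) (_ : Nonempty V) (G : SimpleGraph V)
      (Dr : Drawing G), Dr.CrossingsFar k ∧
        Fintype.card V ≤ stepS^[j] (C * D * (Nat.log 2 (D + 1) + 1)) ∧
        D * Fintype.card V ≤ C * G.edgeSet.ncard) :
    (fun n : ℕ => (n : ℝ) * (Real.log^[j] (n : ℝ) / Real.log^[j + 1] (n : ℝ))) =O[atTop]
      (fun n : ℕ => (maxEdges k n : ℝ)) := by
  refine lower_of_family_gen (C := C) (fun D => C * D * (Nat.log 2 (D + 1) + 1)) ?_ _
    (K := 8 * ((1 + j) * C * 2) * 3) (by positivity) ?_ ?_ H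
  · intro D _
    calc D ≤ C * D := Nat.le_mul_of_pos_left D hC
      _ ≤ C * D * (Nat.log 2 (D + 1) + 1) := Nat.le_mul_of_pos_right _ (by omega)
  · filter_upwards [(tendsto_log_iter j).eventually_gt_atTop 0,
      (tendsto_log_iter (j + 1)).eventually_gt_atTop 0] with n h0 h1
    positivity
  · filter_upwards [(tendsto_log_iter j).eventually_gt_atTop 0,
      (tendsto_log_iter (j + 1)).eventually_ge_atTop 1] with n h0 h1 D hD h2
    rw [Function.iterate_succ_apply'] at h1 ⊢
    set L := Real.log^[j] (n : ℝ) with hLdef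
    have hD' : (1 : ℝ) ≤ D := by exact_mod_cast hD
    have hC' : (1 : ℝ) ≤ C := by exact_mod_cast hC
    have h3 : ((Nat.log 2 (D + 1 + 1) : ℕ) : ℝ) ≤ 2 * Real.log ((D : ℝ) + 2) := by
      have := natLog_le (D + 1 + 1) (by omega)
      push_cast at this
      have e : (D : ℝ) + 2 = D + 1 + 1 := by ring
      rw [e]
      exact this
    have hj : (1 : ℝ) ≤ 1 + j := by have : (0 : ℝ) ≤ j := by positivity
                                    linarith
    have hA : (1 : ℝ) ≤ (1 + j) * C * 2 := by nlinarith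
    have h4 : L ≤ ((1 + j) * C * 2) * ((D : ℝ) + 2) * (2 * Real.log ((D : ℝ) + 2) + 2) := by
      refine h2.trans ?_
      push_cast
      have h5 : ((1 : ℝ) + j) * (C * (D + 1) * ((Nat.log 2 (D + 1 + 1) : ℕ) + 1)) =
          ((1 + j) * C * (D + 1)) * ((Nat.log 2 (D + 1 + 1) : ℕ) + 1) := by ring
      rw [h5]
      have h6 : ((1 : ℝ) + j) * C * (D + 1) ≤ (1 + j) * C * 2 * ((D : ℝ) + 2) := by
        have : (0 : ℝ) ≤ (1 + j) * C := by positivity
        nlinarith
      refine mul_le_mul h6 (by linarith) (by positivity) (by positivity)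
    have h7 := growth_aux hA (by linarith : (1 : ℝ) ≤ (D : ℝ) + 2) h0 h1 h4
    refine h7.trans ?_
    have h8 : ((D : ℝ) + 2) ≤ 3 * D := by linarith
    calc 8 * ((1 + j) * C * 2) * ((D : ℝ) + 2) ≤ 8 * ((1 + j) * C * 2) * (3 * D) :=
          mul_le_mul_of_nonneg_left h8 (by positivity)
      _ = 8 * ((1 + j) * C * 2) * 3 * D := by ring

/-- The size function `(D + 1) ^ (C D)`. -/
theorem lower_of_family_pow {j k C : ℕ} (hC : 1 ≤ C)
    (H : ∀ D : ℕ, 1 ≤ D → ∃ (V : Type) (_ : Fintype V) (_ : Nonempty V) (G : SimpleGraph V)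
      (Dr : Drawing G), Dr.CrossingsFar k ∧
        Fintype.card V ≤ stepS^[j] ((D + 1) ^ (C * D)) ∧
        D * Fintype.card V ≤ C * G.edgeSet.ncard) :
    (fun n : ℕ => (n : ℝ) * (Real.log^[j + 1] (n : ℝ) / Real.log^[j + 2] (n : ℝ))) =O[atTop]
      (fun n : ℕ => (maxEdges k n : ℝ)) := by
  refine lower_of_family_gen (C := C) (fun D => (D + 1) ^ (C * D)) ?_ _
    (K := 8 * ((1 + j) * C) * 3) (by positivity) ?_ ?_ H
  · intro D hD
    calc D ≤ D + 1 := Nat.le_succ D
      _ ≤ (D + 1) ^ (C * D) := Nat.le_self_pow (by positivity) _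
  · filter_upwards [(tendsto_log_iter (j + 1)).eventually_gt_atTop 0,
      (tendsto_log_iter (j + 2)).eventually_gt_atTop 0] with n h0 h1
    positivity
  · filter_upwards [(tendsto_log_iter j).eventually_gt_atTop 0,
      (tendsto_log_iter (j + 1)).eventually_gt_atTop 0,
      (tendsto_log_iter (j + 2)).eventually_ge_atTop 1] with n h00 h0 h1 D hD h2
    have e1 : Real.log^[j + 2] (n : ℝ) = Real.log (Real.log^[j + 1] (n : ℝ)) := by
      rw [Function.iterate_succ_apply']
    have e2 : Real.log^[j + 1] (n : ℝ) = Real.log (Real.log^[j] (n : ℝ)) := by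
      rw [Function.iterate_succ_apply']
    rw [e1] at h1 ⊢
    set L := Real.log^[j + 1] (n : ℝ) with hLdef
    have hD' : (1 : ℝ) ≤ D := by exact_mod_cast hD
    have hC' : (1 : ℝ) ≤ C := by exact_mod_cast hC
    have hj0 : (0 : ℝ) ≤ j := by positivity
    have hA : (1 : ℝ) ≤ (1 + j) * C := by nlinarith
    have h3 : L ≤ Real.log ((1 + j) * (((D : ℝ) + 2) ^ (C * (D + 1)))) := by
      rw [e2]
      refine Real.log_le_log h00 (h2.trans (le_of_eq ?_))
      push_cast
      ring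
    have h4 : L ≤ Real.log (1 + j) + C * (D + 1) * Real.log ((D : ℝ) + 2) := by
      rw [Real.log_mul (by positivity) (by positivity), Real.log_pow] at h3
      push_cast at h3
      exact h3
    have h5 : Real.log (1 + (j : ℝ)) ≤ j := by
      have := Real.log_le_sub_one_of_pos (show (0 : ℝ) < 1 + j by positivity)
      linarith
    have hlog0 : 0 ≤ Real.log ((D : ℝ) + 2) := Real.log_nonneg (by linarith)
    have h6 : L ≤ ((1 + j) * C) * ((D : ℝ) + 2) * (2 * Real.log ((D : ℝ) + 2) + 2) := by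
      refine h4.trans ?_
      have h7 : C * ((D : ℝ) + 1) * Real.log ((D : ℝ) + 2) ≤
          ((1 + j) * C) * ((D : ℝ) + 2) * (2 * Real.log ((D : ℝ) + 2)) := by
        have h8 : (C : ℝ) * ((D : ℝ) + 1) ≤ ((1 + j) * C) * ((D : ℝ) + 2) := by
          have : 0 ≤ (j : ℝ) * C * ((D : ℝ) + 2) := by positivity
          nlinarith
        calc C * ((D : ℝ) + 1) * Real.log ((D : ℝ) + 2)
            ≤ ((1 + j) * C) * ((D : ℝ) + 2) * Real.log ((D : ℝ) + 2) :=
              mul_le_mul_of_nonneg_right h8 hlog0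
          _ ≤ ((1 + j) * C) * ((D : ℝ) + 2) * (2 * Real.log ((D : ℝ) + 2)) :=
              mul_le_mul_of_nonneg_left (by linarith) (by positivity)
      have h9 : Real.log (1 + (j : ℝ)) ≤ ((1 + j) * C) * ((D : ℝ) + 2) * 2 := by
        have h10 : (j : ℝ) ≤ (1 + j) * C := by nlinarith
        have h11 : (1 + (j : ℝ)) * C * 1 ≤ (1 + j) * C * (((D : ℝ) + 2) * 2) :=
          mul_le_mul_of_nonneg_left (by linarith) (by positivity)
        linarith
      linarith
    have h7 := growth_aux hA (by linarith : (1 : ℝ) ≤ (D : ℝ) + 2) h0 h1 h6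
    refine h7.trans ?_
    calc 8 * ((1 + j) * C) * ((D : ℝ) + 2) ≤ 8 * ((1 + j) * C) * (3 * D) :=
          mul_le_mul_of_nonneg_left (by linarith) (by positivity)
      _ = 8 * ((1 + j) * C) * 3 * D := by ring

end Pool.Agent.MP_245544_coL
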