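import Pool.Agent.Lib.MP_245544_coT.Defs

/-! MP_245544_co, lower bound: disjoint copies of a drawing and isolated vertices. -/

namespace Pool.Agent.MP_245544_coL

open Pool.Agent.MP_245544_coT

variable {V W : Type}

/-! ### a general transport lemma for the distance of edges -/

/-- Edge distances do not get smaller under a homomorphism which is injective on connected pieces. -/
theorem edgeDistGE_of_hom {H : SimpleGraph W} {G : SimpleGraph V} (φ : H →g G)
    (hφ : ∀ (u v : W) (p : H.Walk u v), ∀ x ∈ p.support, ∀ y ∈ p.support, φ x = φ y → x = y)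
    {k : ℕ} {e e' : Sym2 W} (h : EdgeDistGE G k (e.map φ) (e'.map φ)) : EdgeDistGE H k e e' := by
  intro u v p hp h1 h2
  have hpath : (p.map φ).IsPath := by
    rw [SimpleGraph.Walk.isPath_def, SimpleGraph.Walk.support_map]
    exact List.Nodup.map_on (fun x hx y hy hxy => hφ u v p x hx y hy hxy) hp.support_nodup
  have h3 := h _ _ (p.map φ) hpath (by rw [SimpleGraph.Walk.edges_map, List.head?_map, h1]; rfl)
    (by rw [SimpleGraph.Walk.edges_map, List.getLast?_map, h2]; rfl)
  rwa [SimpleGraph.Walk.length_map] at h3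

/-! ### transport along a bijection -/

/-- Transport of a drawing along a bijection of the vertices. -/
def comapDrawing {G : SimpleGraph W} (D : Drawing G) (σ : V ≃ W) : Drawing (G.comap σ) where
  pt v := D.pt (σ v)
  pt_injective := D.pt_injective.comp σ.injective
  arc e := D.arc (e.map σ)
  isArc u v h := D.isArc (σ u) (σ v) h
  avoid e he w hw := by
    induction e using Sym2.ind with
    | _ a b =>
      have h1 : G.Adj (σ a) (σ b) := he
      have h2 := D.avoid s(σ a, σ b) h1 (σ w) hw
      rw [Sym2.mem_iff] at h2 ⊢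
      rcases h2 with h2 | h2
      · exact Or.inl (σ.injective h2)
      · exact Or.inr (σ.injective h2)

theorem comapDrawing_far {G : SimpleGraph W} (D : Drawing G) (σ : V ≃ W) {k : ℕ}
    (h : D.CrossingsFar k) : (comapDrawing D σ).CrossingsFar k := by
  intro e he e' he' hc
  have hom : G.comap σ →g G := ⟨σ, fun {a b} hab => hab⟩
  refine edgeDistGE_of_hom (H := G.comap σ) (G := G) ⟨σ, fun {a b} hab => hab⟩
    (fun u v p x _ y _ hxy => σ.injective hxy) ?_
  refine h _ ?_ _ ?_ ?_
  · induction e using Sym2.ind with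
    | _ a b => exact he
  · induction e' using Sym2.ind with
    | _ a b => exact he'
  · obtain ⟨hne, x, hx, hw⟩ := hc
    refine ⟨fun h => hne (Sym2.map.injective σ.injective h), x, hx, ?_⟩
    intro w h1 h2
    obtain ⟨w1, hw1, rfl⟩ := Sym2.mem_map.1 h1
    obtain ⟨w2, hw2, h4⟩ := Sym2.mem_map.1 h2
    have h5 : w2 = w1 := σ.injective h4
    subst h5
    exact hw _ hw1 hw2

theorem comap_ncard {G : SimpleGraph W} (σ : V ≃ W) :
    (G.comap σ).edgeSet.ncard = G.edgeSet.ncard := by
  have h1 : G.edgeSet = Sym2.map σ '' (G.comap σ).edgeSet := by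
    ext e
    constructor
    · intro he
      refine ⟨e.map σ.symm, ?_, ?_⟩
      · induction e using Sym2.ind with
        | _ a b =>
          have : G.Adj (σ (σ.symm a)) (σ (σ.symm b)) := by simpa using he
          exact this
      · rw [Sym2.map_map]; simp
    · rintro ⟨e', he', rfl⟩
      induction e' using Sym2.ind with
      | _ a b => exact he'
  rw [h1, Set.ncard_image_of_injective _ (Sym2.map.injective σ.injective)]

/-- Lower bounds for `maxEdges` from a drawing of a graph on any vertex type. -/
theorem le_maxEdges {k n : ℕ} [Fintype W] (hW : Fintype.card W = n) {G : SimpleGraph W}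
    (D : Drawing G) (h : D.CrossingsFar k) : G.edgeSet.ncard ≤ maxEdges k n := by
  have hcard : Fintype.card (Fin n) = Fintype.card W := by rw [hW, Fintype.card_fin]
  let σ : Fin n ≃ W := Fintype.equivOfCardEq hcard
  refine le_csSup ?_ ⟨G.comap σ, comapDrawing D σ, comapDrawing_far D σ h, comap_ncard σ⟩
  refine ⟨Nat.card (Sym2 (Fin n)), ?_⟩
  rintro m ⟨G', _, _, rfl⟩
  exact Set.ncard_le_card _

/-! ### disjoint copies -/

/-- The copy of a vertex (`none` for the isolated vertices). -/
def copyIdx {m r : ℕ} : (Fin m × V) ⊕ Fin r → Option (Fin m)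
  | Sum.inl p => some p.1
  | Sum.inr _ => none

/-- Projection to the original graph. -/
def projV {m r : ℕ} (v0 : V) : (Fin m × V) ⊕ Fin r → V
  | Sum.inl p => p.2
  | Sum.inr _ => v0

/-- `m` disjoint copies of `G` and `r` isolated vertices. -/
def copies (G : SimpleGraph V) (m r : ℕ) : SimpleGraph ((Fin m × V) ⊕ Fin r) where
  Adj x y := ∃ (i : Fin m) (a b : V), x = Sum.inl (i, a) ∧ y = Sum.inl (i, b) ∧ G.Adj a b
  symm := by
    constructor
    rintro x y ⟨i, a, b, h1, h2, h3⟩
    exact ⟨i, b, a, h2, h1, h3.symm⟩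
  loopless := by
    constructor
    rintro x ⟨i, a, b, h1, h2, h3⟩
    rw [h1] at h2
    have h4 : a = b := by simpa using h2
    exact G.ne_of_adj h3 h4

variable {G : SimpleGraph V} {m r : ℕ}

/-- The projection as a homomorphism. -/
def projHom (G : SimpleGraph V) (m r : ℕ) (v0 : V) : copies G m r →g G where
  toFun := projV v0
  map_rel' := by
    rintro x y ⟨i, a, b, rfl, rfl, h⟩
    exact h

theorem copyIdx_walk {x y : (Fin m × V) ⊕ Fin r} (p : (copies G m r).Walk x y) :
    ∀ z ∈ p.support, copyIdx z = copyIdx x := by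
  induction p with
  | nil => intro z hz; rw [SimpleGraph.Walk.support_nil, List.mem_singleton] at hz; rw [hz]
  | cons h p ih =>
    intro z hz
    rw [SimpleGraph.Walk.support_cons, List.mem_cons] at hz
    obtain ⟨i, a, b, h1, h2, -⟩ := h
    rcases hz with rfl | hz
    · rfl
    · rw [ih z hz, h1, h2]; rfl

theorem projV_injOn {v0 : V} {x y : (Fin m × V) ⊕ Fin r} {i : Fin m} (hx : copyIdx x = some i)
    (hy : copyIdx y = some i) (h : projV v0 x = projV v0 y) : x = y := by
  rcases x with ⟨j, a⟩ | x
  · rcases y with ⟨j', b⟩ | y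
    · simp only [copyIdx, Option.some.injEq] at hx hy
      simp only [projV] at h
      subst hx; subst hy; subst h; rfl
    · simp [copyIdx] at hy
  · simp [copyIdx] at hx

end Pool.Agent.MP_245544_coL
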