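import Pool.Agent.Lib.MP_245544_coL.AsyCopies

/-! MP_245544_co, lower bound: the drawing of disjoint copies. -/

namespace Pool.Agent.MP_245544_coL

open Pool.Agent.MP_245544_coT

variable {V W : Type} {G : SimpleGraph V} {m r : ℕ}

/-- A drawing of a finite graph is contained in a strip. -/
theorem exists_strip [Finite V] (D : Drawing G) : ∃ B : ℝ, 0 < B ∧ (∀ v, |(D.pt v).1| < B) ∧
    ∀ e ∈ G.edgeSet, ∀ z ∈ D.arc e, |z.1| < B := by
  have hc : IsCompact (Set.range D.pt ∪ ⋃ e ∈ G.edgeSet, D.arc e) := by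
    refine IsCompact.union (Set.finite_range _).isCompact ?_
    refine (Set.toFinite G.edgeSet).isCompact_biUnion ?_
    intro e he
    induction e using Sym2.ind with
    | _ a b =>
      obtain ⟨γ, h1, -, -, -, h5⟩ := D.isArc a b he
      rw [← h5]
      exact isCompact_range h1
  obtain ⟨C, hC⟩ := hc.exists_bound_of_continuousOn (f := fun z : ℝ × ℝ => z.1)
    continuous_fst.continuousOn
  refine ⟨|C| + 1, by positivity, ?_, ?_⟩
  · intro v
    have h := hC (D.pt v) (Or.inl ⟨v, rfl⟩)
    rw [Real.norm_eq_abs] at h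
    linarith [le_abs_self C]
  · intro e he z hz
    have h := hC z (Or.inr (Set.mem_biUnion he hz))
    rw [Real.norm_eq_abs] at h
    linarith [le_abs_self C]

/-- The translation of the copy `i`. -/
def sh (B : ℝ) {m : ℕ} (i : Fin m) : ℝ × ℝ := (2 * B * ((i : ℕ) + 1), 0)

/-- Two copies have disjoint strips. -/
theorem strip_unique {B : ℝ} (hB : 0 < B) {i j : Fin m} {z : ℝ × ℝ}
    (h1 : |(z - sh B i).1| < B) (h2 : |(z - sh B j).1| < B) : i = j := by
  simp only [sh, Prod.fst_sub] at h1 h2
  rw [abs_lt] at h1 h2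
  have h3 : (2 : ℝ) * B * ((i : ℕ) + 1) < 2 * B * ((j : ℕ) + 1) + 2 * B := by linarith
  have h4 : (2 : ℝ) * B * ((j : ℕ) + 1) < 2 * B * ((i : ℕ) + 1) + 2 * B := by linarith
  have h5 : ((i : ℕ) : ℝ) < (j : ℕ) + 1 := by
    by_contra h; push Not at h; nlinarith
  have h6 : ((j : ℕ) : ℝ) < (i : ℕ) + 1 := by
    by_contra h; push Not at h; nlinarith
  have h7 : (i : ℕ) < (j : ℕ) + 1 := by exact_mod_cast h5
  have h8 : (j : ℕ) < (i : ℕ) + 1 := by exact_mod_cast h6
  exact Fin.ext (by omega)

theorem strip_pos {B : ℝ} (hB : 0 < B) {i : Fin m} {z : ℝ × ℝ}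
    (h1 : |(z - sh B i).1| < B) : 0 < z.1 := by
  simp only [sh, Prod.fst_sub] at h1
  rw [abs_lt] at h1
  have : (0 : ℝ) ≤ 2 * B * (i : ℕ) := by positivity
  nlinarith [h1.1]

/-- The points of the copies. -/
def copiesPt (D : Drawing G) (B : ℝ) : (Fin m × V) ⊕ Fin r → ℝ × ℝ
  | Sum.inl p => D.pt p.2 + sh B p.1
  | Sum.inr s => (-((s : ℕ) : ℝ), 0)

/-- The drawing of disjoint copies. -/
def copiesDrawing (D : Drawing G) (v0 : V) {B : ℝ} (hB : 0 < B) (hB1 : ∀ v, |(D.pt v).1| < B)
    (hB2 : ∀ e ∈ G.edgeSet, ∀ z ∈ D.arc e, |z.1| < B) (m r : ℕ) : Drawing (copies G m r) where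
  pt := copiesPt D B
  pt_injective := by
    rintro (⟨i, a⟩ | s) (⟨j, b⟩ | t) h
    · have h1 : |(copiesPt (m := m) (r := r) D B (Sum.inl (i, a)) - sh B i).1| < B := by
        simpa [copiesPt] using hB1 a
      have h2 : |(copiesPt (m := m) (r := r) D B (Sum.inl (i, a)) - sh B j).1| < B := by
        rw [h]; simpa [copiesPt] using hB1 b
      have h3 := strip_unique hB h1 h2
      subst h3
      have h4 : D.pt a = D.pt b := by simpa [copiesPt] using h
      rw [D.pt_injective h4]
    · exfalso
      have h1 : |(copiesPt (m := m) (r := r) D B (Sum.inl (i, a)) - sh B i).1| < B := by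
        simpa [copiesPt] using hB1 a
      have h2 := strip_pos hB h1
      rw [h] at h2
      simp only [copiesPt] at h2
      have : (0 : ℝ) ≤ ((t : ℕ) : ℝ) := by positivity
      linarith
    · exfalso
      have h1 : |(copiesPt (m := m) (r := r) D B (Sum.inl (j, b)) - sh B j).1| < B := by
        simpa [copiesPt] using hB1 b
      have h2 := strip_pos hB h1
      rw [← h] at h2
      simp only [copiesPt] at h2
      have : (0 : ℝ) ≤ ((s : ℕ) : ℝ) := by positivity
      linarith
    · simp only [copiesPt, Prod.mk.injEq, neg_inj, Nat.cast_inj, and_true] at h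
      rw [Fin.ext h]
  arc e := {z | ∃ i : Fin m, (∀ w ∈ e, copyIdx w = some i) ∧ z - sh B i ∈ D.arc (e.map (projV v0))}
  isArc := by
    rintro x y ⟨i, a, b, rfl, rfl, hab⟩
    obtain ⟨γ, h1, h2, h3, h4, h5⟩ := D.isArc a b hab
    refine ⟨fun t => γ t + sh B i, h1.add continuous_const, fun s t h => h2 (add_right_cancel h),
      by simp [copiesPt, h3], by simp [copiesPt, h4], ?_⟩
    ext z
    constructor
    · rintro ⟨t, rfl⟩
      refine ⟨i, ?_, ?_⟩
      · intro w hw
        rw [Sym2.mem_iff] at hw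
        rcases hw with rfl | rfl <;> rfl
      · have : γ t ∈ D.arc s(a, b) := by rw [← h5]; exact ⟨t, rfl⟩
        simpa [projV] using this
    · rintro ⟨j, h6, h7⟩
      have hj : i = j := by
        have := h6 (Sum.inl (i, a)) (Sym2.mem_mk_left _ _)
        simpa [copyIdx] using this
      subst hj
      have h8 : z - sh B i ∈ Set.range γ := by rw [h5]; simpa [projV] using h7
      obtain ⟨t, ht⟩ := h8
      exact ⟨t, by simp [ht]⟩
  avoid := by
    intro e he w hw
    obtain ⟨i, h1, h2⟩ := hw
    induction e using Sym2.ind with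
    | _ x y =>
      obtain ⟨j, a, b, rfl, rfl, hab⟩ := he
      have hj : j = i := by
        have := h1 (Sum.inl (j, a)) (Sym2.mem_mk_left _ _)
        simpa [copyIdx] using this
      subst hj
      have h3 : copiesPt D B w - sh B j ∈ D.arc s(a, b) := by simpa [projV] using h2
      have h4 := hB2 _ hab _ h3
      rcases w with ⟨l, c⟩ | s
      · have h5 : |(copiesPt (m := m) (r := r) D B (Sum.inl (l, c)) - sh B l).1| < B := by
          simpa [copiesPt] using hB1 c
        have h6 := strip_unique hB h4 h5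
        subst h6
        have h7 : D.pt c ∈ D.arc s(a, b) := by simpa [copiesPt] using h3
        have h8 := D.avoid _ hab _ h7
        rw [Sym2.mem_iff] at h8 ⊢
        rcases h8 with rfl | rfl
        · exact Or.inl rfl
        · exact Or.inr rfl
      · exfalso
        have h2 := strip_pos hB h4
        simp only [copiesPt] at h2
        have : (0 : ℝ) ≤ ((s : ℕ) : ℝ) := by positivity
        linarith

theorem copiesDrawing_far (D : Drawing G) (v0 : V) {B : ℝ} (hB : 0 < B)
    (hB1 : ∀ v, |(D.pt v).1| < B) (hB2 : ∀ e ∈ G.edgeSet, ∀ z ∈ D.arc e, |z.1| < B) (m r : ℕ)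
    {k : ℕ} (h : D.CrossingsFar k) : (copiesDrawing D v0 hB hB1 hB2 m r).CrossingsFar k := by
  intro e he e' he' hc
  refine edgeDistGE_of_hom (projHom G m r v0) ?_ ?_
  · intro u v p x hx y hy hxy
    cases p with
    | nil =>
      rw [SimpleGraph.Walk.support_nil, List.mem_singleton] at hx hy
      rw [hx, hy]
    | cons hadj p =>
      obtain ⟨i, a, b, h1, h2, -⟩ := id hadj
      have h3 := copyIdx_walk (SimpleGraph.Walk.cons hadj p) x hx
      have h4 := copyIdx_walk (SimpleGraph.Walk.cons hadj p) y hy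
      rw [h1] at h3 h4
      exact projV_injOn h3 h4 hxy
  · obtain ⟨hne, z, ⟨⟨i, h1, h2⟩, ⟨j, h3, h4⟩⟩, hw⟩ := hc
    induction e using Sym2.ind with
    | _ x y =>
    induction e' using Sym2.ind with
    | _ x' y' =>
      obtain ⟨i', a, b, rfl, rfl, hab⟩ := he
      obtain ⟨j', a', b', rfl, rfl, hab'⟩ := he'
      have hi : i' = i := by
        have := h1 (Sum.inl (i', a)) (Sym2.mem_mk_left _ _)
        simpa [copyIdx] using this
      have hj : j' = j := by
        have := h3 (Sum.inl (j', a')) (Sym2.mem_mk_left _ _)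
        simpa [copyIdx] using this
      subst hi; subst hj
      have h5 : z - sh B i' ∈ D.arc s(a, b) := by simpa [projV] using h2
      have h6 : z - sh B j' ∈ D.arc s(a', b') := by simpa [projV] using h4
      have h7 : i' = j' := strip_unique hB (hB2 _ hab _ h5) (hB2 _ hab' _ h6)
      subst h7
      refine h s(a, b) hab s(a', b') hab' ⟨?_, z - sh B i', ⟨h5, h6⟩, ?_⟩
      · intro heq
        apply hne
        have h8 : Sym2.map (fun v => (Sum.inl (i', v) : (Fin m × V) ⊕ Fin r)) s(a, b)
          = Sym2.map (fun v => Sum.inl (i', v)) s(a', b') := by rw [heq]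
        exact h8
      · intro w hw1 hw2 heq
        refine hw (Sum.inl (i', w)) ?_ ?_ ?_
        · rw [Sym2.mem_iff] at hw1 ⊢
          rcases hw1 with rfl | rfl
          · exact Or.inl rfl
          · exact Or.inr rfl
        · rw [Sym2.mem_iff] at hw2 ⊢
          rcases hw2 with rfl | rfl
          · exact Or.inl rfl
          · exact Or.inr rfl
        · change z = D.pt w + sh B i'
          rw [← heq]; simp

theorem copies_ncard [Finite V] (m r : ℕ) : m * G.edgeSet.ncard ≤ (copies G m r).edgeSet.ncard := by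
  let f : Fin m × Sym2 V → Sym2 ((Fin m × V) ⊕ Fin r) := fun p => p.2.map (fun v => Sum.inl (p.1, v))
  have h1 : f '' (Set.univ ×ˢ G.edgeSet) ⊆ (copies G m r).edgeSet := by
    rintro _ ⟨⟨i, e⟩, ⟨-, he⟩, rfl⟩
    induction e using Sym2.ind with
    | _ a b => exact ⟨i, a, b, rfl, rfl, he⟩
  have h2 : Set.InjOn f (Set.univ ×ˢ G.edgeSet) := by
    rintro ⟨i, e⟩ - ⟨j, e'⟩ - h
    induction e using Sym2.ind with
    | _ a b =>
    induction e' using Sym2.ind with
    | _ a' b' =>
      have h3 : (Sum.inl (i, a) : (Fin m × V) ⊕ Fin r) ∈ f (j, s(a', b')) := by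
        rw [← h]; exact Sym2.mem_mk_left _ _
      have hij : i = j := by
        have h4 := Sym2.mem_iff.1 h3
        rcases h4 with h4 | h4 <;> simpa using (by simpa using h4 : i = j ∧ _).1
      subst hij
      have h5 : Sym2.map (fun v => (Sum.inl (i, v) : (Fin m × V) ⊕ Fin r)) s(a, b)
          = Sym2.map (fun v => Sum.inl (i, v)) s(a', b') := h
      have h6 : Function.Injective (fun v : V => (Sum.inl (i, v) : (Fin m × V) ⊕ Fin r)) := by
        intro x y hxy; simpa using hxy
      rw [Sym2.map.injective h6 h5]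
  have h3 : (f '' (Set.univ ×ˢ G.edgeSet)).ncard = m * G.edgeSet.ncard := by
    rw [h2.ncard_image, Set.ncard_prod, Set.ncard_univ, Nat.card_eq_fintype_card,
      Fintype.card_fin]
  rw [← h3]
  exact Set.ncard_le_ncard h1 (Set.toFinite _)

/-- **Disjoint copies.** -/
theorem maxEdges_copies [Fintype V] [Nonempty V] {G : SimpleGraph V} (D : Drawing G) {k : ℕ}
    (h : D.CrossingsFar k) (n : ℕ) :
    n / Fintype.card V * G.edgeSet.ncard ≤ maxEdges k n := by
  obtain ⟨B, hB, hB1, hB2⟩ := exists_strip D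
  obtain ⟨v0⟩ := (inferInstance : Nonempty V)
  set m := n / Fintype.card V
  set r := n % Fintype.card V
  have hcard : Fintype.card ((Fin m × V) ⊕ Fin r) = n := by
    rw [Fintype.card_sum, Fintype.card_prod, Fintype.card_fin, Fintype.card_fin, mul_comm]
    exact Nat.div_add_mod n (Fintype.card V)
  refine le_trans (copies_ncard m r) ?_
  exact le_maxEdges hcard (copiesDrawing D v0 hB hB1 hB2 m r) (copiesDrawing_far D v0 hB hB1 hB2 m r h)

end Pool.Agent.MP_245544_coL
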