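import Pool.Agent.Lib.MP_245544_coL.Iter

/-! MP_245544_co (lower bound): mod 2 boundaries in the cover and flips along a path. -/

namespace Pool.Agent.MP_245544_coL

variable {P Q E : Type}

open Classical in
/-- The mod 2 degree of the vertex `z` in the edge set `D`. -/
noncomputable def Inc.bd (I : Inc P Q E) (D : Finset E) (z : P ⊕ Q) : ZMod 2 :=
  ∑ e ∈ D, ((if Sum.inl (I.a e) = z then 1 else 0) + (if Sum.inr (I.b e) = z then 1 else 0))

theorem two_zero (x : ZMod 2) : x + x = 0 := by
  have h := CharTwo.add_self_eq_zero x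
  exact h

theorem sum_symm [DecidableEq E] (f : E → ZMod 2) (A B : Finset E) :
    ∑ e ∈ symmDiff A B, f e = ∑ e ∈ A, f e + ∑ e ∈ B, f e := by
  have h1 := Finset.sum_inter_add_sum_sdiff A B f
  have h2 := Finset.sum_inter_add_sum_sdiff B A f
  have h3 : ∑ e ∈ symmDiff A B, f e = ∑ e ∈ A \ B, f e + ∑ e ∈ B \ A, f e := by
    rw [symmDiff_def, Finset.sup_eq_union, Finset.sum_union]
    exact disjoint_sdiff_sdiff
  rw [h3, ← h1, ← h2, Finset.inter_comm B A]
  have h4 := two_zero (∑ e ∈ A ∩ B, f e)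
  linear_combination -h4

theorem Inc.bd_symm [DecidableEq E] (I : Inc P Q E) (A B : Finset E) (z : P ⊕ Q) :
    I.bd (symmDiff A B) z = I.bd A z + I.bd B z := sum_symm _ A B

open Classical in
/-- The component of a vertex of the cover. -/
noncomputable def Inc.inv (I : Inc P Q E) (w : (P ⊕ Q) × Finset E) (z : P ⊕ Q) : ZMod 2 :=
  I.bd w.2 z + (if w.1 = z then 1 else 0)

variable [DecidableEq E]

/-- The point end of an edge of the cover. -/
def Inc.pe (I : Inc P Q E) (x : E × Finset E) : (P ⊕ Q) × Finset E := (Sum.inl (I.a x.1), x.2)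

/-- The line end of an edge of the cover. -/
def Inc.qe (I : Inc P Q E) (x : E × Finset E) : (P ⊕ Q) × Finset E :=
  (Sum.inr (I.b x.1), symmDiff x.2 {x.1})

theorem Inc.inv_qe (I : Inc P Q E) (x : E × Finset E) : I.inv (I.qe x) = I.inv (I.pe x) := by
  classical
  funext z
  simp only [Inc.inv, Inc.qe, Inc.pe, I.bd_symm]
  have h1 : I.bd {x.1} z = (if Sum.inl (I.a x.1) = z then 1 else 0) +
      (if Sum.inr (I.b x.1) = z then 1 else 0) := by
    rw [Inc.bd, Finset.sum_singleton]
  rw [h1]
  have h2 := two_zero (1 : ZMod 2)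
  by_cases hA : Sum.inl (I.a x.1) = z <;> by_cases hB : Sum.inr (I.b x.1) = z <;>
    simp only [hA, hB, if_true, if_false] <;> first | ring1 | linear_combination h2

theorem Inc.inv_near (I : Inc P Q E) {k : ℕ} : ∀ {p p' : P × Finset E}, I.cov.Near k p p' →
    I.inv (Sum.inl p.1, p.2) = I.inv (Sum.inl p'.1, p'.2) := by
  induction k with
  | zero =>
    intro p p' h
    have h' : p = p' := h
    rw [h']
  | succ k ih =>
    intro p p' h
    rcases h with h | ⟨X, X', h1, h2, h3⟩
    · rw [h]
    · have h4 := ih h3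
      have h5 : I.pe X = (Sum.inl p.1, p.2) := by rw [← h1]; rfl
      have h6 : I.qe X = I.qe X' := by
        have h7 : I.b X.1 = I.b X'.1 := (congrArg Prod.fst h2 :)
        have h8 : symmDiff X.2 {X.1} = symmDiff X'.2 {X'.1} := (congrArg Prod.snd h2 :)
        simp only [Inc.qe, h7, h8]
      rw [← h5, ← I.inv_qe X, h6, I.inv_qe X']
      exact h4

/-- A digit that changes along a path of the cover belongs to an edge at a point of the path. -/
theorem Inc.flip (I : Inc P Q E) {k : ℕ} : ∀ {p p' : P × Finset E}, I.cov.Near k p p' →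
    ∀ e ∈ symmDiff p.2 p'.2, ∃ s t : ℕ, s + t ≤ k ∧ I.Near s p.1 (I.a e) ∧ I.Near t (I.a e) p'.1 := by
  induction k with
  | zero =>
    intro p p' h e he
    have h' : p = p' := h
    rw [h', symmDiff_self] at he
    exact absurd he (Finset.notMem_empty _)
  | succ k ih =>
    intro p p' h e he
    rcases h with h | ⟨X, X', h1, h2, h3⟩
    · rw [h, symmDiff_self] at he
      exact absurd he (Finset.notMem_empty _)
    · have ha : I.a X.1 = p.1 := by rw [← h1]; rfl
      have hx2 : X.2 = p.2 := by rw [← h1]; rfl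
      have hb : I.b X.1 = I.b X'.1 := (congrArg Prod.fst h2 :)
      have hs : symmDiff X.2 {X.1} = symmDiff X'.2 {X'.1} := (congrArg Prod.snd h2 :)
      have h3' : I.Near k (I.a X'.1) p'.1 := Inc.Near.proj h3
      by_cases he1 : e = X.1
      · rw [he1, ha]
        refine ⟨0, k + 1, by omega, rfl, Or.inr ⟨X.1, X'.1, ha, hb, h3'⟩⟩
      by_cases he2 : e = X'.1
      · rw [he2]
        refine ⟨1, k, by omega, Or.inr ⟨X.1, X'.1, ha, hb, ?_⟩, h3'⟩
        exact Inc.Near.refl I 0 _
      · have h4 : e ∈ symmDiff X'.2 p'.2 := by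
          have h8 : e ∈ symmDiff X.2 {X.1} ↔ e ∈ symmDiff X'.2 {X'.1} := by rw [hs]
          rw [Finset.mem_symmDiff, Finset.mem_symmDiff, Finset.mem_singleton,
            Finset.mem_singleton] at h8
          rw [← hx2] at he
          rw [Finset.mem_symmDiff] at he ⊢
          tauto
        obtain ⟨s, t, h5, h6, h7⟩ := ih h3 e h4
        exact ⟨s + 1, t, by omega, Or.inr ⟨X.1, X'.1, ha, hb, h6⟩, h7⟩

/-- A set of edges of a forest with even degrees is empty. -/
theorem Inc.Leaf.empty {I : Inc P Q E} {Z : Set E} (h : I.Leaf Z) {D : Finset E}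
    (hD : ∀ e ∈ D, e ∈ Z) (hb : ∀ z, I.bd D z = 0) : D = ∅ := by
  classical
  by_contra hne
  rcases h D (Finset.nonempty_iff_ne_empty.2 hne) hD with ⟨e, he, hu⟩ | ⟨e, he, hu⟩
  · have h1 := hb (Sum.inl (I.a e))
    rw [Inc.bd, Finset.sum_eq_single_of_mem e he] at h1
    · simp at h1
    · intro e' he' hne'
      have h2 : ¬ I.a e' = I.a e := fun h3 => hne' (hu e' he' h3)
      simp [h2]
  · have h1 := hb (Sum.inr (I.b e))
    rw [Inc.bd, Finset.sum_eq_single_of_mem e he] at h1
    · simp at h1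
    · intro e' he' hne'
      have h2 : ¬ I.b e' = I.b e := fun h3 => hne' (hu e' he' h3)
      simp [h2]

end Pool.Agent.MP_245544_coL
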