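import Pool.Agent.Lib.MP_245544_coL.Arc
import Pool.Agent.Lib.MP_245544_coT.Defs

/-! MP_245544_co, lower bound: blocks of a code `c : V → ℕ`, the condition on the edges that leave a
block, arcs in the complex plane, and the two structures of the drawing induction. -/

namespace Pool.Agent.MP_245544_coL

variable {V : Type}

/-- The edge `e` of `G` leaves the block `(j, b)`, the set of `v` with `c v / 2 ^ j = b`. -/
def Leave (G : SimpleGraph V) (c : V → ℕ) (j b : ℕ) (e : Sym2 V) : Prop :=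
  e ∈ G.edgeSet ∧ ∃ u v, e = s(u, v) ∧ c u / 2 ^ j = b ∧ c v / 2 ^ j ≠ b

/-- All vertices of `e` are in the block `(j, b)`. -/
def Inside (c : V → ℕ) (j b : ℕ) (e : Sym2 V) : Prop := ∀ v ∈ e, c v / 2 ^ j = b

/-- Some vertex of `e` is in the block `(j, b)`. -/
def Touch (c : V → ℕ) (j b : ℕ) (e : Sym2 V) : Prop := ∃ v ∈ e, c v / 2 ^ j = b

/-- One step of a chain of near edges that leave the block `(j, b)`. -/
def Chn (G : SimpleGraph V) (c : V → ℕ) (R : Sym2 V → Sym2 V → Prop) (j b : ℕ) (x y : Sym2 V) :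
    Prop := Leave G c j b x ∧ Leave G c j b y ∧ R x y

/-- The condition on a code: two edges that leave a block, stay inside the block of the next level
and are joined by a chain of near edges that leave the block are equal. -/
structure IsCode (G : SimpleGraph V) (c : V → ℕ) (R : Sym2 V → Sym2 V → Prop) : Prop where
  inj : Function.Injective c
  symm : ∀ e e', R e e' → R e' e
  share : ∀ e ∈ G.edgeSet, ∀ e' ∈ G.edgeSet, ∀ v, v ∈ e → v ∈ e' → R e e'
  one : ∀ j b e e', Leave G c j b e → Leave G c j b e' → Inside c (j + 1) (b / 2) e →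
    Inside c (j + 1) (b / 2) e' → Relation.ReflTransGen (Chn G c R j b) e e' → e = e'

/-- A drawing of the block `(j, b)` in the unit disc: finished edges are arcs in the open disc, every
edge that leaves the block has a strand to the unit circle. -/
structure Lev (G : SimpleGraph V) (c : V → ℕ) (R : Sym2 V → Sym2 V → Prop) (j b : ℕ) where
  pt : V → ℂ
  cur : Sym2 V → Set ℂ
  ep : Sym2 V → ℂ
  pt_in : ∀ v, c v / 2 ^ j = b → ‖pt v‖ < 1
  pt_inj : ∀ v w, c v / 2 ^ j = b → c w / 2 ^ j = b → pt v = pt w → v = w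
  ep_norm : ∀ e, Leave G c j b e → ‖ep e‖ = 1
  ep_inj : ∀ e e', Leave G c j b e → Leave G c j b e' → ep e = ep e' → e = e'
  str : ∀ u v, G.Adj u v → c u / 2 ^ j = b → c v / 2 ^ j ≠ b → Arc (cur s(u, v)) (pt u) (ep s(u, v))
  str_in : ∀ e, Leave G c j b e → ∀ z ∈ cur e, ‖z‖ < 1 ∨ z = ep e
  edg : ∀ u v, G.Adj u v → c u / 2 ^ j = b → c v / 2 ^ j = b → Arc (cur s(u, v)) (pt u) (pt v)
  edg_in : ∀ e ∈ G.edgeSet, Inside c j b e → ∀ z ∈ cur e, ‖z‖ < 1
  avoid : ∀ e ∈ G.edgeSet, Touch c j b e → ∀ w, c w / 2 ^ j = b → pt w ∈ cur e → w ∈ e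
  near : ∀ e ∈ G.edgeSet, ∀ e' ∈ G.edgeSet, Touch c j b e → Touch c j b e' → R e e' → e ≠ e' →
    ∀ z ∈ cur e, z ∈ cur e' → ∃ w, w ∈ e ∧ w ∈ e' ∧ c w / 2 ^ j = b ∧ z = pt w

/-- The drawing of the block `(j, b)` in the unit disc, with its strands prolonged inside the disc
with centre `2` and radius `4`: the strands of the edges that stay inside the block `(j + 1, b / 2)`
end at `2`, the others on the circle, and everything else is in the open disc left of `2`. -/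
structure Half (G : SimpleGraph V) (c : V → ℕ) (R : Sym2 V → Sym2 V → Prop) (j b : ℕ) where
  pt : V → ℂ
  hc : Sym2 V → Set ℂ
  fp : Sym2 V → ℂ
  pt_in : ∀ v, c v / 2 ^ j = b → ‖pt v‖ < 1
  pt_inj : ∀ v w, c v / 2 ^ j = b → c w / 2 ^ j = b → pt v = pt w → v = w
  fp_norm : ∀ e, Leave G c j b e → ‖fp e - 2‖ = 4
  fp_re : ∀ e, Leave G c j b e → (fp e).re < 2
  fp_inj : ∀ e e', Leave G c j b e → Leave G c j b e' → fp e = fp e' → e = e'
  arc_mid : ∀ u v, G.Adj u v → c u / 2 ^ j = b → c v / 2 ^ j ≠ b → c v / 2 ^ (j + 1) = b / 2 →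
    Arc (hc s(u, v)) (pt u) 2
  arc_out : ∀ u v, G.Adj u v → c u / 2 ^ j = b → c v / 2 ^ (j + 1) ≠ b / 2 →
    Arc (hc s(u, v)) (pt u) (fp s(u, v))
  arc_in : ∀ u v, G.Adj u v → c u / 2 ^ j = b → c v / 2 ^ j = b → Arc (hc s(u, v)) (pt u) (pt v)
  hc_none : ∀ e, ¬ Touch c j b e → hc e = ∅
  hc_disc : ∀ e ∈ G.edgeSet, ∀ z ∈ hc e,
    ‖z - 2‖ < 4 ∨ (Leave G c j b e ∧ ¬ Inside c (j + 1) (b / 2) e ∧ z = fp e)
  hc_side : ∀ e ∈ G.edgeSet, ∀ z ∈ hc e,
    z.re < 2 ∨ (Leave G c j b e ∧ Inside c (j + 1) (b / 2) e ∧ z = 2)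
  avoid : ∀ e ∈ G.edgeSet, ∀ w, c w / 2 ^ j = b → pt w ∈ hc e → w ∈ e
  near : ∀ e ∈ G.edgeSet, ∀ e' ∈ G.edgeSet, R e e' → e ≠ e' →
    ∀ z ∈ hc e, z ∈ hc e' → ∃ w, w ∈ e ∧ w ∈ e' ∧ c w / 2 ^ j = b ∧ z = pt w

theorem Leave.edge {G : SimpleGraph V} {c : V → ℕ} {j b : ℕ} {e : Sym2 V} (h : Leave G c j b e) :
    e ∈ G.edgeSet := h.1

theorem Leave.touch {G : SimpleGraph V} {c : V → ℕ} {j b : ℕ} {e : Sym2 V} (h : Leave G c j b e) :
    Touch c j b e := by
  obtain ⟨_, u, v, rfl, h1, _⟩ := h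
  exact ⟨u, by simp, h1⟩

/-- An edge that meets a block leaves it or is inside. -/
theorem Touch.cases {G : SimpleGraph V} {c : V → ℕ} {j b : ℕ} {e : Sym2 V} (he : e ∈ G.edgeSet)
    (h : Touch c j b e) : Leave G c j b e ∨ Inside c j b e := by
  classical
  obtain ⟨u, hu, h1⟩ := h
  by_cases hI : Inside c j b e
  · exact Or.inr hI
  · left
    unfold Inside at hI
    push Not at hI
    obtain ⟨v, hv, h2⟩ := hI
    refine ⟨he, u, v, ?_, h1, h2⟩
    have huv : u ≠ v := by rintro rfl; exact h2 h1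
    exact (Sym2.mem_and_mem_iff huv).1 ⟨hu, hv⟩

theorem Leave.not_inside {G : SimpleGraph V} {c : V → ℕ} {j b : ℕ} {e : Sym2 V}
    (h : Leave G c j b e) : ¬ Inside c j b e := by
  obtain ⟨_, u, v, rfl, _, h2⟩ := h
  intro hI
  exact h2 (hI v (by simp))

end Pool.Agent.MP_245544_coL
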