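import Pool.Agent.Lib.MP_245544_coL.Bd
import Pool.Agent.Lib.MP_245544_coL.Blk

/-! MP_245544_co (lower bound): the graph of the last cover, its binary code, and the condition on the
code. -/

namespace Pool.Agent.MP_245544_coL

open Pool.Agent.MP_245544_coT

variable {P Q E : Type} [DecidableEq E]

/-- The edge `x` of the last cover. -/
def Inc.ed (I : Inc P Q E) (x : E × Finset E) : Sym2 ((P ⊕ Q) × Finset E) := s(I.pe x, I.qe x)

/-- The graph of the last cover. -/
def Inc.cg (I : Inc P Q E) : SimpleGraph ((P ⊕ Q) × Finset E) :=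
  SimpleGraph.fromEdgeSet (Set.range I.ed)

theorem Inc.pe_ne_qe (I : Inc P Q E) (x y : E × Finset E) : I.pe x ≠ I.qe y := by
  intro h
  have h1 := congrArg Prod.fst h
  simp [Inc.pe, Inc.qe] at h1

theorem Inc.ed_inj (I : Inc P Q E) : Function.Injective I.ed := by
  intro x y h
  have h0 : s(I.pe x, I.qe x) = s(I.pe y, I.qe y) := h
  rw [Sym2.eq_iff] at h0
  rcases h0 with ⟨h1, h2⟩ | ⟨h1, -⟩
  · have h3 : x.2 = y.2 := (congrArg Prod.snd h1 :)
    have h4 : symmDiff x.2 {x.1} = symmDiff y.2 {y.1} := (congrArg Prod.snd h2 :)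
    rw [h3] at h4
    have h5 : ({x.1} : Finset E) = {y.1} := symmDiff_right_injective _ h4
    exact Prod.ext (Finset.singleton_injective h5) h3
  · exact absurd h1 (I.pe_ne_qe x y)

theorem Inc.edgeSet_cg (I : Inc P Q E) : I.cg.edgeSet = Set.range I.ed := by
  rw [Inc.cg, SimpleGraph.edgeSet_fromEdgeSet]
  ext e
  constructor
  · exact fun h => h.1
  · rintro ⟨x, rfl⟩
    refine ⟨⟨x, rfl⟩, ?_⟩
    intro h
    have h1 : I.pe x = I.qe x := Sym2.mk_isDiag_iff.1 h
    exact I.pe_ne_qe x x h1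

theorem Inc.cg_adj (I : Inc P Q E) {u v : (P ⊕ Q) × Finset E} (h : I.cg.Adj u v) :
    ∃ x, I.ed x = s(u, v) ∧ ((u = I.pe x ∧ v = I.qe x) ∨ (u = I.qe x ∧ v = I.pe x)) := by
  have h1 : s(u, v) ∈ I.cg.edgeSet := h
  rw [I.edgeSet_cg] at h1
  obtain ⟨x, hx⟩ := h1
  refine ⟨x, hx, ?_⟩
  have h0 : s(I.pe x, I.qe x) = s(u, v) := hx
  rw [Sym2.eq_iff] at h0
  rcases h0 with ⟨h1, h2⟩ | ⟨h1, h2⟩
  · exact Or.inl ⟨h1.symm, h2.symm⟩
  · exact Or.inr ⟨h2.symm, h1.symm⟩

/-- The near relation: the point ends are at most `B` double steps apart. -/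
def Inc.R (I : Inc P Q E) (B : ℕ) (e e' : Sym2 ((P ⊕ Q) × Finset E)) : Prop :=
  ∃ x y, e = I.ed x ∧ e' = I.ed y ∧ I.cov.Near B (I.cov.a x) (I.cov.a y)

/-- A path of the graph gives near point ends. -/
theorem Inc.near_of_walk (I : Inc P Q E) : ∀ {u v : (P ⊕ Q) × Finset E} (p : I.cg.Walk u v)
    (e e' : Sym2 ((P ⊕ Q) × Finset E)), p.edges.head? = some e → p.edges.getLast? = some e' →
    ∃ x y, e = I.ed x ∧ e' = I.ed y ∧
      (u = I.pe x → I.cov.Near (p.length / 2) (I.cov.a x) (I.cov.a y)) ∧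
      (u = I.qe x → I.cov.Near ((p.length - 1) / 2) (I.cov.a x) (I.cov.a y)) := by
  intro u v p
  induction p with
  | nil => intro e e' h; simp at h
  | @cons u w v h p ih =>
    intro e e' he he'
    obtain ⟨x, hx, hxu⟩ := I.cg_adj h
    rw [SimpleGraph.Walk.edges_cons, List.head?_cons, Option.some_inj] at he
    rw [SimpleGraph.Walk.edges_cons] at he'
    cases p with
    | nil =>
      simp only [SimpleGraph.Walk.edges_nil, List.getLast?_singleton, Option.some_inj] at he'
      refine ⟨x, x, ?_, ?_, fun _ => Inc.Near.refl _ _ _, fun _ => Inc.Near.refl _ _ _⟩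
      · rw [← he, hx]
      · rw [← he', hx]
    | @cons w w2 v h' p' =>
      rw [SimpleGraph.Walk.edges_cons, List.getLast?_cons_cons,
        ← SimpleGraph.Walk.edges_cons h' p'] at he'
      obtain ⟨x', y, hx', hy, hP, hQ⟩ := ih s(w, w2) e' (by
        rw [SimpleGraph.Walk.edges_cons, List.head?_cons]) he'
      refine ⟨x, y, by rw [← he, hx], hy, fun hu => ?_, fun hu => ?_⟩
      · have hw : w = I.qe x := by
          rcases hxu with ⟨-, h2⟩ | ⟨h1, -⟩
          · exact h2
          · exact absurd (hu.symm.trans h1) (I.pe_ne_qe x x)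
        have hw' : w = I.qe x' := by
          have h0 : s(w, w2) = s(I.pe x', I.qe x') := hx'
          rw [Sym2.eq_iff] at h0
          rcases h0 with ⟨h1, -⟩ | ⟨h1, -⟩
          · exact absurd (h1.symm.trans hw) (I.pe_ne_qe x' x)
          · exact h1
        have h3 := hQ hw'
        have h4 : I.cov.b x = I.cov.b x' := by
          have h5 : I.qe x = I.qe x' := hw.symm.trans hw'
          have h6 : Sum.inr (I.b x.1) = (Sum.inr (I.b x'.1) : P ⊕ Q) := (congrArg Prod.fst h5 :)
          have h7 : symmDiff x.2 {x.1} = symmDiff x'.2 {x'.1} := (congrArg Prod.snd h5 :)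
          exact Prod.ext (Sum.inr_injective h6) h7
        have h8 : I.cov.Near ((p'.length + 1 - 1) / 2 + 1) (I.cov.a x) (I.cov.a y) :=
          Or.inr ⟨x, x', rfl, h4, h3⟩
        refine h8.mono ?_
        simp only [SimpleGraph.Walk.length_cons]
        omega
      · have hw : w = I.pe x := by
          rcases hxu with ⟨h1, -⟩ | ⟨-, h2⟩
          · exact absurd (h1.symm.trans hu) (I.pe_ne_qe x x)
          · exact h2
        have hw' : w = I.pe x' := by
          have h0 : s(w, w2) = s(I.pe x', I.qe x') := hx'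
          rw [Sym2.eq_iff] at h0
          rcases h0 with ⟨h1, -⟩ | ⟨h1, -⟩
          · exact h1
          · exact absurd (hw.symm.trans h1) (I.pe_ne_qe x x')
        have h3 := hP hw'
        have h4 : I.cov.a x = I.cov.a x' := by
          have h5 : I.pe x = I.pe x' := hw.symm.trans hw'
          have h6 : Sum.inl (I.a x.1) = (Sum.inl (I.a x'.1) : P ⊕ Q) := (congrArg Prod.fst h5 :)
          have h7 : x.2 = x'.2 := (congrArg Prod.snd h5 :)
          exact Prod.ext (Sum.inl_injective h6) h7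
        rw [h4]
        refine h3.mono ?_
        simp only [SimpleGraph.Walk.length_cons]
        omega

/-- Edges that are joined by a short path are near. -/
theorem Inc.R_of_walk (I : Inc P Q E) {B : ℕ} {u v : (P ⊕ Q) × Finset E} (p : I.cg.Walk u v)
    {e e' : Sym2 ((P ⊕ Q) × Finset E)} (he : p.edges.head? = some e)
    (he' : p.edges.getLast? = some e') (hB : p.length / 2 ≤ B) : I.R B e e' := by
  obtain ⟨x, y, h1, h2, h3, h4⟩ := I.near_of_walk p e e' he he'
  refine ⟨x, y, h1, h2, ?_⟩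
  cases p with
  | nil => simp at he
  | @cons u w v h p' =>
    rw [SimpleGraph.Walk.edges_cons, List.head?_cons, Option.some_inj] at he
    have h0 : s(u, w) = s(I.pe x, I.qe x) := he.trans h1
    rw [Sym2.eq_iff] at h0
    rcases h0 with ⟨h5, -⟩ | ⟨h5, -⟩
    · exact (h3 h5).mono hB
    · exact (h4 h5).mono (le_trans (Nat.div_le_div_right (Nat.sub_le _ _)) hB)

end Pool.Agent.MP_245544_coL
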