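import Pool.Agent.Lib.MP_245544_coL.Code

/-! MP_245544_co (lower bound): the binary code of the last cover satisfies the condition `IsCode`. -/

namespace Pool.Agent.MP_245544_coL

open Pool.Agent.MP_245544_coT

variable {P Q E : Type}

/-- The binary number of a set of edges. -/
def bits (rk : E → ℕ) [DecidableEq E] (ε : Finset E) : ℕ := ∑ k ∈ ε.image rk, 2 ^ k

variable [DecidableEq E]

theorem testBit_bits {rk : E → ℕ} (ε : Finset E) (k : ℕ) :
    (bits rk ε).testBit k = true ↔ k ∈ ε.image rk := by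
  rw [← Nat.mem_bitIndices, ← List.mem_toFinset, bits, Finset.toFinset_bitIndices_sum_two_pow]

theorem mem_iff_testBit {rk : E → ℕ} (hrk : Function.Injective rk) (ε : Finset E) (e : E) :
    e ∈ ε ↔ (bits rk ε).testBit (rk e) = true := by
  rw [testBit_bits]
  constructor
  · exact fun h => Finset.mem_image_of_mem rk h
  · intro h
    obtain ⟨e', h1, h2⟩ := Finset.mem_image.1 h
    exact hrk h2 ▸ h1

theorem bits_div {rk : E → ℕ} (hrk : Function.Injective rk) {ε ε' : Finset E} {i : ℕ}
    (h : bits rk ε / 2 ^ i = bits rk ε' / 2 ^ i) (e : E) (he : i ≤ rk e) : e ∈ ε ↔ e ∈ ε' := by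
  rw [mem_iff_testBit hrk, mem_iff_testBit hrk]
  have h1 : ∀ x : ℕ, x.testBit (rk e) = (x / 2 ^ i).testBit (rk e - i) := by
    intro x
    rw [Nat.testBit_div_two_pow]
    congr 1
    omega
  rw [h1, h1 (bits rk ε'), h]

theorem bits_div_of {rk : E → ℕ} {ε ε' : Finset E} {i : ℕ}
    (h : ∀ e, i ≤ rk e → (e ∈ ε ↔ e ∈ ε')) : bits rk ε / 2 ^ i = bits rk ε' / 2 ^ i := by
  refine Nat.eq_of_testBit_eq fun k => ?_
  rw [Nat.testBit_div_two_pow, Nat.testBit_div_two_pow, Bool.eq_iff_iff, testBit_bits, testBit_bits,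
    Finset.mem_image, Finset.mem_image]
  constructor
  · rintro ⟨e, h1, h2⟩
    exact ⟨e, (h e (by omega)).1 h1, h2⟩
  · rintro ⟨e, h1, h2⟩
    exact ⟨e, (h e (by omega)).2 h1, h2⟩

theorem bits_inj {rk : E → ℕ} (hrk : Function.Injective rk) {ε ε' : Finset E}
    (h : bits rk ε = bits rk ε') : ε = ε' := by
  ext e
  exact bits_div hrk (i := 0) (by rw [h]) e (Nat.zero_le _)

/-- The code of the last cover. -/
def cd (enc : P ⊕ Q → ℕ) (K : ℕ) (rk : E → ℕ) (w : (P ⊕ Q) × Finset E) : ℕ :=
  enc w.1 + 2 ^ K * bits rk w.2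

theorem cd_div {enc : P ⊕ Q → ℕ} {K : ℕ} {rk : E → ℕ} (henc : ∀ z, enc z < 2 ^ K)
    (w : (P ⊕ Q) × Finset E) : cd enc K rk w / 2 ^ K = bits rk w.2 := by
  rw [cd, Nat.add_mul_div_left _ _ (by positivity), Nat.div_eq_of_lt (henc _), Nat.zero_add]

theorem cd_div_add {enc : P ⊕ Q → ℕ} {K : ℕ} {rk : E → ℕ} (henc : ∀ z, enc z < 2 ^ K) (i : ℕ)
    (w : (P ⊕ Q) × Finset E) : cd enc K rk w / 2 ^ (K + i) = bits rk w.2 / 2 ^ i := by
  rw [pow_add, ← Nat.div_div_eq_div_mul, cd_div henc]

theorem mem_toggle (ε : Finset E) (e : E) : ¬ (e ∈ ε ↔ e ∈ symmDiff ε {e}) := by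
  rw [Finset.mem_symmDiff, Finset.mem_singleton]
  tauto

theorem mem_toggle_ne (ε : Finset E) {e e' : E} (h : e' ≠ e) : e' ∈ ε ↔ e' ∈ symmDiff ε {e} := by
  rw [Finset.mem_symmDiff, Finset.mem_singleton]
  tauto

variable {I : Inc P Q E} {n : P → ℕ} {rk : E → ℕ} {enc : P ⊕ Q → ℕ} {K B r : ℕ}

theorem leave_ed (henc : ∀ z, enc z < 2 ^ K) {i b : ℕ} {x : E × Finset E}
    (h : Leave I.cg (cd enc K rk) (K + i) b (I.ed x)) :
    i ≤ rk x.1 ∧ ∃ w, (w = I.pe x ∨ w = I.qe x) ∧ bits rk w.2 / 2 ^ i = b := by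
  obtain ⟨-, u, v, huv, hu, hv⟩ := h
  rw [cd_div_add henc] at hu hv
  have h0 : s(I.pe x, I.qe x) = s(u, v) := huv
  rw [Sym2.eq_iff] at h0
  refine ⟨?_, u, ?_, hu⟩
  · by_contra hlt
    have h1 : bits rk (I.pe x).2 / 2 ^ i = bits rk (I.qe x).2 / 2 ^ i := by
      refine bits_div_of fun e he => mem_toggle_ne x.2 ?_
      rintro rfl
      omega
    rcases h0 with ⟨h2, h3⟩ | ⟨h2, h3⟩
    · rw [h2, h3] at h1
      exact hv (h1.symm.trans hu)
    · rw [h2, h3] at h1
      exact hv (h1.trans hu)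
  · rcases h0 with ⟨h2, -⟩ | ⟨-, h3⟩
    · exact Or.inl h2.symm
    · exact Or.inr h3.symm

theorem inside_ed (hrk : Function.Injective rk) (henc : ∀ z, enc z < 2 ^ K) {i b : ℕ}
    {x : E × Finset E} (h : Inside (cd enc K rk) (K + i) b (I.ed x)) : rk x.1 < i := by
  have h1 := h (I.pe x) (Sym2.mem_mk_left _ _)
  have h2 := h (I.qe x) (Sym2.mem_mk_right _ _)
  rw [cd_div_add henc] at h1 h2
  by_contra hlt
  exact mem_toggle x.2 x.1 (bits_div hrk (h1.trans h2.symm) x.1 (by omega))

theorem not_inside_low (hrk : Function.Injective rk) (henc : ∀ z, enc z < 2 ^ K) {j b : ℕ}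
    (hj : j ≤ K) {x : E × Finset E} (h : Inside (cd enc K rk) j b (I.ed x)) : False := by
  have h1 := h (I.pe x) (Sym2.mem_mk_left _ _)
  have h2 := h (I.qe x) (Sym2.mem_mk_right _ _)
  have h3 : ∀ w : (P ⊕ Q) × Finset E, bits rk w.2 = cd enc K rk w / 2 ^ j / 2 ^ (K - j) := by
    intro w
    rw [Nat.div_div_eq_div_mul, ← pow_add, Nat.add_sub_cancel' hj, cd_div henc]
  have h4 : bits rk (I.pe x).2 = bits rk (I.qe x).2 := by
    rw [h3 (I.pe x), h3 (I.qe x), h1, h2]
  have h5 : x.2 = symmDiff x.2 {x.1} := bits_inj hrk h4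
  refine mem_toggle x.2 x.1 ?_
  rw [← h5]

theorem chain_ed (hrk : Function.Injective rk)
    (hmono : ∀ e e', n (I.a e) < n (I.a e') → rk e < rk e') (henc : ∀ z, enc z < 2 ^ K) {i b : ℕ}
    {x : E × Finset E} (hx : rk x.1 = i) {w : (P ⊕ Q) × Finset E} (hw : w = I.pe x ∨ w = I.qe x)
    (hwb : bits rk w.2 / 2 ^ i = b) {e' : Sym2 ((P ⊕ Q) × Finset E)}
    (h : Relation.ReflTransGen (Chn I.cg (cd enc K rk) (I.R B) (K + i) b) (I.ed x) e') :
    ∃ y w', e' = I.ed y ∧ (w' = I.pe y ∨ w' = I.qe y) ∧ bits rk w'.2 / 2 ^ i = b ∧ i ≤ rk y.1 ∧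
      I.inv w' = I.inv w ∧
      ∀ e ∈ symmDiff w.2 w'.2, rk e < i ∧ I.Up n (B / 2) (I.a e) (n (I.a x.1)) := by
  induction h with
  | refl =>
    refine ⟨x, w, rfl, hw, hwb, hx.ge, rfl, fun e he => ?_⟩
    rw [symmDiff_self] at he
    exact absurd he (Finset.notMem_empty _)
  | @tail e1 e2 _ h12 ih =>
    obtain ⟨y, wy, hy, hwy, hwyb, hyi, hinv, hD⟩ := ih
    obtain ⟨-, hL2, x1, y', h1, h2, h3⟩ := h12
    have h4 : x1 = y := I.ed_inj (h1.symm.trans hy)
    rw [h4] at h3
    rw [h2] at hL2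
    obtain ⟨hyi', wy', hwy', hwyb'⟩ := leave_ed henc hL2
    have hlev : ∀ z : E × Finset E, i ≤ rk z.1 → n (I.a x.1) ≤ n (I.a z.1) := by
      intro z hz
      by_contra hlt
      have := hmono z.1 x.1 (by omega)
      omega
    refine ⟨y', wy', h2, hwy', hwyb', hyi', ?_, fun e he => ?_⟩
    · have h5 : I.inv wy = I.inv (I.pe y) := by
        rcases hwy with h | h
        · rw [h]
        · rw [h, I.inv_qe]
      have h6 : I.inv wy' = I.inv (I.pe y') := by
        rcases hwy' with h | h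
        · rw [h]
        · rw [h, I.inv_qe]
      have h7 : I.inv (I.pe y) = I.inv (I.pe y') := I.inv_near h3
      rw [h6, ← h7, ← h5, hinv]
    · by_cases h8 : e ∈ symmDiff w.2 wy.2
      · exact hD e h8
      · have h9 : e ∈ symmDiff wy.2 wy'.2 := by
          rw [Finset.mem_symmDiff] at he h8 ⊢
          tauto
        have hei : rk e < i := by
          by_contra hlt
          have h10 := bits_div hrk (hwyb.trans hwyb'.symm) e (by omega)
          rw [Finset.mem_symmDiff] at h9
          tauto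
        refine ⟨hei, ?_⟩
        have hey : e ≠ y.1 := by rintro rfl; omega
        have hey' : e ≠ y'.1 := by rintro rfl; omega
        have h11 : e ∈ wy.2 ↔ e ∈ y.2 := by
          rcases hwy with h | h
          · rw [h]; rfl
          · rw [h]; exact (mem_toggle_ne y.2 hey).symm
        have h12 : e ∈ wy'.2 ↔ e ∈ y'.2 := by
          rcases hwy' with h | h
          · rw [h]; rfl
          · rw [h]; exact (mem_toggle_ne y'.2 hey').symm
        have h13 : e ∈ symmDiff (I.cov.a y).2 (I.cov.a y').2 := by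
          have h14 : e ∈ symmDiff y.2 y'.2 := by
            rw [Finset.mem_symmDiff] at h9 ⊢
            tauto
          exact h14
        obtain ⟨s, t, hst, hs, ht⟩ := I.flip h3 e h13
        rcases Nat.lt_or_ge (B / 2) s with hlt | hge
        · exact ⟨_, ht.mono (by omega), hlev y' hyi'⟩
        · exact ⟨_, (hs.mono hge).symm, hlev y hyi⟩

/-- The code of the last cover satisfies the condition of the drawing theorem. -/
theorem isCode (hrk : Function.Injective rk)
    (hmono : ∀ e e', n (I.a e) < n (I.a e') → rk e < rk e') (hF : I.Fr n r) (hB : B / 2 ≤ r)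
    (hB1 : 1 ≤ B) (hencI : Function.Injective enc) (henc : ∀ z, enc z < 2 ^ K) :
    IsCode I.cg (cd enc K rk) (I.R B) where
  inj := by
    intro w w' h
    have h1 : bits rk w.2 = bits rk w'.2 := by
      rw [← cd_div henc w, ← cd_div henc w', h]
    have h2 : enc w.1 = enc w'.1 := by
      have h3 : enc w.1 + 2 ^ K * bits rk w.2 = enc w'.1 + 2 ^ K * bits rk w'.2 := h
      rw [h1] at h3
      omega
    exact Prod.ext (hencI h2) (bits_inj hrk h1)
  symm := by
    rintro e e' ⟨x, y, h1, h2, h3⟩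
    exact ⟨y, x, h2, h1, h3.symm⟩
  share := by
    intro e he e' he' v hv hv'
    rw [I.edgeSet_cg] at he he'
    obtain ⟨x, rfl⟩ := he
    obtain ⟨y, rfl⟩ := he'
    refine ⟨x, y, rfl, rfl, ?_⟩
    have h1 : v = I.pe x ∨ v = I.qe x := Sym2.mem_iff.1 hv
    have h2 : v = I.pe y ∨ v = I.qe y := Sym2.mem_iff.1 hv'
    rcases h1 with h1 | h1 <;> rcases h2 with h2 | h2
    · have h5 : I.pe x = I.pe y := h1.symm.trans h2
      have h6 : Sum.inl (I.a x.1) = (Sum.inl (I.a y.1) : P ⊕ Q) := (congrArg Prod.fst h5 :)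
      have h7 : x.2 = y.2 := (congrArg Prod.snd h5 :)
      have h8 : I.cov.a x = I.cov.a y := Prod.ext (Sum.inl_injective h6) h7
      rw [h8]
      exact Inc.Near.refl _ _ _
    · exact absurd (h1.symm.trans h2) (I.pe_ne_qe x y)
    · exact absurd (h2.symm.trans h1) (I.pe_ne_qe y x)
    · have h5 : I.qe x = I.qe y := h1.symm.trans h2
      have h6 : Sum.inr (I.b x.1) = (Sum.inr (I.b y.1) : P ⊕ Q) := (congrArg Prod.fst h5 :)
      have h7 : symmDiff x.2 {x.1} = symmDiff y.2 {y.1} := (congrArg Prod.snd h5 :)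
      have h8 : I.cov.b x = I.cov.b y := Prod.ext (Sum.inr_injective h6) h7
      have h9 : I.cov.Near 1 (I.cov.a x) (I.cov.a y) :=
        Or.inr ⟨x, y, rfl, h8, Inc.Near.refl _ 0 _⟩
      exact h9.mono hB1
  one := by
    intro j b e e' hL hL' hI hI' hch
    obtain ⟨x, rfl⟩ : e ∈ Set.range I.ed := by rw [← I.edgeSet_cg]; exact hL.1
    rcases Nat.lt_or_ge j K with hj | hj
    · exact (not_inside_low hrk henc (by omega) hI).elim
    obtain ⟨i, rfl⟩ := Nat.exists_eq_add_of_le hj
    obtain ⟨hxi, w, hw, hwb⟩ := leave_ed henc hL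
    have hxi' : rk x.1 < i + 1 := inside_ed hrk henc hI
    have hx : rk x.1 = i := by omega
    obtain ⟨y, w', hy, hw', hwb', hyi, hinv, hD⟩ := chain_ed hrk hmono henc hx hw hwb hch
    rw [hy] at hI'
    have hyi' : rk y.1 < i + 1 := inside_ed hrk henc hI'
    have hxy : x.1 = y.1 := hrk (by omega)
    have hZ : ∀ e ∈ symmDiff w.2 w'.2, e ∈ I.Zone n r (n (I.a x.1)) := by
      intro e he
      obtain ⟨h1, p', h2, h3⟩ := hD e he
      refine ⟨?_, p', h2.mono hB, h3⟩
      by_contra hlt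
      have := hmono x.1 e (by omega)
      omega
    have hZ0 : x.1 ∈ I.Zone n r (n (I.a x.1)) := ⟨le_rfl, I.a x.1, Inc.Near.refl _ _ _, le_rfl⟩
    have hbd : ∀ z, I.bd (symmDiff w.2 w'.2) z =
        I.bd w.2 z + I.bd w'.2 z := fun z => I.bd_symm _ _ z
    have hinv' : ∀ z, I.inv w' z = I.inv w z := fun z => congrFun hinv z
    rw [hy]
    by_cases hz : w.1 = w'.1
    · have h0 : symmDiff w.2 w'.2 = ∅ := by
        refine (hF (n (I.a x.1))).empty hZ fun z => ?_
        have h1 := hinv' z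
        rw [hbd z]
        have h2 : I.bd w'.2 z = I.bd w.2 z := by
          simp only [Inc.inv] at h1
          by_cases hA : w'.1 = z
          · have hB' : w.1 = z := hz.trans hA
            simp only [hA, hB', if_true] at h1
            exact add_right_cancel h1
          · have hB' : ¬ w.1 = z := fun h => hA (hz.symm.trans h)
            simp only [hA, hB', if_false, add_zero] at h1
            exact h1
        rw [h2]
        exact two_zero _
      have h1 : w.2 = w'.2 := symmDiff_eq_bot.1 h0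
      have h2 : w = w' := Prod.ext hz h1
      rcases hw with h3 | h3 <;> rcases hw' with h4 | h4
      · have h5 : I.pe x = I.pe y := (h3.symm.trans h2).trans h4
        have h7 : x.2 = y.2 := (congrArg Prod.snd h5 :)
        rw [Prod.ext hxy h7]
      · exact absurd ((h3.symm.trans h2).trans h4) (I.pe_ne_qe x y)
      · exact absurd ((h3.symm.trans h2).trans h4).symm (I.pe_ne_qe y x)
      · have h5 : I.qe x = I.qe y := (h3.symm.trans h2).trans h4
        have h7 : symmDiff x.2 {x.1} = symmDiff y.2 {y.1} := (congrArg Prod.snd h5 :)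
        rw [hxy] at h7
        rw [Prod.ext hxy (symmDiff_left_injective _ h7)]
    · exfalso
      have hx0 : x.1 ∉ symmDiff w.2 w'.2 := by
        intro h1
        have := (hD _ h1).1
        omega
      have h0 : symmDiff (symmDiff w.2 w'.2) {x.1} = ∅ := by
        refine (hF (n (I.a x.1))).empty (fun e he => ?_) fun z => ?_
        · rw [Finset.mem_symmDiff, Finset.mem_singleton] at he
          rcases he with ⟨h1, -⟩ | ⟨h1, -⟩
          · exact hZ e h1
          · rw [h1]; exact hZ0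
        · classical
          have h1 := hinv' z
          have h2 : I.bd {x.1} z = (if w.1 = z then 1 else 0) + (if w'.1 = z then 1 else 0) := by
            have hw1 : (w.1 = Sum.inl (I.a x.1) ∧ w'.1 = Sum.inr (I.b x.1)) ∨
                (w.1 = Sum.inr (I.b x.1) ∧ w'.1 = Sum.inl (I.a x.1)) := by
              rcases hw with h3 | h3 <;> rcases hw' with h4 | h4
              · refine absurd ?_ hz
                rw [h3, h4]; simp only [Inc.pe, hxy]
              · left; rw [h3, h4]; simp only [Inc.pe, Inc.qe, hxy, and_self]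
              · right; rw [h3, h4]; simp only [Inc.pe, Inc.qe, hxy, and_self]
              · refine absurd ?_ hz
                rw [h3, h4]; simp only [Inc.qe, hxy]
            rw [Inc.bd, Finset.sum_singleton]
            rcases hw1 with ⟨h5, h6⟩ | ⟨h5, h6⟩
            · rw [h5, h6]
            · rw [h5, h6, add_comm]
          have h3 : I.bd w'.2 z + (if w'.1 = z then 1 else 0) =
              I.bd w.2 z + (if w.1 = z then 1 else 0) := by
            have h4 := h1
            simp only [Inc.inv] at h4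
            by_cases hA : w.1 = z <;> by_cases hB' : w'.1 = z <;> simp [hA, hB'] at h4 ⊢ <;> exact h4
          rw [I.bd_symm, hbd z, h2]
          have h5 := two_zero (I.bd w'.2 z)
          have h6 := two_zero (if w'.1 = z then (1 : ZMod 2) else 0)
          linear_combination (-1 : ZMod 2) * h3 + h5 + h6
      have h1 : x.1 ∈ symmDiff (symmDiff w.2 w'.2) {x.1} := by
        rw [Finset.mem_symmDiff]
        exact Or.inr ⟨Finset.mem_singleton_self _, hx0⟩
      rw [h0] at h1
      exact absurd h1 (Finset.notMem_empty _)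

end Pool.Agent.MP_245544_coL
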