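import Pool.Agent.Lib.MP_245544_coL.Inc

/-! MP_245544_co (lower bound): the core lemma on the regions of the mod 2 homology cover. -/

namespace Pool.Agent.MP_245544_coL

variable {P Q E : Type} [DecidableEq E]

/-- One plus the highest level of a set of edges (`0` for the empty set). -/
def Inc.lev (I : Inc P Q E) (n : P → ℕ) (D : Finset E) : ℕ := D.sup fun e => n (I.a e) + 1

/-- `J I n t ε`: one plus the highest level at which `ε` and `t` differ. -/
def Inc.J (I : Inc P Q E) (n : P → ℕ) (t ε : Finset E) : ℕ := I.lev n (symmDiff ε t)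

omit [DecidableEq E] in
theorem Inc.le_lev (I : Inc P Q E) (n : P → ℕ) {D : Finset E} {e : E} (he : e ∈ D) :
    n (I.a e) + 1 ≤ I.lev n D := Finset.le_sup (f := fun e => n (I.a e) + 1) he

omit [DecidableEq E] in
theorem Inc.exists_lev (I : Inc P Q E) (n : P → ℕ) {D : Finset E} {m : ℕ} (h : I.lev n D = m + 1) :
    ∃ e ∈ D, n (I.a e) = m := by
  have hne : D.Nonempty := by
    rw [Finset.nonempty_iff_ne_empty]
    rintro rfl
    simp [Inc.lev] at h
  obtain ⟨e, he, h1⟩ := Finset.exists_mem_eq_sup D hne (fun e => n (I.a e) + 1)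
  refine ⟨e, he, ?_⟩
  have h2 : I.lev n D = n (I.a e) + 1 := h1
  omega

theorem Inc.J_toggle (I : Inc P Q E) (n : P → ℕ) (t ε : Finset E) (e : E) :
    I.J n t (symmDiff ε {e}) = I.lev n (symmDiff (symmDiff ε t) {e}) := by
  rw [Inc.J, symmDiff_right_comm]

/-- If toggling `e` lowers the highest level then `e` is the only member of `D` at this level. -/
theorem Inc.lev_down (I : Inc P Q E) (n : P → ℕ) {D : Finset E} {m : ℕ} {e : E}
    (h : I.lev n D = m + 1) (hd : I.lev n (symmDiff D {e}) < m + 1) :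
    n (I.a e) = m ∧ ∀ e' ∈ D, n (I.a e') = m → e' = e := by
  have key : ∀ e' ∈ D, n (I.a e') = m → e' = e := by
    intro e' he' hm
    by_contra hne
    have h1 : e' ∈ symmDiff D {e} := by
      rw [Finset.mem_symmDiff]
      exact Or.inl ⟨he', fun h => hne (Finset.mem_singleton.1 h)⟩
    have h2 := I.le_lev n h1
    omega
  obtain ⟨e', he', hm⟩ := I.exists_lev n h
  have h3 := key e' he' hm
  exact ⟨h3 ▸ hm, key⟩

/-- The region of the cover at the time `t`. -/
def Inc.Reg (I : Inc P Q E) (n : P → ℕ) (r : ℕ) (t : Finset E) : Set (E × Finset E) :=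
  {x | I.J n t x.2 ≠ I.J n t (symmDiff x.2 {x.1}) ∨
    ∃ m, I.J n t x.2 = m + 1 ∧ x.1 ∈ I.Zone n r m}

/-- CORE LEMMA: the regions of the cover are forests. -/
theorem Inc.leaf_Reg (I : Inc P Q E) {n : P → ℕ} {r : ℕ} (hn : Function.Injective n) (hF : I.Fr n r)
    (t : Finset E) : I.cov.Leaf (I.Reg n r t) := by
  classical
  intro S hS hSR
  by_contra hcon
  rw [not_or] at hcon
  obtain ⟨hA, hB⟩ := hcon
  have hA' : ∀ x ∈ S, ∃ x' ∈ S, I.cov.a x' = I.cov.a x ∧ x' ≠ x := by
    intro x hx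
    by_contra h
    exact hA ⟨x, hx, fun x' hx' h1 => by_contra fun h2 => h ⟨x', hx', h1, h2⟩⟩
  have hB' : ∀ x ∈ S, ∃ x' ∈ S, I.cov.b x' = I.cov.b x ∧ x' ≠ x := by
    intro x hx
    by_contra h
    exact hB ⟨x, hx, fun x' hx' h1 => by_contra fun h2 => h ⟨x', hx', h1, h2⟩⟩
  set JP : E × Finset E → ℕ := fun x => I.J n t x.2 with hJP
  set JQ : E × Finset E → ℕ := fun x => I.J n t (symmDiff x.2 {x.1}) with hJQ
  set L := S.sup fun x => max (JP x) (JQ x) with hL
  have hPle : ∀ x ∈ S, JP x ≤ L := fun x hx =>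
    (le_max_left _ _).trans (Finset.le_sup (f := fun x => max (JP x) (JQ x)) hx)
  have hQle : ∀ x ∈ S, JQ x ≤ L := fun x hx =>
    (le_max_right _ _).trans (Finset.le_sup (f := fun x => max (JP x) (JQ x)) hx)
  obtain ⟨x0, hx0, hx0L⟩ := Finset.exists_mem_eq_sup S hS fun x => max (JP x) (JQ x)
  -- the maximal level is not trivial
  have hLpos : L ≠ 0 := by
    intro h0
    have h1 : JP x0 = 0 := by have := hPle x0 hx0; omega
    have h2 : JQ x0 = 0 := by have := hQle x0 hx0; omega
    have e1 : ∀ D : Finset E, I.lev n D = 0 → D = ∅ := by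
      intro D hD
      by_contra hne
      obtain ⟨e, he⟩ := Finset.nonempty_iff_ne_empty.2 hne
      have := I.le_lev n he
      omega
    have e2 : symmDiff x0.2 t = ∅ := e1 _ h1
    have e3 : symmDiff (symmDiff x0.2 {x0.1}) t = ∅ := e1 _ h2
    rw [symmDiff_right_comm, e2] at e3
    simp at e3
  obtain ⟨m, hm⟩ := Nat.exists_eq_succ_of_ne_zero hLpos
  rw [Nat.succ_eq_add_one] at hm
  -- the point of the top level
  have hdownQ : ∀ x ∈ S, JP x = L → JQ x ≠ L → n (I.a x.1) = m ∧
      ∀ e' ∈ symmDiff x.2 t, n (I.a e') = m → e' = x.1 := by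
    intro x hx h1 h2
    have h3 : JQ x < L := lt_of_le_of_ne (hQle x hx) h2
    refine I.lev_down n (D := symmDiff x.2 t) (h1.trans hm) ?_
    have h4 : JQ x = I.lev n (symmDiff (symmDiff x.2 t) {x.1}) := I.J_toggle n t x.2 x.1
    rw [← h4]; omega
  have hdownP : ∀ x ∈ S, JQ x = L → JP x ≠ L → n (I.a x.1) = m := by
    intro x hx h1 h2
    have h3 : JP x < L := lt_of_le_of_ne (hPle x hx) h2
    refine (I.lev_down n (D := symmDiff (symmDiff x.2 {x.1}) t) (e := x.1) (h1.trans hm) ?_).1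
    have h4 : symmDiff (symmDiff (symmDiff x.2 {x.1}) t) {x.1} = symmDiff x.2 t := by
      rw [symmDiff_right_comm, symmDiff_symmDiff_cancel_right]
    rw [h4]
    have h5 : JP x = I.lev n (symmDiff x.2 t) := rfl
    omega
  obtain ⟨e0, he0⟩ : ∃ e0 : E, n (I.a e0) = m := by
    rcases le_total (JP x0) (JQ x0) with h | h
    · have h1 : JQ x0 = m + 1 := by
        have : L = max (JP x0) (JQ x0) := hx0L
        rw [max_eq_right h] at this; omega
      obtain ⟨e, -, he⟩ := I.exists_lev n h1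
      exact ⟨e, he⟩
    · have h1 : JP x0 = m + 1 := by
        have : L = max (JP x0) (JQ x0) := hx0L
        rw [max_eq_left h] at this; omega
      obtain ⟨e, -, he⟩ := I.exists_lev n h1
      exact ⟨e, he⟩
  -- the projected edge set
  set T : Finset E := (S.filter fun x => JQ x = L).image Prod.fst with hT
  have hTZ : ∀ e ∈ T, e ∈ I.Zone n r m := by
    intro e he
    rw [hT, Finset.mem_image] at he
    obtain ⟨x, hx, rfl⟩ := he
    rw [Finset.mem_filter] at hx
    obtain ⟨hxS, hxQ⟩ := hx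
    by_cases hxP : JP x = L
    · rcases hSR x hxS with h | ⟨m', h1, h2⟩
      · exact absurd (hxP.trans hxQ.symm) h
      · have h3 : JP x = m' + 1 := h1
        have h4 : m' = m := by omega
        rw [h4] at h2
        exact h2
    · have h1 := hdownP x hxS hxQ hxP
      exact ⟨le_of_eq h1, I.a x.1, Inc.Near.refl I r _, le_of_eq h1.symm⟩
  have hTne : T.Nonempty := by
    have hex : ∃ x ∈ S, JQ x = L := by
      by_contra hno
      have hno' : ∀ x ∈ S, JQ x ≠ L := fun x hx h => hno ⟨x, hx, h⟩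
      have h1 : JP x0 = L := by
        have h2 : L = max (JP x0) (JQ x0) := hx0L
        rcases le_total (JP x0) (JQ x0) with h | h
        · rw [max_eq_right h] at h2; exact absurd h2.symm (hno' x0 hx0)
        · rw [max_eq_left h] at h2; exact h2.symm
      obtain ⟨x', hx', hxa, hxne⟩ := hA' x0 hx0
      have h3 : x'.2 = x0.2 := (congrArg Prod.snd hxa :)
      have h4 : JP x' = L := by
        have : JP x' = JP x0 := by simp only [hJP, h3]
        exact this.trans h1
      obtain ⟨h5, h6⟩ := hdownQ x0 hx0 h1 (hno' x0 hx0)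
      obtain ⟨h7, h8⟩ := hdownQ x' hx' h4 (hno' x' hx')
      obtain ⟨e, he, hem⟩ := I.exists_lev n (D := symmDiff x0.2 t) (h1.trans hm)
      have h9 := h6 e he hem
      have h10 : e = x'.1 := h8 e (by rw [h3]; exact he) hem
      exact hxne (Prod.ext (h10.symm.trans h9) h3)
    obtain ⟨x, hx, hxL⟩ := hex
    exact ⟨x.1, Finset.mem_image.2 ⟨x, Finset.mem_filter.2 ⟨hx, hxL⟩, rfl⟩⟩
  rcases (hF m).ne T hTne hTZ (I.a e0) with ⟨e, he, hne, hu⟩ | ⟨e, he, hu⟩
  · rw [hT, Finset.mem_image] at he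
    obtain ⟨x, hx, rfl⟩ := he
    rw [Finset.mem_filter] at hx
    obtain ⟨hxS, hxQ⟩ := hx
    have hnm : n (I.a x.1) ≠ m := fun h => hne (hn (h.trans he0.symm))
    have hxP : JP x = L := by
      by_contra h
      exact hnm (hdownP x hxS hxQ h)
    obtain ⟨x', hx', hxa, hxne⟩ := hA' x hxS
    have h3 : x'.2 = x.2 := (congrArg Prod.snd hxa :)
    have h3' : I.a x'.1 = I.a x.1 := (congrArg Prod.fst hxa :)
    have h4 : JP x' = L := by
      have : JP x' = JP x := by simp only [hJP, h3]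
      exact this.trans hxP
    have h5 : JQ x' = L := by
      by_contra h
      exact hnm (h3' ▸ (hdownQ x' hx' h4 h).1)
    have h6 : x'.1 ∈ T := Finset.mem_image.2 ⟨x', Finset.mem_filter.2 ⟨hx', h5⟩, rfl⟩
    exact hxne (Prod.ext (hu x'.1 h6 h3') h3)
  · rw [hT, Finset.mem_image] at he
    obtain ⟨x, hx, rfl⟩ := he
    rw [Finset.mem_filter] at hx
    obtain ⟨hxS, hxQ⟩ := hx
    obtain ⟨x', hx', hxb, hxne⟩ := hB' x hxS
    have h3 : symmDiff x'.2 {x'.1} = symmDiff x.2 {x.1} := (congrArg Prod.snd hxb :)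
    have h3' : I.b x'.1 = I.b x.1 := (congrArg Prod.fst hxb :)
    have h4 : JQ x' = L := by
      have : JQ x' = JQ x := by simp only [hJQ, h3]
      exact this.trans hxQ
    have h6 : x'.1 ∈ T := Finset.mem_image.2 ⟨x', Finset.mem_filter.2 ⟨hx', h4⟩, rfl⟩
    have h7 := hu x'.1 h6 h3'
    rw [h7] at h3
    exact hxne (Prod.ext h7 (symmDiff_left_injective _ h3))

end Pool.Agent.MP_245544_coL
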