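import Pool.Agent.Lib.MP_245544_coL.DrawA

/-! MP_245544_co, lower bound: the drawing of a graph with a code, glueing and conclusion. -/

namespace Pool.Agent.MP_245544_coL

open Real Pool.Agent.MP_245544_coT

variable {V : Type} {G : SimpleGraph V} {c : V → ℕ} {R : Sym2 V → Sym2 V → Prop}

/-- The map of the left child. -/
noncomputable def T0 (z : ℂ) : ℂ := (z - 2) / 4

/-- The map of the right child. -/
noncomputable def T1 (z : ℂ) : ℂ := (2 - z) / 4

theorem T0_inj : Function.Injective T0 := by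
  intro z w h
  unfold T0 at h
  linear_combination 4 * h

theorem T1_inj : Function.Injective T1 := by
  intro z w h
  unfold T1 at h
  linear_combination -4 * h

theorem T0_cont : Continuous T0 := by
  unfold T0
  fun_prop

theorem T1_cont : Continuous T1 := by
  unfold T1
  fun_prop

theorem T0_norm (z : ℂ) : ‖T0 z‖ = ‖z - 2‖ / 4 := by
  unfold T0
  rw [norm_div]
  simp

theorem T1_norm (z : ℂ) : ‖T1 z‖ = ‖z - 2‖ / 4 := by
  unfold T1
  rw [norm_div, norm_sub_rev]
  simp

theorem T0_re (z : ℂ) : (T0 z).re = (z.re - 2) / 4 := by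
  unfold T0
  have : (z - 2) / 4 = (z - 2) / ((4 : ℝ) : ℂ) := by norm_num
  rw [this, Complex.div_ofReal_re]
  simp

theorem T1_re (z : ℂ) : (T1 z).re = (2 - z.re) / 4 := by
  unfold T1
  have : (2 - z) / 4 = (2 - z) / ((4 : ℝ) : ℂ) := by norm_num
  rw [this, Complex.div_ofReal_re]
  simp

theorem T0_two : T0 2 = 0 := by simp [T0]

theorem T1_two : T1 2 = 0 := by simp [T1]

theorem norm_lt_of_lt_one {z : ℂ} (h : ‖z‖ < 1) : ‖z - 2‖ < 4 := by
  calc ‖z - 2‖ ≤ ‖z‖ + ‖(2 : ℂ)‖ := norm_sub_le _ _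
    _ < 1 + 2 := by
      have : ‖(2 : ℂ)‖ = 2 := by simp
      rw [this]
      linarith
    _ < 4 := by norm_num

theorem re_lt_of_lt_one {z : ℂ} (h : ‖z‖ < 1) : z.re < 2 := by
  have := Complex.re_le_norm z
  linarith

theorem glue (hC : IsCode G c R) {j b : ℕ} (L0 : Half G c R j (2 * b))
    (L1 : Half G c R j (2 * b + 1)) : Nonempty (Lev G c R (j + 1) b) := by
  classical
  have hb0 : 2 * b / 2 = b := by omega
  have hb1 : (2 * b + 1) / 2 = b := by omega
  have hblk : ∀ v, c v / 2 ^ (j + 1) = b ↔ c v / 2 ^ j = 2 * b ∨ c v / 2 ^ j = 2 * b + 1 := by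
    intro v
    rw [div_succ]
    omega
  have hne01 : ∀ v, c v / 2 ^ j = 2 * b → c v / 2 ^ j = 2 * b + 1 → False := by
    intro v h h'
    omega
  -- rewrite the fields about the parent block
  have disc0 := L0.hc_disc
  have side0 := L0.hc_side
  have mid0 := L0.arc_mid
  have out0 := L0.arc_out
  have disc1 := L1.hc_disc
  have side1 := L1.hc_side
  have mid1 := L1.arc_mid
  have out1 := L1.arc_out
  rw [hb0] at disc0 side0 mid0 out0
  rw [hb1] at disc1 side1 mid1 out1
  -- the data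
  let pt : V → ℂ := fun v => if c v / 2 ^ j = 2 * b then T0 (L0.pt v) else T1 (L1.pt v)
  let cur : Sym2 V → Set ℂ := fun e => T0 '' L0.hc e ∪ T1 '' L1.hc e
  let ep : Sym2 V → ℂ := fun e =>
    if Leave G c j (2 * b) e then T0 (L0.fp e) else T1 (L1.fp e)
  have pt0 : ∀ v, c v / 2 ^ j = 2 * b → pt v = T0 (L0.pt v) := fun v h => if_pos h
  have pt1 : ∀ v, c v / 2 ^ j = 2 * b + 1 → pt v = T1 (L1.pt v) :=
    fun v h => if_neg (fun h' => hne01 v h' h)
  have ptre0 : ∀ v, c v / 2 ^ j = 2 * b → (pt v).re < 0 := by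
    intro v h
    rw [pt0 v h, T0_re]
    have := re_lt_of_lt_one (L0.pt_in v h)
    linarith
  have ptre1 : ∀ v, c v / 2 ^ j = 2 * b + 1 → 0 < (pt v).re := by
    intro v h
    rw [pt1 v h, T1_re]
    have := re_lt_of_lt_one (L1.pt_in v h)
    linarith
  have re0 : ∀ e ∈ G.edgeSet, ∀ y ∈ L0.hc e, (T0 y).re ≤ 0 := by
    intro e he y hy
    rw [T0_re]
    rcases side0 e he y hy with h | ⟨_, _, h⟩
    · linarith
    · rw [h]
      simp
  have re1 : ∀ e ∈ G.edgeSet, ∀ y ∈ L1.hc e, 0 ≤ (T1 y).re := by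
    intro e he y hy
    rw [T1_re]
    rcases side1 e he y hy with h | ⟨_, _, h⟩
    · linarith
    · rw [h]
      simp
  have mix : ∀ e ∈ G.edgeSet, ∀ e' ∈ G.edgeSet, ∀ y ∈ L0.hc e, ∀ y' ∈ L1.hc e', T0 y = T1 y' →
      (Leave G c j (2 * b) e ∧ Inside c (j + 1) b e ∧ y = 2) ∧
      (Leave G c j (2 * b + 1) e' ∧ Inside c (j + 1) b e' ∧ y' = 2) := by
    intro e he e' he' y hy y' hy' h
    have h1 := re0 e he y hy
    have h2 := re1 e' he' y' hy'
    rw [← h] at h2
    have h3 : (T0 y).re = 0 := le_antisymm h1 h2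
    have h4 : (T1 y').re = 0 := by rw [← h]; exact h3
    rw [T0_re] at h3
    rw [T1_re] at h4
    refine ⟨?_, ?_⟩
    · rcases side0 e he y hy with k | k
      · linarith
      · exact k
    · rcases side1 e' he' y' hy' with k | k
      · linarith
      · exact k
  -- leaving edges of the parent
  have hsplit : ∀ e, Leave G c (j + 1) b e → ¬ Inside c (j + 1) b e ∧
      ((Leave G c j (2 * b) e ∧ ¬ Touch c j (2 * b + 1) e) ∨
        (Leave G c j (2 * b + 1) e ∧ ¬ Touch c j (2 * b) e)) := by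
    intro e he
    refine ⟨he.not_inside, ?_⟩
    obtain ⟨hee, u, v, rfl, hu, hv⟩ := he
    have hv0 : c v / 2 ^ j ≠ 2 * b := fun h => hv ((hblk v).2 (Or.inl h))
    have hv1 : c v / 2 ^ j ≠ 2 * b + 1 := fun h => hv ((hblk v).2 (Or.inr h))
    rcases (hblk u).1 hu with h | h
    · left
      refine ⟨⟨hee, u, v, rfl, h, hv0⟩, ?_⟩
      rintro ⟨w, hw, hwb⟩
      rcases Sym2.mem_iff.1 hw with rfl | rfl
      · exact hne01 _ h hwb
      · exact hv1 hwb
    · right
      refine ⟨⟨hee, u, v, rfl, h, hv1⟩, ?_⟩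
      rintro ⟨w, hw, hwb⟩
      rcases Sym2.mem_iff.1 hw with rfl | rfl
      · exact hne01 _ hwb h
      · exact hv0 hwb
  have ep0 : ∀ e, Leave G c j (2 * b) e → ep e = T0 (L0.fp e) := fun e h => if_pos h
  have ep1 : ∀ e, ¬ Touch c j (2 * b) e → ep e = T1 (L1.fp e) :=
    fun e h => if_neg (fun h' => h h'.touch)
  have fpre0 : ∀ e, Leave G c j (2 * b) e → (T0 (L0.fp e)).re < 0 := by
    intro e he
    rw [T0_re]
    have := L0.fp_re e he
    linarith
  have fpre1 : ∀ e, Leave G c j (2 * b + 1) e → 0 < (T1 (L1.fp e)).re := by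
    intro e he
    rw [T1_re]
    have := L1.fp_re e he
    linarith
  have curL : ∀ e, ¬ Touch c j (2 * b + 1) e → cur e = T0 '' L0.hc e := by
    intro e h
    show T0 '' L0.hc e ∪ T1 '' L1.hc e = _
    rw [L1.hc_none e h, Set.image_empty, Set.union_empty]
  have curR : ∀ e, ¬ Touch c j (2 * b) e → cur e = T1 '' L1.hc e := by
    intro e h
    show T0 '' L0.hc e ∪ T1 '' L1.hc e = _
    rw [L0.hc_none e h, Set.image_empty, Set.empty_union]
  -- the arc of an edge between the children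
  have hmid : ∀ u v, G.Adj u v → c u / 2 ^ j = 2 * b → c v / 2 ^ j = 2 * b + 1 →
      Arc (cur s(u, v)) (pt u) (pt v) := by
    intro u v huv hu hv
    have h0 := mid0 u v huv hu (fun h => hne01 v h hv) ((hblk v).2 (Or.inr hv))
    have h1 := mid1 v u huv.symm hv (fun h => hne01 u hu h) ((hblk u).2 (Or.inl hu))
    have e1 : s(v, u) = s(u, v) := Sym2.eq_swap
    rw [e1] at h1
    have a0 := h0.image (f := T0) T0_cont.continuousOn T0_inj.injOn
    have a1 := (h1.image (f := T1) T1_cont.continuousOn T1_inj.injOn).symm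
    rw [T0_two] at a0
    rw [T1_two] at a1
    rw [pt0 u hu, pt1 v hv]
    refine a0.trans a1 ?_
    rintro z ⟨⟨y, hy, rfl⟩, y', hy', h⟩
    have := mix _ huv _ huv y hy y' hy' h.symm
    rw [this.1.2.2, T0_two]
    rfl
  refine ⟨{
    pt := pt
    cur := cur
    ep := ep
    pt_in := ?_
    pt_inj := ?_
    ep_norm := ?_
    ep_inj := ?_
    str := ?_
    str_in := ?_
    edg := ?_
    edg_in := ?_
    avoid := ?_
    near := ?_ }⟩
  · intro v hv
    rcases (hblk v).1 hv with h | h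
    · rw [pt0 v h, T0_norm]
      have := norm_lt_of_lt_one (L0.pt_in v h)
      linarith
    · rw [pt1 v h, T1_norm]
      have := norm_lt_of_lt_one (L1.pt_in v h)
      linarith
  · intro v w hv hw h
    rcases (hblk v).1 hv with h1 | h1 <;> rcases (hblk w).1 hw with h2 | h2
    · rw [pt0 v h1, pt0 w h2] at h
      exact L0.pt_inj v w h1 h2 (T0_inj h)
    · have a := ptre0 v h1
      have b' := ptre1 w h2
      rw [h] at a
      linarith
    · have a := ptre1 v h1
      have b' := ptre0 w h2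
      rw [h] at a
      linarith
    · rw [pt1 v h1, pt1 w h2] at h
      exact L1.pt_inj v w h1 h2 (T1_inj h)
  · intro e he
    rcases (hsplit e he).2 with ⟨h, _⟩ | ⟨h, h'⟩
    · rw [ep0 e h, T0_norm, L0.fp_norm e h]
      norm_num
    · rw [ep1 e h', T1_norm, L1.fp_norm e h]
      norm_num
  · intro e e' he he' h
    rcases (hsplit e he).2 with ⟨h1, _⟩ | ⟨h1, h1'⟩ <;>
      rcases (hsplit e' he').2 with ⟨h2, _⟩ | ⟨h2, h2'⟩
    · rw [ep0 e h1, ep0 e' h2] at h
      exact L0.fp_inj e e' h1 h2 (T0_inj h)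
    · rw [ep0 e h1, ep1 e' h2'] at h
      have a := fpre0 e h1
      have b' := fpre1 e' h2
      rw [h] at a
      linarith
    · rw [ep1 e h1', ep0 e' h2] at h
      have a := fpre1 e h1
      have b' := fpre0 e' h2
      rw [h] at a
      linarith
    · rw [ep1 e h1', ep1 e' h2'] at h
      exact L1.fp_inj e e' h1 h2 (T1_inj h)
  · intro u v huv hu hv
    have hl : Leave G c (j + 1) b s(u, v) := ⟨huv, u, v, rfl, hu, hv⟩
    rcases (hblk u).1 hu with h | h
    · rcases (hsplit _ hl).2 with ⟨h1, h2⟩ | ⟨_, h2⟩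
      · rw [curL _ h2, pt0 u h, ep0 _ h1]
        exact (out0 u v huv h hv).image T0_cont.continuousOn T0_inj.injOn
      · exact absurd ⟨u, by simp, h⟩ h2
    · rcases (hsplit _ hl).2 with ⟨_, h2⟩ | ⟨h1, h2⟩
      · exact absurd ⟨u, by simp, h⟩ h2
      · rw [curR _ h2, pt1 u h, ep1 _ h2]
        exact (out1 u v huv h hv).image T1_cont.continuousOn T1_inj.injOn
  · intro e he z hz
    have hI := (hsplit e he).1
    rcases (hsplit e he).2 with ⟨h1, h2⟩ | ⟨h1, h2⟩
    · rw [curL e h2] at hz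
      obtain ⟨y, hy, rfl⟩ := hz
      rcases disc0 e he.edge y hy with h | ⟨_, _, h⟩
      · left
        rw [T0_norm]
        linarith
      · right
        rw [ep0 e h1, h]
    · rw [curR e h2] at hz
      obtain ⟨y, hy, rfl⟩ := hz
      rcases disc1 e he.edge y hy with h | ⟨_, _, h⟩
      · left
        rw [T1_norm]
        linarith
      · right
        rw [ep1 e h2, h]
  · intro u v huv hu hv
    rcases (hblk u).1 hu with h1 | h1 <;> rcases (hblk v).1 hv with h2 | h2
    · have hT : ¬ Touch c j (2 * b + 1) s(u, v) := by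
        rintro ⟨w, hw, hwb⟩
        rcases Sym2.mem_iff.1 hw with rfl | rfl
        · exact hne01 _ h1 hwb
        · exact hne01 _ h2 hwb
      rw [curL _ hT, pt0 u h1, pt0 v h2]
      exact (L0.arc_in u v huv h1 h2).image T0_cont.continuousOn T0_inj.injOn
    · exact hmid u v huv h1 h2
    · have h := (hmid v u huv.symm h2 h1).symm
      rwa [Sym2.eq_swap] at h
    · have hT : ¬ Touch c j (2 * b) s(u, v) := by
        rintro ⟨w, hw, hwb⟩
        rcases Sym2.mem_iff.1 hw with rfl | rfl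
        · exact hne01 _ hwb h1
        · exact hne01 _ hwb h2
      rw [curR _ hT, pt1 u h1, pt1 v h2]
      exact (L1.arc_in u v huv h1 h2).image T1_cont.continuousOn T1_inj.injOn
  · intro e he hI z hz
    rcases hz with ⟨y, hy, rfl⟩ | ⟨y, hy, rfl⟩
    · rcases disc0 e he y hy with h | ⟨_, h, _⟩
      · rw [T0_norm]
        linarith
      · exact absurd hI h
    · rcases disc1 e he y hy with h | ⟨_, h, _⟩
      · rw [T1_norm]
        linarith
      · exact absurd hI h
  · intro e he _ w hw hz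
    rcases (hblk w).1 hw with h | h
    · rcases hz with ⟨y, hy, hyz⟩ | ⟨y, hy, hyz⟩
      · rw [pt0 w h] at hyz
        rw [T0_inj hyz] at hy
        exact L0.avoid e he w h hy
      · have a := ptre0 w h
        have b' := re1 e he y hy
        rw [hyz] at b'
        linarith
    · rcases hz with ⟨y, hy, hyz⟩ | ⟨y, hy, hyz⟩
      · have a := ptre1 w h
        have b' := re0 e he y hy
        rw [hyz] at b'
        linarith
      · rw [pt1 w h] at hyz
        rw [T1_inj hyz] at hy
        exact L1.avoid e he w h hy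
  · intro e he e' he' _ _ hR hne z hz hz'
    have hmixF : ∀ f ∈ G.edgeSet, ∀ f' ∈ G.edgeSet, R f f' → f ≠ f' → ∀ y ∈ L0.hc f,
        ∀ y' ∈ L1.hc f', T0 y = T1 y' → False := by
      intro f hf f' hf' hR' hne' y hy y' hy' h
      obtain ⟨⟨a1, a2, _⟩, b1, b2, _⟩ := mix f hf f' hf' y hy y' hy' h
      have hl' : Leave G c j (2 * b) f' := by
        obtain ⟨hee, u, v, rfl, hu, hv⟩ := b1
        rcases (hblk v).1 (b2 v (by simp)) with k | k
        · exact ⟨hee, v, u, Sym2.eq_swap, k, fun k' => hne01 u k' hu⟩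
        · exact absurd k hv
      refine hne' (hC.one j (2 * b) f f' a1 hl' ?_ ?_ (Relation.ReflTransGen.single ⟨a1, hl', hR'⟩))
      · rw [hb0]
        exact a2
      · rw [hb0]
        exact b2
    rcases hz with ⟨y, hy, rfl⟩ | ⟨y, hy, rfl⟩ <;> rcases hz' with ⟨y', hy', h⟩ | ⟨y', hy', h⟩
    · rw [T0_inj h] at hy'
      obtain ⟨w, h1, h2, h3, h4⟩ := L0.near e he e' he' hR hne y hy hy'
      exact ⟨w, h1, h2, (hblk w).2 (Or.inl h3), by rw [pt0 w h3, h4]⟩
    · exact (hmixF e he e' he' hR hne y hy y' hy' h.symm).elim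
    · exact (hmixF e' he' e he (hC.symm _ _ hR) (Ne.symm hne) y' hy' y hy h).elim
    · rw [T1_inj h] at hy'
      obtain ⟨w, h1, h2, h3, h4⟩ := L1.near e he e' he' hR hne y hy hy'
      exact ⟨w, h1, h2, (hblk w).2 (Or.inr h3), by rw [pt1 w h3, h4]⟩

theorem exists_lev [Finite V] (hC : IsCode G c R) (j : ℕ) : ∀ b, Nonempty (Lev G c R j b) := by
  induction j with
  | zero => exact base hC
  | succ j ih =>
    intro b
    obtain ⟨L0⟩ := ih (2 * b)
    obtain ⟨L1⟩ := ih (2 * b + 1)
    obtain ⟨H0⟩ := toHalf hC L0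
    obtain ⟨H1⟩ := toHalf hC L1
    exact glue hC H0 H1

/-- A finite graph with a code has a drawing in which near edges do not cross. -/
theorem exists_drawing [Finite V] (hC : IsCode G c R) :
    ∃ D : Drawing G, ∀ e ∈ G.edgeSet, ∀ e' ∈ G.edgeSet, R e e' → ¬ D.Cross e e' := by
  classical
  obtain ⟨N, hN⟩ : ∃ N, ∀ v, c v < N := by
    cases nonempty_fintype V
    refine ⟨(Finset.univ.sup c) + 1, fun v => Nat.lt_succ_of_le ?_⟩
    exact Finset.le_sup (f := c) (Finset.mem_univ v)
  have hj : ∀ v, c v / 2 ^ N = 0 := fun v =>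
    Nat.div_eq_of_lt ((hN v).trans Nat.lt_two_pow_self)
  obtain ⟨L⟩ := exists_lev hC N 0
  have hT : ∀ e ∈ G.edgeSet, Touch c N 0 e := by
    intro e _
    induction e using Sym2.ind with
    | _ u v => exact ⟨u, by simp, hj u⟩
  have hinj : Function.Injective (fun z : ℂ => (z.re, z.im)) := by
    intro z w h
    have h2 := Prod.ext_iff.mp h
    exact Complex.ext h2.1 h2.2
  refine ⟨{
    pt := fun v => ((L.pt v).re, (L.pt v).im)
    pt_injective := fun v w h => L.pt_inj v w (hj v) (hj w) (hinj h)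
    arc := fun e => (fun z : ℂ => (z.re, z.im)) '' L.cur e
    isArc := fun u v huv => (L.edg u v huv (hj u) (hj v)).toProd
    avoid := ?_ }, ?_⟩
  · rintro e he w ⟨z, hz, h⟩
    have h2 : z = L.pt w := hinj h
    rw [h2] at hz
    exact L.avoid e he (hT e he) w (hj w) hz
  · rintro e he e' he' hR ⟨hne, x, ⟨⟨z, hz, rfl⟩, z', hz', h⟩, hx⟩
    have h2 : z' = z := hinj h
    rw [h2] at hz'
    obtain ⟨w, hw, hw', _, hzw⟩ := L.near e he e' he' (hT e he) (hT e' he') hR hne z hz hz'
    refine hx w hw hw' ?_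
    rw [hzw]

end Pool.Agent.MP_245544_coL
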