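import Pool.Agent.Lib.MP_245544_coL.Geo
import Pool.Agent.Lib.MP_245544_coL.Blk

/-! MP_245544_co, lower bound: the drawing of a graph with a code. -/

namespace Pool.Agent.MP_245544_coL

open Real Pool.Agent.MP_245544_coT

variable {V : Type} {G : SimpleGraph V} {c : V → ℕ} {R : Sym2 V → Sym2 V → Prop}

/-- Distinct angles in the order of `u`. -/
theorem exists_order {E : Type} [Finite E] (u : E → ℝ) :
    ∃ F : E → ℝ, Function.Injective F ∧ (∀ e, π / 2 < F e ∧ F e < 3 * π / 2) ∧
      ∀ e e', u e < u e' → F e < F e' := by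
  classical
  cases nonempty_fintype E
  set n := Fintype.card E with hn
  let idx : E ≃ Fin n := Fintype.equivFin E
  let lt : E → E → Prop := fun e e' => u e < u e' ∨ (u e = u e' ∧ (idx e).val < (idx e').val)
  have hirr : ∀ e, ¬ lt e e := by
    rintro e (h | ⟨_, h⟩)
    · exact lt_irrefl _ h
    · exact lt_irrefl _ h
  have htr : ∀ e e' e'', lt e e' → lt e' e'' → lt e e'' := by
    rintro e e' e'' (h | ⟨h, h1⟩) (k | ⟨k, k1⟩)
    · exact Or.inl (h.trans k)
    · exact Or.inl (k ▸ h)
    · exact Or.inl (h ▸ k)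
    · exact Or.inr ⟨h.trans k, h1.trans k1⟩
  have htri : ∀ e e', e ≠ e' → lt e e' ∨ lt e' e := by
    intro e e' hne
    rcases lt_trichotomy (u e) (u e') with h | h | h
    · exact Or.inl (Or.inl h)
    · have hi : (idx e).val ≠ (idx e').val := by
        intro h2
        exact hne (idx.injective (Fin.ext h2))
      rcases lt_or_gt_of_ne hi with h2 | h2
      · exact Or.inl (Or.inr ⟨h, h2⟩)
      · exact Or.inr (Or.inr ⟨h.symm, h2⟩)
    · exact Or.inr (Or.inl h)
  let rk : E → ℕ := fun e => (Finset.univ.filter (fun e' => lt e' e)).card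
  have hrk : ∀ e e', lt e e' → rk e < rk e' := by
    intro e e' h
    refine Finset.card_lt_card ?_
    rw [Finset.ssubset_iff_of_subset]
    · refine ⟨e, by simpa using h, ?_⟩
      simpa using hirr e
    · intro x hx
      simp only [Finset.mem_filter, Finset.mem_univ, true_and] at hx ⊢
      exact htr _ _ _ hx h
  have hle : ∀ e, rk e ≤ n := by
    intro e
    exact (Finset.card_filter_le _ _).trans (by simp [hn])
  have hn2 : (0 : ℝ) < (n : ℝ) + 2 := by positivity
  have hmono : ∀ e e', rk e < rk e' →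
      π / 2 + π * (((rk e : ℝ) + 1) / ((n : ℝ) + 2)) < π / 2 + π * (((rk e' : ℝ) + 1) / ((n : ℝ) + 2)) := by
    intro e e' h
    have h' : (rk e : ℝ) < rk e' := by exact_mod_cast h
    have : ((rk e : ℝ) + 1) / ((n : ℝ) + 2) < ((rk e' : ℝ) + 1) / ((n : ℝ) + 2) := by
      gcongr
    have := mul_lt_mul_of_pos_left this Real.pi_pos
    linarith
  refine ⟨fun e => π / 2 + π * (((rk e : ℝ) + 1) / ((n : ℝ) + 2)), ?_, ?_, ?_⟩
  · intro e e' h
    by_contra hne
    rcases htri e e' hne with h2 | h2
    · exact absurd h (hmono _ _ (hrk _ _ h2)).ne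
    · exact absurd h (hmono _ _ (hrk _ _ h2)).ne'
  · intro e
    have h0 : 0 < ((rk e : ℝ) + 1) / ((n : ℝ) + 2) := by positivity
    have h1 : ((rk e : ℝ) + 1) / ((n : ℝ) + 2) < 1 := by
      rw [div_lt_one hn2]
      have : (rk e : ℝ) ≤ n := by exact_mod_cast hle e
      linarith
    have h2 := mul_pos Real.pi_pos h0
    have h3 := mul_lt_mul_of_pos_left h1 Real.pi_pos
    constructor
    · linarith
    · linarith
  · intro e e' h
    exact hmono _ _ (hrk _ _ (Or.inl h))

theorem expI_inj {x y : ℝ} (h : Complex.exp ((x : ℂ) * Complex.I) = Complex.exp ((y : ℂ) * Complex.I))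
    (h1 : x - y < 2 * π) (h2 : y - x < 2 * π) : x = y := by
  rw [Complex.exp_eq_exp_iff_exists_int] at h
  obtain ⟨k, hk⟩ := h
  have h3 : (x : ℂ) = y + k * (2 * π) := by
    have h4 : ((x : ℂ) - (y + k * (2 * π))) * Complex.I = 0 := by
      linear_combination hk
    have h5 := (mul_eq_zero.1 h4).resolve_right Complex.I_ne_zero
    linear_combination h5
  have h6 : x = y + k * (2 * π) := by exact_mod_cast h3
  have hpi := Real.pi_pos
  have h7 : (k : ℝ) < 1 := by
    by_contra hcon
    push Not at hcon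
    nlinarith
  have h8 : (-1 : ℝ) < k := by
    by_contra hcon
    push Not at hcon
    nlinarith
  have h9 : k < 1 := by exact_mod_cast h7
  have h10 : -1 < k := by exact_mod_cast h8
  have h11 : k = 0 := by omega
  rw [h6, h11]
  simp

theorem base [Finite V] (hC : IsCode G c R) (b : ℕ) : Nonempty (Lev G c R 0 b) := by
  classical
  obtain ⟨F, hFi, hFm, -⟩ := exists_order (fun _ : Sym2 V => (0 : ℝ))
  have hone : ∀ v, c v / 2 ^ 0 = b ↔ c v = b := by
    intro v
    simp
  have hin : ∀ e ∈ G.edgeSet, ¬ Inside c 0 b e := by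
    intro e
    induction e using Sym2.ind with
    | _ u v =>
      intro he hI
      have h1 := (hone u).1 (hI u (by simp))
      have h2 := (hone v).1 (hI v (by simp))
      have h3 : u = v := hC.inj (h1.trans h2.symm)
      subst h3
      exact G.loopless.irrefl u (by simp at he)
  have hn : ∀ e, ‖Complex.exp ((F e : ℂ) * Complex.I)‖ = 1 := fun e =>
    Complex.norm_exp_ofReal_mul_I _
  have hei : ∀ e e', Complex.exp ((F e : ℂ) * Complex.I) = Complex.exp ((F e' : ℂ) * Complex.I) →
      e = e' := by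
    intro e e' h
    have h1 := hFm e
    have h2 := hFm e'
    have hpi := Real.pi_pos
    exact hFi (expI_inj h (by linarith) (by linarith))
  have hseg : ∀ e, ∀ z ∈ segment ℝ (0 : ℂ) (Complex.exp ((F e : ℂ) * Complex.I)),
      ∃ t : ℝ, 0 ≤ t ∧ t ≤ 1 ∧ z = (t : ℂ) * Complex.exp ((F e : ℂ) * Complex.I) ∧ ‖z‖ = t := by
    intro e z hz
    obtain ⟨a, t, ha, ht, hat, rfl⟩ := hz
    refine ⟨t, ht, by linarith, ?_, ?_⟩
    · simp
    · simp only [smul_zero, zero_add, norm_smul, hn e, mul_one, Real.norm_eq_abs]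
      exact abs_of_nonneg ht
  refine ⟨{
    pt := fun _ => 0
    cur := fun e => segment ℝ (0 : ℂ) (Complex.exp ((F e : ℂ) * Complex.I))
    ep := fun e => Complex.exp ((F e : ℂ) * Complex.I)
    pt_in := fun v _ => by simp
    pt_inj := fun v w hv hw _ => hC.inj (((hone v).1 hv).trans ((hone w).1 hw).symm)
    ep_norm := fun e _ => hn e
    ep_inj := fun e e' _ _ h => hei e e' h
    str := fun u v _ _ _ => arc_segment (fun h => by
      have := hn s(u, v)
      rw [← h] at this
      simp at this)
    str_in := ?_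
    edg := ?_
    edg_in := fun e he hI => absurd hI (hin e he)
    avoid := ?_
    near := ?_ }⟩
  · intro e _ z hz
    obtain ⟨t, ht0, ht1, hzt, hzn⟩ := hseg e z hz
    rcases ht1.lt_or_eq with h | h
    · left
      rw [hzn]
      exact h
    · right
      rw [hzt, h]
      simp
  · intro u v huv hu hv
    exact absurd (hC.inj (((hone u).1 hu).trans ((hone v).1 hv).symm)) huv.ne
  · rintro e he ⟨u, hu, hub⟩ w hw _
    have : u = w := hC.inj (((hone u).1 hub).trans ((hone w).1 hw).symm)
    rw [← this]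
    exact hu
  · rintro e he e' he' ⟨u, hu, hub⟩ ⟨u', hu', hub'⟩ hR hne z hz hz'
    have huu : u = u' := hC.inj (((hone u).1 hub).trans ((hone u').1 hub').symm)
    subst huu
    refine ⟨u, hu, hu', hub, ?_⟩
    obtain ⟨t, ht0, ht1, hzt, hzn⟩ := hseg e z hz
    obtain ⟨t', ht0', ht1', hzt', hzn'⟩ := hseg e' z hz'
    by_contra hz0
    have htt : t = t' := hzn.symm.trans hzn'
    subst htt
    have ht : (t : ℂ) ≠ 0 := by
      intro h
      rw [h, zero_mul] at hzt
      exact hz0 hzt
    have := mul_left_cancel₀ ht (hzt.symm.trans hzt')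
    exact hne (hei _ _ this)

theorem Chn.symm' (hC : IsCode G c R) {j b : ℕ} {e e' : Sym2 V}
    (h : Relation.ReflTransGen (Chn G c R j b) e e') :
    Relation.ReflTransGen (Chn G c R j b) e' e := by
  induction h with
  | refl => exact Relation.ReflTransGen.refl
  | tail _ h2 ih => exact Relation.ReflTransGen.head ⟨h2.2.1, h2.1, hC.symm _ _ h2.2.2⟩ ih

theorem div_succ (n j : ℕ) : n / 2 ^ (j + 1) = n / 2 ^ j / 2 := by
  rw [pow_succ, Nat.div_div_eq_div_mul]

theorem toHalf [Finite V] (hC : IsCode G c R) {j b : ℕ} (L : Lev G c R j b) :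
    Nonempty (Half G c R j b) := by
  classical
  -- the inner edge of the class
  let Cls : Sym2 V → Sym2 V → Prop := fun e e0 => Leave G c j b e0 ∧
    Inside c (j + 1) (b / 2) e0 ∧ Relation.ReflTransGen (Chn G c R j b) e e0
  let th : (Sym2 V → Prop) → ℝ := fun P => if h : ∃ e0, P e0 then Complex.arg (L.ep h.choose) else 0
  have hth : ∀ P : Sym2 V → Prop, ∀ e0, P e0 → (∀ e1, P e1 → e1 = e0) →
      th P = Complex.arg (L.ep e0) := by
    intro P e0 h0 hu
    have hex : ∃ e0, P e0 := ⟨e0, h0⟩
    have h1 : th P = Complex.arg (L.ep hex.choose) := dif_pos hex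
    rw [h1, hu _ hex.choose_spec]
  have hCls : ∀ e e', Leave G c j b e → Leave G c j b e' → R e e' → Cls e = Cls e' := by
    intro e e' he he' hR
    funext e0
    apply propext
    constructor
    · rintro ⟨h1, h2, h3⟩
      exact ⟨h1, h2, Relation.ReflTransGen.head ⟨he', he, hC.symm _ _ hR⟩ h3⟩
    · rintro ⟨h1, h2, h3⟩
      exact ⟨h1, h2, Relation.ReflTransGen.head ⟨he, he', hR⟩ h3⟩
  obtain ⟨F, hFi, hFm, hFo⟩ := exists_order (fun e : Sym2 V => ang (L.ep e) (th (Cls e)))
  let ps : Sym2 V → ℝ := fun e => if Inside c (j + 1) (b / 2) e then 0 else F e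
  have hadm : ∀ e, Adm (ps e) := by
    intro e
    by_cases h : Inside c (j + 1) (b / 2) e
    · left
      exact if_pos h
    · right
      have : ps e = F e := if_neg h
      rw [this]
      exact hFm e
  have key : ∀ e e', Leave G c j b e → Leave G c j b e' → R e e' →
      ang (L.ep e) (th (Cls e)) < ang (L.ep e') (th (Cls e')) →
      Disjoint (ext (L.ep e) (th (Cls e)) (ps e)) (ext (L.ep e') (th (Cls e')) (ps e')) := by
    intro e e' he he' hR hlt
    have hnI : ¬ Inside c (j + 1) (b / 2) e' := by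
      intro hI
      have h0 : th (Cls e') = Complex.arg (L.ep e') := by
        refine hth _ _ ⟨he', hI, Relation.ReflTransGen.refl⟩ ?_
        rintro e1 ⟨h1, h2, h3⟩
        exact (hC.one j b e' e1 he' h1 hI h2 h3).symm
      rw [h0, ang_arg] at hlt
      exact absurd hlt (not_lt.2 (ang_mem _ _).1)
    have hps' : ps e' = F e' := if_neg hnI
    have hpslt : ps e < ps e' := by
      rw [hps']
      by_cases h : Inside c (j + 1) (b / 2) e
      · have h1 : ps e = 0 := if_pos h
        rw [h1]
        have := (hFm e').1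
        have := Real.pi_pos
        linarith
      · have h1 : ps e = F e := if_neg h
        rw [h1]
        exact hFo e e' hlt
    have hth' := hCls e e' he he' hR
    rw [← hth'] at hlt ⊢
    exact ext_disjoint (L.ep_norm e he) (L.ep_norm e' he') _ (hadm e) (hadm e') hlt hpslt
  have key2 : ∀ e e', Leave G c j b e → Leave G c j b e' → R e e' → e ≠ e' → ∀ z,
      z ∈ ext (L.ep e) (th (Cls e)) (ps e) → z ∈ ext (L.ep e') (th (Cls e')) (ps e') → False := by
    intro e e' he he' hR hne z hz hz'
    rcases lt_trichotomy (ang (L.ep e) (th (Cls e))) (ang (L.ep e') (th (Cls e'))) with h | h | h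
    · exact Set.disjoint_left.1 (key e e' he he' hR h) hz hz'
    · rw [← hCls e e' he he' hR] at h
      exact hne (L.ep_inj e e' he he' (ang_inj (L.ep_norm e he) (L.ep_norm e' he') h))
    · exact Set.disjoint_left.1 (key e' e he' he (hC.symm _ _ hR) h) hz' hz
  let hc : Sym2 V → Set ℂ := fun e =>
    if Leave G c j b e then L.cur e ∪ ext (L.ep e) (th (Cls e)) (ps e)
    else if Touch c j b e then L.cur e else ∅
  have hcL : ∀ e, Leave G c j b e → hc e = L.cur e ∪ ext (L.ep e) (th (Cls e)) (ps e) :=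
    fun e he => if_pos he
  have hcT : ∀ e, ¬ Leave G c j b e → Touch c j b e → hc e = L.cur e := by
    intro e he ht
    have h1 : hc e = if Touch c j b e then L.cur e else ∅ := if_neg he
    rw [h1, if_pos ht]
  have hcN : ∀ e, ¬ Touch c j b e → hc e = ∅ := by
    intro e ht
    have h1 : hc e = if Touch c j b e then L.cur e else ∅ := if_neg (fun h => ht h.touch)
    rw [h1, if_neg ht]
  -- membership
  have hmem : ∀ e ∈ G.edgeSet, ∀ z ∈ hc e, (Touch c j b e ∧ z ∈ L.cur e) ∨
      (Leave G c j b e ∧ z ∈ ext (L.ep e) (th (Cls e)) (ps e)) := by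
    intro e he z hz
    by_cases h1 : Leave G c j b e
    · rw [hcL e h1] at hz
      rcases hz with hz | hz
      · exact Or.inl ⟨h1.touch, hz⟩
      · exact Or.inr ⟨h1, hz⟩
    · by_cases h2 : Touch c j b e
      · rw [hcT e h1 h2] at hz
        exact Or.inl ⟨h2, hz⟩
      · rw [hcN e h2] at hz
        exact absurd hz (Set.notMem_empty z)
  have hcur : ∀ e ∈ G.edgeSet, Touch c j b e → ∀ z ∈ L.cur e,
      ‖z‖ < 1 ∨ (Leave G c j b e ∧ z = L.ep e) := by
    intro e he ht z hz
    rcases Touch.cases he ht with h | h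
    · rcases L.str_in e h z hz with h2 | h2
      · exact Or.inl h2
      · exact Or.inr ⟨h, h2⟩
    · exact Or.inl (L.edg_in e he h z hz)
  have hcur1 : ∀ e ∈ G.edgeSet, Touch c j b e → ∀ z ∈ L.cur e, ‖z‖ ≤ 1 := by
    intro e he ht z hz
    rcases hcur e he ht z hz with h | ⟨h, h2⟩
    · exact h.le
    · rw [h2, L.ep_norm e h]
  have hleave : ∀ u v, G.Adj u v → c u / 2 ^ j = b → c v / 2 ^ j ≠ b → Leave G c j b s(u, v) :=
    fun u v huv hu hv => ⟨huv, u, v, rfl, hu, hv⟩
  -- the arcs of the strands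
  have harc : ∀ u v, G.Adj u v → c u / 2 ^ j = b → c v / 2 ^ j ≠ b →
      Arc (hc s(u, v)) (L.pt u) (fin (ps s(u, v))) := by
    intro u v huv hu hv
    have hl := hleave u v huv hu hv
    rw [hcL _ hl]
    refine (L.str u v huv hu hv).trans (arc_ext (L.ep_norm _ hl) _ (hadm _)) ?_
    rintro z ⟨hz, hz'⟩
    rcases ext_norm (L.ep_norm _ hl) _ (hadm _) hz' with h | h
    · exact absurd (hcur1 _ hl.edge hl.touch z hz) (not_le.2 h)
    · exact h
  refine ⟨{
    pt := L.pt
    hc := hc
    fp := fun e => fin (F e)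
    pt_in := L.pt_in
    pt_inj := L.pt_inj
    fp_norm := fun e _ => fin_norm (hFm e).1 (hFm e).2
    fp_re := fun e _ => (fin_re (hFm e).1 (hFm e).2).trans (by norm_num)
    fp_inj := fun e e' _ _ h => hFi (fin_inj (hFm e).1 (hFm e).2 (hFm e').1 (hFm e').2 h)
    arc_mid := ?_
    arc_out := ?_
    arc_in := ?_
    hc_none := hcN
    hc_disc := ?_
    hc_side := ?_
    avoid := ?_
    near := ?_ }⟩
  · intro u v huv hu hv hv2
    have h := harc u v huv hu hv
    have hI : Inside c (j + 1) (b / 2) s(u, v) := by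
      intro w hw
      rcases Sym2.mem_iff.1 hw with rfl | rfl
      · rw [div_succ, hu]
      · exact hv2
    have h0 : ps s(u, v) = 0 := if_pos hI
    rwa [h0, fin_zero] at h
  · intro u v huv hu hv2
    have hv : c v / 2 ^ j ≠ b := by
      intro h
      apply hv2
      rw [div_succ, h]
    have h := harc u v huv hu hv
    have hI : ¬ Inside c (j + 1) (b / 2) s(u, v) := fun h => hv2 (h v (by simp))
    have h0 : ps s(u, v) = F s(u, v) := if_neg hI
    rwa [h0] at h
  · intro u v huv hu hv
    have hI : Inside c j b s(u, v) := by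
      intro w hw
      rcases Sym2.mem_iff.1 hw with rfl | rfl
      · exact hu
      · exact hv
    rw [hcT _ (fun h => h.not_inside hI) ⟨u, by simp, hu⟩]
    exact L.edg u v huv hu hv
  · intro e he z hz
    rcases hmem e he z hz with ⟨ht, hz⟩ | ⟨hl, hz⟩
    · left
      have h1 := hcur1 e he ht z hz
      calc ‖z - 2‖ ≤ ‖z‖ + ‖(2 : ℂ)‖ := norm_sub_le _ _
        _ ≤ 1 + 2 := by
          have : ‖(2 : ℂ)‖ = 2 := by simp
          rw [this]
          linarith
        _ < 4 := by norm_num
    · rcases ext_disc (L.ep_norm _ hl) _ (hadm _) hz with h | ⟨h, h2⟩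
      · exact Or.inl h
      · right
        have hI : ¬ Inside c (j + 1) (b / 2) e := fun hI => h (if_pos hI)
        refine ⟨hl, hI, ?_⟩
        have h0 : ps e = F e := if_neg hI
        rw [h2, h0]
  · intro e he z hz
    rcases hmem e he z hz with ⟨ht, hz⟩ | ⟨hl, hz⟩
    · left
      have h1 := hcur1 e he ht z hz
      have h2 := (Complex.re_le_norm z)
      linarith
    · rcases ext_side (L.ep_norm _ hl) _ (hadm _) hz with h | ⟨h, h2⟩
      · exact Or.inl h
      · right
        refine ⟨hl, ?_, h2⟩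
        by_contra hI
        have h0 : ps e = F e := if_neg hI
        have := (hFm e).1
        have := Real.pi_pos
        rw [h0] at h
        linarith
  · intro e he w hw hz
    rcases hmem e he _ hz with ⟨ht, hz⟩ | ⟨hl, hz⟩
    · exact L.avoid e he ht w hw hz
    · exfalso
      have h1 := L.pt_in w hw
      rcases ext_norm (L.ep_norm _ hl) _ (hadm _) hz with h | h
      · linarith
      · rw [h, L.ep_norm e hl] at h1
        exact lt_irrefl _ h1
  · intro e he e' he' hR hne z hz hz'
    rcases hmem e he z hz with ⟨ht, hz⟩ | ⟨hl, hz⟩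
    · rcases hmem e' he' z hz' with ⟨ht', hz'⟩ | ⟨hl', hz'⟩
      · exact L.near e he e' he' ht ht' hR hne z hz hz'
      · exfalso
        rcases ext_norm (L.ep_norm _ hl') _ (hadm _) hz' with h | h
        · exact absurd (hcur1 e he ht z hz) (not_le.2 h)
        · rcases hcur e he ht z hz with h2 | ⟨h2, h3⟩
          · rw [h, L.ep_norm e' hl'] at h2
            exact lt_irrefl _ h2
          · exact hne (L.ep_inj e e' h2 hl' (h3.symm.trans h))
    · rcases hmem e' he' z hz' with ⟨ht', hz'⟩ | ⟨hl', hz'⟩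
      · exfalso
        rcases ext_norm (L.ep_norm _ hl) _ (hadm _) hz with h | h
        · exact absurd (hcur1 e' he' ht' z hz') (not_le.2 h)
        · rcases hcur e' he' ht' z hz' with h2 | ⟨h2, h3⟩
          · rw [h, L.ep_norm e hl] at h2
            exact lt_irrefl _ h2
          · exact hne (L.ep_inj e e' hl h2 (h.symm.trans h3))
      · exact (key2 e e' hl hl' hR hne z hz hz').elim

end Pool.Agent.MP_245544_coL
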