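import Pool.Agent.Lib.MP_245544_coL.Code2
import Pool.Agent.Lib.MP_245544_coL.Draw
import Pool.Agent.Lib.MP_245544_coL.Asy

/-! MP_245544_co (lower bound): the family of drawings and the lower bound with iterated logarithms. -/

namespace Pool.Agent.MP_245544_coL

open Pool.Agent.MP_245544_coT Asymptotics Filter

theorem two_stepS (x : ℕ) : 2 * stepS x ≤ stepS (2 * x) := by
  unfold stepS
  have h : 2 ^ x ≤ 2 ^ (2 * x) := Nat.pow_le_pow_right (by norm_num) (by omega)
  calc 2 * (x * 2 ^ x) = 2 * x * 2 ^ x := by ring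
    _ ≤ 2 * x * 2 ^ (2 * x) := Nat.mul_le_mul_left _ h

theorem two_stepS_iter (j x : ℕ) : 2 * stepS^[j] x ≤ stepS^[j] (2 * x) := by
  induction j with
  | zero => exact le_rfl
  | succ j ih =>
    rw [Function.iterate_succ_apply', Function.iterate_succ_apply']
    exact (two_stepS _).trans (stepS_mono ih)

theorem tow_eq (D s : ℕ) : tow D s = stepS^[s] (D * D) := by
  induction s with
  | zero => rfl
  | succ s ih => rw [Function.iterate_succ_apply', ← ih]; rfl

/-- The drawing of the last cover over a structure whose zones of radius `2 ^ s - 1` are forests. -/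
theorem exists_cover_drawing {P Q E : Type} [Fintype P] [Fintype Q] [Fintype E] (I : Inc P Q E)
    {n : P → ℕ} {s k : ℕ} (hF : I.Fr n (2 ^ s - 1)) (hk : k ≤ 2 ^ (s + 2)) :
    ∃ (G : SimpleGraph ((P ⊕ Q) × Finset E)) (Dr : Drawing G), Dr.CrossingsFar k ∧
      G.edgeSet.ncard = Fintype.card E * 2 ^ Fintype.card E := by
  classical
  obtain ⟨rk, hrk, hmono⟩ := exists_refine (fun e => n (I.a e))
  have hs : 1 ≤ 2 ^ s := Nat.one_le_two_pow
  have hB : (2 ^ (s + 1) - 1) / 2 ≤ 2 ^ s - 1 := by rw [pow_succ]; omega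
  have hB1 : 1 ≤ 2 ^ (s + 1) - 1 := by rw [pow_succ]; omega
  have hC := isCode (I := I) (n := n) (enc := fun z => (Fintype.equivFin (P ⊕ Q) z : ℕ))
    (K := Fintype.card (P ⊕ Q)) hrk hmono hF hB hB1
    (fun x y h => (Fintype.equivFin (P ⊕ Q)).injective (Fin.ext h))
    (fun z => (Fin.is_lt _).trans Nat.lt_two_pow_self)
  obtain ⟨Dr, hDr⟩ := exists_drawing hC
  refine ⟨I.cg, Dr, ?_, ?_⟩
  · intro e he e' he' hX u v p _ h1 h2
    by_contra hlt
    refine hDr e he e' he' (I.R_of_walk p h1 h2 ?_) hX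
    have h3 : 2 ^ (s + 2) = 4 * 2 ^ s := by ring
    have h4 : 2 ^ (s + 1) = 2 * 2 ^ s := by ring
    omega
  · rw [I.edgeSet_cg, Set.ncard_eq_toFinset_card', Set.toFinset_range,
      Finset.card_image_of_injective _ I.ed_inj, Finset.card_univ, Fintype.card_prod,
      Fintype.card_finset]

/-- The family of drawings. -/
theorem exists_family {j k : ℕ} (hj : 1 ≤ j) (hk : k ≤ 2 ^ (j + 1)) (D : ℕ) (hD : 1 ≤ D) :
    ∃ (V : Type) (_ : Fintype V) (_ : Nonempty V) (G : SimpleGraph V)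
      (Dr : Drawing G), Dr.CrossingsFar k ∧ Fintype.card V ≤ stepS^[j] (2 * D ^ 2) ∧
        D * Fintype.card V ≤ 2 * G.edgeSet.ncard := by
  obtain ⟨s, rfl⟩ := Nat.exists_eq_add_of_le' hj
  obtain ⟨P, Q, E, fP, fQ, fE, I, n, -, hF, h1, h2, h3⟩ := exists_inc D s
  obtain ⟨G, Dr, hfar, hcard⟩ := exists_cover_drawing I hF hk
  have hcV : Fintype.card ((P ⊕ Q) × Finset E) = 2 * Fintype.card P * 2 ^ Fintype.card E := by
    rw [Fintype.card_prod, Fintype.card_sum, Fintype.card_finset, h3, two_mul]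
  have hpos : 0 < Fintype.card E := by
    rw [h1, tow_eq]
    exact lt_of_lt_of_le (Nat.mul_pos hD hD) (le_stepS_iter s _)
  have hP : 0 < Fintype.card P := by
    rcases Nat.eq_zero_or_pos (Fintype.card P) with h | h
    · rw [h2, h] at hpos; omega
    · exact h
  have hne : Nonempty ((P ⊕ Q) × Finset E) := by
    rw [← Fintype.card_pos_iff, hcV]
    positivity
  refine ⟨_, inferInstance, hne, G, Dr, hfar, ?_, ?_⟩
  · rw [hcV]
    have h5 : Fintype.card P ≤ Fintype.card E := by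
      rw [h2]; exact Nat.le_mul_of_pos_left _ hD
    calc 2 * Fintype.card P * 2 ^ Fintype.card E
        ≤ 2 * Fintype.card E * 2 ^ Fintype.card E :=
          Nat.mul_le_mul_right _ (Nat.mul_le_mul_left _ h5)
      _ = 2 * stepS (Fintype.card E) := by rw [stepS]; ring
      _ = 2 * stepS^[s + 1] (D * D) := by rw [Function.iterate_succ_apply', h1, tow_eq]
      _ ≤ stepS^[s + 1] (2 * (D * D)) := two_stepS_iter _ _
      _ = stepS^[s + 1] (2 * D ^ 2) := by rw [pow_two]
  · rw [hcV, hcard, h2]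
    apply le_of_eq
    ring

/-- LOWER BOUND: `n (log^(j) n)^(1/2) = O(maxEdges k n)` for `k ≤ 2 ^ (j + 1)`. -/
theorem lower_sqrt {j k : ℕ} (hj : 1 ≤ j) (hk : k ≤ 2 ^ (j + 1)) :
    (fun n : ℕ => (n : ℝ) * Real.sqrt (Real.log^[j] (n : ℝ))) =O[atTop]
      (fun n : ℕ => (maxEdges k n : ℝ)) :=
  lower_of_family_sqrt (C := 2) (by norm_num) fun D hD => exists_family hj hk D hD

end Pool.Agent.MP_245544_coL
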