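import Pool.Agent.Lib.MP_245544_coL.Iter

/-! MP_245544_co (lower bound): the incidence structure of the points and the axis-parallel lines of
the grid `[D] ^ D`. All its zones of radius `1` are forests. -/

namespace Pool.Agent.MP_245544_coL

/-- In the lexicographic order `u ≤ v`, and `v ≤ u` at all places before `j`, give `u j ≤ v j`. -/
theorem lex_le_at {m : ℕ} {u v : Fin m → ℕ} (h : toLex u ≤ toLex v) (j : Fin m)
    (hj : ∀ j' < j, v j' ≤ u j') : u j ≤ v j := by
  rcases h.lt_or_eq with h | h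
  · obtain ⟨k, hk, hlt⟩ := h
    rcases lt_trichotomy j k with h1 | h1 | h1
    · exact (hk j h1).le
    · rw [h1]; exact le_of_lt hlt
    · exact absurd (hj k h1) (not_le.2 hlt)
  · rw [toLex.injective h]

/-- Points and axis-parallel lines of the grid `[d + 1] ^ (d + 1)`; an incidence is a direction together
with a point, the line `(i, y)` has the direction `i`. -/
def grid (d : ℕ) : Inc (Fin (d + 1) × (Fin d → Fin (d + 1))) (Fin (d + 1) → Fin (d + 1))
    (Fin (d + 1) × (Fin (d + 1) → Fin (d + 1))) where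
  a e := (e.1, e.1.removeNth e.2)
  b e := e.2

/-- The prefix (coordinates before `i`) of the point `x`, as a word with `0` at the free places. -/
def pre {d : ℕ} (i : Fin (d + 1)) (x : Fin (d + 1) → Fin (d + 1)) : Fin (d + 1) → ℕ :=
  fun j => if j < i then (x j : ℕ) + 1 else 0

/-- The time of a line. -/
def gtime {d : ℕ} (p : Fin (d + 1) × (Fin d → Fin (d + 1))) : Lex (Fin (d + 1) → ℕ) :=
  toLex (pre p.1 (p.1.insertNth 0 p.2))

theorem gtime_a {d : ℕ} (e : Fin (d + 1) × (Fin (d + 1) → Fin (d + 1))) :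
    gtime ((grid d).a e) = toLex (pre e.1 e.2) := by
  refine congrArg toLex (funext fun j => ?_)
  show (if j < e.1 then (((e.1.insertNth 0 (e.1.removeNth e.2) : Fin (d + 1) → Fin (d + 1)) j : ℕ)) + 1
    else 0) = if j < e.1 then (e.2 j : ℕ) + 1 else 0
  by_cases h : j < e.1
  · rw [if_pos h, if_pos h]
    obtain ⟨k, rfl⟩ := Fin.exists_succAbove_eq h.ne
    rw [Fin.insertNth_apply_succAbove]
    rfl
  · rw [if_neg h, if_neg h]

theorem grid_a_eq {d : ℕ} {e e' : Fin (d + 1) × (Fin (d + 1) → Fin (d + 1))}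
    (h : (grid d).a e' = (grid d).a e) : e'.1 = e.1 ∧ ∀ j, j ≠ e.1 → e'.2 j = e.2 j := by
  have h1 : ((grid d).a e').1 = ((grid d).a e).1 := congrArg Prod.fst h
  have h1 : e'.1 = e.1 := h1
  have h2 : ((grid d).a e').2 = ((grid d).a e).2 := congrArg Prod.snd h
  have h2 : e'.1.removeNth e'.2 = e.1.removeNth e.2 := h2
  refine ⟨h1, fun j hj => ?_⟩
  obtain ⟨k, rfl⟩ := Fin.exists_succAbove_eq hj
  rw [h1] at h2
  exact congrFun h2 k

/-- The zones of radius `1` of the grid are forests. -/
theorem grid_Fr (d : ℕ) : (grid d).Fr (gtime (d := d)) 1 := by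
  refine Inc.Fr.of_range fun p0 => ?_
  set i0 := p0.1 with hi0
  set y : Fin (d + 1) → Fin (d + 1) := p0.1.insertNth 0 p0.2 with hy
  have hτ : gtime p0 = toLex (pre i0 y) := rfl
  -- an edge of the zone lies in the block of its direction around the time
  have key : ∀ e ∈ (grid d).Zone gtime 1 (gtime p0), ∀ j, j < e.1 → e.2 j = y j := by
    rintro ⟨i, x⟩ ⟨h1, p', h2, h3⟩
    rw [gtime_a, hτ] at h1
    rw [hτ] at h3
    obtain ⟨i', x1, hx1, h4⟩ : ∃ (i' : Fin (d + 1)) (x1 : Fin (d + 1) → Fin (d + 1)),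
        (∀ j, j ≠ i → x1 j = x j) ∧ toLex (pre i0 y) ≤ toLex (pre i' x1) := by
      rcases h2 with h2 | ⟨e1, e1', h5, h6, h7⟩
      · refine ⟨i, x, fun _ _ => rfl, ?_⟩
        rw [← h2, gtime_a] at h3
        exact h3
      · have h7' : (grid d).a e1' = p' := h7
        rw [← h7', gtime_a] at h3
        have h6' : e1.2 = e1'.2 := h6
        refine ⟨e1'.1, e1'.2, fun j hj => ?_, h3⟩
        rw [← h6']
        exact (grid_a_eq h5).2 j hj
    have main : ∀ k : ℕ, ∀ j : Fin (d + 1), (j : ℕ) = k → j < i → x j = y j ∧ j < i0 := by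
      intro k
      induction k using Nat.strong_induction_on with
      | _ k ih =>
        intro j hjk hji
        have hlow : ∀ j' < j, x j' = y j' ∧ j' < i0 := fun j' hj' =>
          ih (j' : ℕ) (by rw [← hjk]; exact hj') j' rfl (hj'.trans hji)
        have h5 : pre i x j ≤ pre i0 y j := by
          refine lex_le_at h1 j fun j' hj' => ?_
          show (if j' < i0 then (y j' : ℕ) + 1 else 0) ≤ (if j' < i then (x j' : ℕ) + 1 else 0)
          rw [if_pos (hlow j' hj').2, if_pos (hj'.trans hji), (hlow j' hj').1]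
        have h6 : pre i0 y j ≤ pre i' x1 j := by
          refine lex_le_at h4 j fun j' hj' => ?_
          show (if j' < i' then (x1 j' : ℕ) + 1 else 0) ≤ (if j' < i0 then (y j' : ℕ) + 1 else 0)
          rw [if_pos (hlow j' hj').2, hx1 j' (hj'.trans hji).ne, (hlow j' hj').1]
          split_ifs <;> omega
        have h7 : pre i x j = (x j : ℕ) + 1 := if_pos hji
        have h8 : pre i' x1 j ≤ (x j : ℕ) + 1 := by
          show (if j < i' then (x1 j : ℕ) + 1 else 0) ≤ (x j : ℕ) + 1
          rw [hx1 j hji.ne]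
          split_ifs <;> omega
        have h9 : pre i0 y j = (x j : ℕ) + 1 := le_antisymm (h6.trans h8) (by rw [← h7]; exact h5)
        by_cases h10 : j < i0
        · have h11 : pre i0 y j = (y j : ℕ) + 1 := if_pos h10
          exact ⟨Fin.ext (by omega), h10⟩
        · have h11 : pre i0 y j = 0 := if_neg h10
          omega
    exact fun j hj => (main j j rfl hj).1
  -- leaves
  intro S hS hSZ
  obtain ⟨e, he, hmin⟩ := S.exists_min_image (fun e => e.1) hS
  by_cases h : ∃ e' ∈ S, (grid d).a e' = (grid d).a e ∧ ∀ e'' ∈ S, (grid d).b e'' = (grid d).b e' → e'' = e'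
  · obtain ⟨e', h1, -, h3⟩ := h
    exact Or.inr ⟨e', h1, h3⟩
  · push Not at h
    have h5 : ∀ e' ∈ S, (grid d).a e' = (grid d).a e → e'.2 e.1 = y e.1 := by
      intro e' he' haa
      obtain ⟨e'', h1, h2, h3⟩ := h e' he' haa
      have h4 : e''.2 = e'.2 := h2
      have h6 : e'.1 = e.1 := (grid_a_eq haa).1
      have h7 : e''.1 ≠ e.1 := fun h8 => h3 (Prod.ext (h8.trans h6.symm) h4)
      have h8 : e.1 < e''.1 := lt_of_le_of_ne (hmin e'' h1) (Ne.symm h7)
      rw [← h4]
      exact key e'' (hSZ e'' h1) e.1 h8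
    refine Or.inl ⟨e, he, fun e' he' haa => ?_⟩
    obtain ⟨h6, h7⟩ := grid_a_eq haa
    refine Prod.ext h6 (funext fun j => ?_)
    by_cases hj : j = e.1
    · rw [hj, h5 e' he' haa, h5 e he rfl]
    · exact h7 j hj

/-- The numbers of edges of the iterated covers of the grid. -/
def gtow (D : ℕ) : ℕ → ℕ
  | 0 => D * D ^ D
  | s + 1 => gtow D s * 2 ^ gtow D s

/-- For all `D ≥ 1` and `s` there is an incidence structure of average degree `D` with `gtow D s` edges
in which all zones of radius `2 ^ (s + 1) - 1` are forests. -/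
theorem exists_inc_grid (D : ℕ) (hD : 1 ≤ D) (s : ℕ) :
    ∃ (P Q E : Type) (_ : Fintype P) (_ : Fintype Q) (_ : Fintype E)
    (I : Inc P Q E) (n : P → ℕ), Function.Injective n ∧ I.Fr n (2 ^ (s + 1) - 1) ∧
      Fintype.card E = gtow D s ∧ Fintype.card E = D * Fintype.card P ∧
      Fintype.card Q = Fintype.card P := by
  classical
  obtain ⟨d, rfl⟩ : ∃ d, D = d + 1 := ⟨D - 1, by omega⟩
  induction s with
  | zero =>
    obtain ⟨g, hg, hg'⟩ := exists_refine (gtime (d := d))
    refine ⟨_, _, _, inferInstance, inferInstance, inferInstance, grid d, g, hg,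
      (grid_Fr d).refine hg', ?_, ?_, ?_⟩
    · simp [gtow]
    · simp only [Fintype.card_prod, Fintype.card_fin, Fintype.card_pi, Finset.prod_const,
        Finset.card_univ]
      ring
    · simp only [Fintype.card_prod, Fintype.card_fin, Fintype.card_pi, Finset.prod_const,
        Finset.card_univ]
      ring
  | succ s ih =>
    obtain ⟨P, Q, E, fP, fQ, fE, I, n, hn, hF, h1, h2, h3⟩ := ih
    obtain ⟨rk, hrk, hmono⟩ := exists_refine (fun e => n (I.a e))
    have h4 := hF.step hn hrk hmono
    obtain ⟨g, hg, hg'⟩ := exists_refine (fun x : P × Finset E => key rk (I.cut n (2 ^ (s + 1) - 1) x))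
    have h5 : 2 * (2 ^ (s + 1) - 1) + 1 = 2 ^ (s + 1 + 1) - 1 := by
      have : 1 ≤ 2 ^ (s + 1) := Nat.one_le_two_pow
      rw [pow_succ 2 (s + 1)]; omega
    rw [h5] at h4
    refine ⟨P × Finset E, Q × Finset E, E × Finset E, inferInstance, inferInstance, inferInstance,
      I.cov, g, hg, h4.refine hg', ?_, ?_, ?_⟩
    · rw [Fintype.card_prod, Fintype.card_finset, h1, gtow]
    · rw [Fintype.card_prod, Fintype.card_prod, Fintype.card_finset, h2]
      ring
    · rw [Fintype.card_prod, Fintype.card_prod, h3]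

end Pool.Agent.MP_245544_coL
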