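import Pool.Agent.Lib.MP_245544_coL.Fam
import Pool.Agent.Lib.MP_245544_coL.Grid
import Pool.Agent.Lib.MP_245544_coL.Asy2

/-! MP_245544_co (lower bound): the family of drawings from the grids, and the lower bound
`n log^(j) n / log^(j+1) n`. -/

namespace Pool.Agent.MP_245544_coL

open Pool.Agent.MP_245544_coT Asymptotics Filter

theorem gtow_eq (D s : ℕ) : gtow D s = stepS^[s] (D * D ^ D) := by
  induction s with
  | zero => rfl
  | succ s ih => rw [Function.iterate_succ_apply', ← ih]; rfl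

/-- The family of drawings from the grids. -/
theorem exists_family_grid {s k : ℕ} (hk : k ≤ 2 ^ (s + 3)) (D : ℕ) (hD : 1 ≤ D) :
    ∃ (V : Type) (_ : Fintype V) (_ : Nonempty V) (G : SimpleGraph V)
      (Dr : Drawing G), Dr.CrossingsFar k ∧ Fintype.card V ≤ stepS^[s + 1] ((D + 1) ^ (3 * D)) ∧
        D * Fintype.card V ≤ 3 * G.edgeSet.ncard := by
  obtain ⟨P, Q, E, fP, fQ, fE, I, n, -, hF, h1, h2, h3⟩ := exists_inc_grid D hD s
  obtain ⟨G, Dr, hfar, hcard⟩ := exists_cover_drawing I (s := s + 1) hF hk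
  have hcV : Fintype.card ((P ⊕ Q) × Finset E) = 2 * Fintype.card P * 2 ^ Fintype.card E := by
    rw [Fintype.card_prod, Fintype.card_sum, Fintype.card_finset, h3, two_mul]
  have hpos : 0 < Fintype.card E := by
    rw [h1, gtow_eq]
    exact lt_of_lt_of_le (Nat.mul_pos hD (Nat.pow_pos hD)) (le_stepS_iter s _)
  have hP : 0 < Fintype.card P := by
    rcases Nat.eq_zero_or_pos (Fintype.card P) with h | h
    · rw [h2, h] at hpos; omega
    · exact h
  have hne : Nonempty ((P ⊕ Q) × Finset E) := by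
    rw [← Fintype.card_pos_iff, hcV]
    positivity
  refine ⟨_, inferInstance, hne, G, Dr, hfar, ?_, ?_⟩
  · rw [hcV]
    have h5 : Fintype.card P ≤ Fintype.card E := by
      rw [h2]; exact Nat.le_mul_of_pos_left _ hD
    have h6 : 2 * (D * D ^ D) ≤ (D + 1) ^ (3 * D) := by
      calc 2 * (D * D ^ D) ≤ (D + 1) * ((D + 1) * (D + 1) ^ D) :=
            Nat.mul_le_mul (by omega) (Nat.mul_le_mul (by omega)
              (Nat.pow_le_pow_left (by omega) D))
        _ = (D + 1) ^ (D + 2) := by ring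
        _ ≤ (D + 1) ^ (3 * D) := Nat.pow_le_pow_right (by omega) (by omega)
    calc 2 * Fintype.card P * 2 ^ Fintype.card E
        ≤ 2 * Fintype.card E * 2 ^ Fintype.card E :=
          Nat.mul_le_mul_right _ (Nat.mul_le_mul_left _ h5)
      _ = 2 * stepS (Fintype.card E) := by rw [stepS]; ring
      _ = 2 * stepS^[s + 1] (D * D ^ D) := by rw [Function.iterate_succ_apply', h1, gtow_eq]
      _ ≤ stepS^[s + 1] (2 * (D * D ^ D)) := two_stepS_iter _ _
      _ ≤ stepS^[s + 1] ((D + 1) ^ (3 * D)) := stepS_iter_mono (s + 1) h6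
  · rw [hcV, hcard, h2]
    nlinarith [Nat.zero_le (D * Fintype.card P * 2 ^ (D * Fintype.card P))]

/-- LOWER BOUND: `n log^(j) n / log^(j+1) n = O(maxEdges k n)` for `2 ≤ j` and `k ≤ 2 ^ (j + 1)`. -/
theorem lower_grid {j k : ℕ} (hj : 2 ≤ j) (hk : k ≤ 2 ^ (j + 1)) :
    (fun n : ℕ => (n : ℝ) * (Real.log^[j] (n : ℝ) / Real.log^[j + 1] (n : ℝ))) =O[atTop]
      (fun n : ℕ => (maxEdges k n : ℝ)) := by
  obtain ⟨s, rfl⟩ := Nat.exists_eq_add_of_le' hj
  exact lower_of_family_pow (C := 3) (j := s + 1) (by norm_num)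
    fun D hD => exists_family_grid (s := s) hk D hD

end Pool.Agent.MP_245544_coL
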