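import Pool.Agent.Lib.MP_245544_coL.GeoDef

/-! MP_245544_co, lower bound, geometry: where the prolongation of a strand runs, and prolongations
in the same order are disjoint. -/

namespace Pool.Agent.MP_245544_coL

open Real

theorem expI_re (x : ℝ) : (Complex.exp ((x : ℂ) * Complex.I)).re = Real.cos x :=
  Complex.exp_ofReal_mul_I_re x

theorem expI_im (x : ℝ) : (Complex.exp ((x : ℂ) * Complex.I)).im = Real.sin x :=
  Complex.exp_ofReal_mul_I_im x

theorem colf_norm (p : ℂ) (θ ψ : ℝ) {s : ℝ} (hs : 0 ≤ s) : ‖colf p θ ψ s‖ = 1 + s / 2 := by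
  rw [colf, norm_mul, Complex.norm_exp_ofReal_mul_I, mul_one, Complex.norm_real,
    Real.norm_of_nonneg (by positivity)]

theorem ang_bound (p : ℂ) (θ : ℝ) : 0 ≤ ang p θ ∧ ang p θ < 2 * π := by
  have h := toIcoMod_mem_Ico Real.two_pi_pos 0 (Complex.arg p - θ)
  rw [Set.mem_Ico, zero_add] at h
  exact h

theorem colf_zero {p : ℂ} (hp : ‖p‖ = 1) (θ ψ : ℝ) : colf p θ ψ 0 = p := by
  have h1 : θ + ang p θ = Complex.arg p - toIcoDiv Real.two_pi_pos 0 (Complex.arg p - θ) * (2 * π) := by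
    have h2 := toIcoMod_add_toIcoDiv_zsmul Real.two_pi_pos 0 (Complex.arg p - θ)
    rw [zsmul_eq_mul] at h2
    simp only [ang]
    linarith
  have h3 : colf p θ ψ 0 = Complex.exp (((Complex.arg p : ℝ) : ℂ) * Complex.I) := by
    simp only [colf, zero_div, add_zero, sub_zero, one_mul, zero_mul, Complex.ofReal_one]
    rw [h1]
    have h4 : (((Complex.arg p - toIcoDiv Real.two_pi_pos 0 (Complex.arg p - θ) * (2 * π) : ℝ) : ℂ))
        * Complex.I = (Complex.arg p : ℂ) * Complex.I +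
          ((-toIcoDiv Real.two_pi_pos 0 (Complex.arg p - θ) : ℤ) : ℂ) * (2 * π * Complex.I) := by
      push_cast; ring
    rw [h4, Complex.exp_add, Complex.exp_int_mul_two_pi_mul_I, mul_one]
  rw [h3]
  have h5 := Complex.norm_mul_exp_arg_mul_I p
  rwa [hp, Complex.ofReal_one, one_mul] at h5

theorem cp_re (ψ : ℝ) : (cp ψ).re = 3 / 2 * Real.cos ψ := by
  rw [cp, Complex.re_ofReal_mul, expI_re]

theorem cp_im (ψ : ℝ) : (cp ψ).im = 3 / 2 * Real.sin ψ := by
  rw [cp, Complex.im_ofReal_mul, expI_im]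

theorem cp_norm (ψ : ℝ) : ‖cp ψ‖ = 3 / 2 := by
  rw [cp, norm_mul, Complex.norm_exp_ofReal_mul_I, mul_one, Complex.norm_real,
    Real.norm_of_nonneg (by norm_num)]

theorem colf_one (p : ℂ) (θ ψ : ℝ) : colf p θ ψ 1 = cp ψ := by
  simp only [colf, cp]
  norm_num

/-- Points of the last segment in the case `ψ = 0`. -/
theorem seg_zero {z : ℂ} (hz : z ∈ segment ℝ (cp 0) (fin 0)) : z.im = 0 ∧ 3 / 2 ≤ z.re ∧ z.re ≤ 2 := by
  have h1 : cp 0 = ((3 / 2 : ℝ) : ℂ) := by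
    rw [cp]; simp
  have h2 : fin 0 = 2 := by rw [fin, if_pos rfl]
  rw [h1, h2] at hz
  obtain ⟨a, b, ha, hb, hab, rfl⟩ := hz
  have hb' : b = 1 - a := by linarith
  subst hb'
  refine ⟨by simp, ?_, ?_⟩
  · simp; nlinarith
  · simp; nlinarith

/-- Points of the last segment in the case `π / 2 < ψ < 3 π / 2`. -/
theorem seg_left {ψ : ℝ} (h1 : π / 2 < ψ) (h2 : ψ < 3 * π / 2) {z : ℂ}
    (hz : z ∈ segment ℝ (cp ψ) (fin ψ)) :
    z.im = 3 / 2 * Real.sin ψ ∧ z.re ≤ 3 / 2 * Real.cos ψ ∧ (fin ψ).re ≤ z.re ∧ Real.cos ψ < 0 := by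
  have hcos : Real.cos ψ < 0 := Real.cos_neg_of_pi_div_two_lt_of_lt h1 (by linarith)
  have hne : ψ ≠ 0 := by have := Real.pi_pos; intro h; linarith
  have hsq := Real.sin_sq_add_cos_sq ψ
  have hfin : fin ψ = ⟨2 - √(16 - (cp ψ).im ^ 2), (cp ψ).im⟩ := by rw [fin, if_neg hne]
  have hle : (fin ψ).re ≤ 3 / 2 * Real.cos ψ := by
    rw [hfin]
    change 2 - √(16 - (cp ψ).im ^ 2) ≤ 3 / 2 * Real.cos ψ
    have h3 : (7 / 2 : ℝ) ≤ √(16 - (cp ψ).im ^ 2) := by
      apply Real.le_sqrt_of_sq_le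
      rw [cp_im]
      nlinarith [sq_nonneg (Real.cos ψ)]
    have h4 : -1 ≤ Real.cos ψ := Real.neg_one_le_cos ψ
    linarith
  obtain ⟨a, b, ha, hb, hab, rfl⟩ := hz
  have hb' : b = 1 - a := by linarith
  subst hb'
  refine ⟨?_, ?_, ?_, hcos⟩
  · have h5 : (fin ψ).im = 3 / 2 * Real.sin ψ := by rw [hfin]; exact cp_im ψ
    simp only [Complex.add_im, Complex.real_smul, Complex.im_ofReal_mul, h5, cp_im]
    ring
  · simp only [Complex.add_re, Complex.real_smul, Complex.re_ofReal_mul, cp_re]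
    nlinarith
  · simp only [Complex.add_re, Complex.real_smul, Complex.re_ofReal_mul, cp_re]
    nlinarith

theorem seg_norm {ψ : ℝ} (h : Adm ψ) {z : ℂ} (hz : z ∈ segment ℝ (cp ψ) (fin ψ)) :
    3 / 2 < ‖z‖ ∨ z = cp ψ := by
  rcases h with rfl | ⟨h1, h2⟩
  · obtain ⟨h3, h4, h5⟩ := seg_zero hz
    have h6 : (3 : ℝ) / 2 = z.re ∨ 3 / 2 < z.re := h4.eq_or_lt
    rcases h6 with h6 | h6
    · right
      apply Complex.ext
      · rw [cp_re, Real.cos_zero]; linarith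
      · rw [cp_im, Real.sin_zero, h3]; ring
    · left
      exact h6.trans_le ((le_abs_self _).trans (Complex.abs_re_le_norm z))
  · obtain ⟨h3, h4, h5, h6⟩ := seg_left h1 h2 hz
    rcases h4.eq_or_lt with h7 | h7
    · right
      exact Complex.ext (by rw [cp_re, h7]) (by rw [cp_im, h3])
    · left
      have h8 : (3 / 2 : ℝ) ^ 2 < ‖z‖ ^ 2 := by
        rw [← Complex.normSq_eq_norm_sq, Complex.normSq_apply, h3]
        nlinarith [Real.sin_sq_add_cos_sq ψ, mul_pos_of_neg_of_neg (show Real.cos ψ < 0 from h6)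
          (show z.re - 3 / 2 * Real.cos ψ < 0 by linarith)]
      exact lt_of_pow_lt_pow_left₀ 2 (norm_nonneg _) h8

theorem ext_norm {p : ℂ} (hp : ‖p‖ = 1) (θ : ℝ) {ψ : ℝ} (h : Adm ψ) {z : ℂ} (hz : z ∈ ext p θ ψ) :
    1 < ‖z‖ ∨ z = p := by
  rcases hz with ⟨s, ⟨hs0, hs1⟩, rfl⟩ | hz
  · rcases hs0.eq_or_lt with rfl | hs0
    · exact Or.inr (colf_zero hp θ ψ)
    · left
      rw [colf_norm p θ ψ hs0.le]
      linarith
  · left
    rcases seg_norm h hz with h1 | rfl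
    · linarith
    · rw [cp_norm]; norm_num

theorem norm_sub_two_sq (z : ℂ) : ‖z - 2‖ ^ 2 = (z.re - 2) ^ 2 + z.im ^ 2 := by
  rw [← Complex.normSq_eq_norm_sq, Complex.normSq_apply]
  simp
  ring

theorem ext_disc {p : ℂ} (hp : ‖p‖ = 1) (θ : ℝ) {ψ : ℝ} (h : Adm ψ) {z : ℂ}
    (hz : z ∈ ext p θ ψ) : ‖z - 2‖ < 4 ∨ (ψ ≠ 0 ∧ z = fin ψ) := by
  rcases hz with ⟨s, ⟨hs0, hs1⟩, rfl⟩ | hz
  · left
    have h1 := norm_sub_le (colf p θ ψ s) 2
    rw [colf_norm p θ ψ hs0] at h1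
    have h2 : ‖(2 : ℂ)‖ = 2 := by simp
    linarith
  · rcases h with rfl | ⟨h1, h2⟩
    · left
      obtain ⟨h3, h4, h5⟩ := seg_zero hz
      have h6 : ‖z - 2‖ ^ 2 < 4 ^ 2 := by
        rw [norm_sub_two_sq, h3]; nlinarith
      exact lt_of_pow_lt_pow_left₀ 2 (by norm_num) h6
    · obtain ⟨h3, h4, h5, h6⟩ := seg_left h1 h2 hz
      have hne : ψ ≠ 0 := by have := Real.pi_pos; intro h; linarith
      have hfin : fin ψ = ⟨2 - √(16 - (cp ψ).im ^ 2), (cp ψ).im⟩ := by rw [fin, if_neg hne]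
      have hfr : (fin ψ).re = 2 - √(16 - (cp ψ).im ^ 2) := by rw [hfin]
      have hfi : (fin ψ).im = 3 / 2 * Real.sin ψ := by rw [hfin]; exact cp_im ψ
      rcases h5.eq_or_lt with h7 | h7
      · exact Or.inr ⟨hne, Complex.ext h7.symm (by rw [h3, hfi])⟩
      · left
        have h8 : (0 : ℝ) ≤ 16 - (cp ψ).im ^ 2 := by
          rw [cp_im]; nlinarith [Real.sin_sq_add_cos_sq ψ, sq_nonneg (Real.cos ψ)]
        have h9 := Real.sq_sqrt h8
        have h10 : ‖z - 2‖ ^ 2 < 4 ^ 2 := by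
          rw [norm_sub_two_sq, h3]
          rw [hfr] at h7
          rw [cp_im] at h7 h9
          have h11 : 0 ≤ √(16 - (3 / 2 * Real.sin ψ) ^ 2) := Real.sqrt_nonneg _
          nlinarith
        exact lt_of_pow_lt_pow_left₀ 2 (by norm_num) h10

theorem ext_side {p : ℂ} (hp : ‖p‖ = 1) (θ : ℝ) {ψ : ℝ} (h : Adm ψ) {z : ℂ}
    (hz : z ∈ ext p θ ψ) : z.re < 2 ∨ (ψ = 0 ∧ z = 2) := by
  rcases hz with ⟨s, ⟨hs0, hs1⟩, rfl⟩ | hz
  · left
    have h1 := (le_abs_self _).trans (Complex.abs_re_le_norm (colf p θ ψ s))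
    rw [colf_norm p θ ψ hs0] at h1
    linarith
  · rcases h with rfl | ⟨h1, h2⟩
    · obtain ⟨h3, h4, h5⟩ := seg_zero hz
      rcases h5.eq_or_lt with h6 | h6
      · exact Or.inr ⟨rfl, Complex.ext (by simpa using h6) (by simpa using h3)⟩
      · exact Or.inl h6
    · obtain ⟨h3, h4, h5, h6⟩ := seg_left h1 h2 hz
      left
      linarith

theorem exp_ne_of_lt {x y : ℝ} (h1 : x < y) (h2 : y < x + 2 * π) :
    Complex.exp ((x : ℂ) * Complex.I) ≠ Complex.exp ((y : ℂ) * Complex.I) := by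
  intro h
  rw [Complex.exp_eq_exp_iff_exists_int] at h
  obtain ⟨n, hn⟩ := h
  have h3 : (x : ℂ) * Complex.I = ((y + n * (2 * π) : ℝ) : ℂ) * Complex.I := by
    rw [hn]; push_cast; ring
  have h4 := mul_right_cancel₀ Complex.I_ne_zero h3
  have h5 : x = y + n * (2 * π) := by exact_mod_cast h4
  have hpi := Real.pi_pos
  have h6 : (n : ℝ) < 0 := by
    by_contra hc
    push Not at hc
    have : 0 ≤ (n : ℝ) * (2 * π) := by positivity
    linarith
  have h7 : (-1 : ℝ) < n := by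
    by_contra hc
    push Not at hc
    have : (n : ℝ) * (2 * π) ≤ -1 * (2 * π) := mul_le_mul_of_nonneg_right hc (by positivity)
    linarith
  have h8 : n < 0 := by exact_mod_cast h6
  have h9 : (-1 : ℤ) < n := by exact_mod_cast h7
  omega

theorem adm_bounds {ψ : ℝ} (h : Adm ψ) : 0 ≤ ψ ∧ ψ < 3 * π / 2 := by
  have := Real.pi_pos
  rcases h with rfl | ⟨h1, h2⟩
  · constructor <;> linarith
  · constructor <;> linarith

/-- Prolongations with the same turn and the same order of the final angles are disjoint. -/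
theorem ext_disjoint {p q : ℂ} (hp : ‖p‖ = 1) (hq : ‖q‖ = 1) (θ : ℝ) {ψ ψ' : ℝ} (h : Adm ψ)
    (h' : Adm ψ') (hang : ang p θ < ang q θ) (hψ : ψ < ψ') :
    Disjoint (ext p θ ψ) (ext q θ ψ') := by
  have hpi := Real.pi_pos
  obtain ⟨hb1, hb2⟩ := adm_bounds h
  obtain ⟨hb1', hb2'⟩ := adm_bounds h'
  obtain ⟨ha1, ha2⟩ := ang_bound p θ
  obtain ⟨ha1', ha2'⟩ := ang_bound q θ
  have hcp : cp ψ ≠ cp ψ' := by
    intro hc
    rw [cp, cp] at hc
    have h3 : ((3 / 2 : ℝ) : ℂ) ≠ 0 := by norm_num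
    exact exp_ne_of_lt hψ (by linarith) (mul_left_cancel₀ h3 hc)
  -- a collar point against a point of a segment
  have key : ∀ (p : ℂ) (ψ₁ ψ₂ : ℝ) (s : ℝ), 0 ≤ s → s ≤ 1 → Adm ψ₂ → cp ψ₁ ≠ cp ψ₂ →
      colf p θ ψ₁ s ∈ segment ℝ (cp ψ₂) (fin ψ₂) → False := by
    intro p ψ₁ ψ₂ s hs0 hs1 hA hne hmem
    have hn := colf_norm p θ ψ₁ hs0
    rcases seg_norm hA hmem with h1 | h1
    · rw [hn] at h1; linarith
    · rw [h1, cp_norm] at hn
      have hs : s = 1 := by linarith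
      rw [hs, colf_one] at h1
      exact hne h1
  rw [Set.disjoint_left]
  rintro z (⟨s, ⟨hs0, hs1⟩, rfl⟩ | hz) (⟨s', ⟨hs0', hs1'⟩, hz'⟩ | hz')
  · have hn := colf_norm p θ ψ hs0
    have hn' := colf_norm q θ ψ' hs0'
    rw [hz', hn] at hn'
    have hss : s' = s := by linarith
    subst hss
    simp only [colf] at hz'
    have h3 : ((1 + s' / 2 : ℝ) : ℂ) ≠ 0 := by
      rw [Ne, Complex.ofReal_eq_zero]; positivity
    have h4 := mul_left_cancel₀ h3 hz'
    have h5 : 0 < (1 - s') * (ang q θ - ang p θ) + s' * (ψ' - ψ) := by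
      rcases hs1.eq_or_lt with h6 | h6
      · subst h6; linarith
      · have h7 : 0 < (1 - s') * (ang q θ - ang p θ) := mul_pos (by linarith) (by linarith)
        have h8 : 0 ≤ s' * (ψ' - ψ) := mul_nonneg hs0 (by linarith)
        linarith
    have h6 : (1 - s') * (ang q θ - ang p θ) + s' * (ψ' - ψ) < 2 * π := by
      have h7 : (1 - s') * (ang q θ - ang p θ) ≤ (1 - s') * (ang q θ - ang p θ) := le_rfl
      have h8 : ang q θ - ang p θ < 2 * π := by linarith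
      have h9 : ψ' - ψ < 2 * π := by linarith
      rcases hs0.eq_or_lt with h10 | h10
      · rw [← h10]; linarith
      · have h11 : s' * (ψ' - ψ) < s' * (2 * π) := mul_lt_mul_of_pos_left h9 h10
        have h12 : (1 - s') * (ang q θ - ang p θ) ≤ (1 - s') * (2 * π) :=
          mul_le_mul_of_nonneg_left h8.le (by linarith)
        linarith
    refine exp_ne_of_lt (x := (1 - s') * (θ + ang p θ) + s' * ψ)
      (y := (1 - s') * (θ + ang q θ) + s' * ψ') (by nlinarith) (by nlinarith) h4.symm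
  · exact key p ψ ψ' s hs0 hs1 h' hcp hz'
  · rw [← hz'] at hz
    exact key q ψ' ψ s' hs0' hs1' h hcp.symm hz
  · rcases h' with rfl | ⟨h1', h2'⟩
    · linarith
    · obtain ⟨g1, g2, g3, g4⟩ := seg_left h1' h2' hz'
      rcases h with rfl | ⟨h1, h2⟩
      · obtain ⟨k1, k2, k3⟩ := seg_zero hz
        linarith
      · obtain ⟨k1, k2, k3, k4⟩ := seg_left h1 h2 hz
        have h5 : Real.sin (ψ - π) < Real.sin (ψ' - π) :=
          Real.sin_lt_sin_of_lt_of_le_pi_div_two (by linarith) (by linarith) (by linarith)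
        rw [Real.sin_sub_pi, Real.sin_sub_pi] at h5
        rw [g1] at k1
        linarith

end Pool.Agent.MP_245544_coL
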