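import Pool.Agent.Lib.MP_245544_coL.GeoB

/-! MP_245544_co, lower bound, geometry: angles, final points, the prolongation is an arc. -/

namespace Pool.Agent.MP_245544_coL

open Real

theorem ang_mem (p : ℂ) (θ : ℝ) : 0 ≤ ang p θ ∧ ang p θ < 2 * π := ang_bound p θ

theorem ang_arg (p : ℂ) : ang p (Complex.arg p) = 0 := by
  rw [ang, sub_self]
  exact toIcoMod_apply_left Real.two_pi_pos 0

theorem ang_inj {p q : ℂ} (hp : ‖p‖ = 1) (hq : ‖q‖ = 1) {θ : ℝ} (h : ang p θ = ang q θ) : p = q := by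
  rw [← colf_zero hp θ 0, ← colf_zero hq θ 0, colf, colf, h]

theorem colf_continuous (p : ℂ) (θ ψ : ℝ) : Continuous (colf p θ ψ) := by
  unfold colf
  fun_prop

theorem colf_injOn (p : ℂ) (θ ψ : ℝ) : Set.InjOn (colf p θ ψ) (Set.Icc 0 1) := by
  intro s hs s' hs' h
  have h1 := colf_norm p θ ψ hs.1
  have h2 := colf_norm p θ ψ hs'.1
  rw [h, h2] at h1
  linarith

theorem fin_zero : fin 0 = 2 := by rw [fin, if_pos rfl]

theorem fin_eq {ψ : ℝ} (h1 : π / 2 < ψ) :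
    fin ψ = ⟨2 - √(16 - (cp ψ).im ^ 2), (cp ψ).im⟩ := by
  have hne : ψ ≠ 0 := by have := Real.pi_pos; intro h; linarith
  rw [fin, if_neg hne]

theorem cp_im_sq (ψ : ℝ) : (cp ψ).im ^ 2 ≤ 9 / 4 := by
  rw [cp_im]
  nlinarith [Real.sin_sq_add_cos_sq ψ, sq_nonneg (Real.cos ψ)]

theorem fin_norm {ψ : ℝ} (h1 : π / 2 < ψ) (_h2 : ψ < 3 * π / 2) : ‖fin ψ - 2‖ = 4 := by
  have h3 := cp_im_sq ψ
  have h4 : ‖fin ψ - 2‖ ^ 2 = 4 ^ 2 := by
    rw [norm_sub_two_sq, fin_eq h1]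
    change (2 - √(16 - (cp ψ).im ^ 2) - 2) ^ 2 + (cp ψ).im ^ 2 = 4 ^ 2
    have h5 := Real.sq_sqrt (show (0 : ℝ) ≤ 16 - (cp ψ).im ^ 2 by linarith)
    nlinarith
  exact (pow_left_inj₀ (norm_nonneg _) (by norm_num) (by norm_num)).1 h4

theorem fin_re {ψ : ℝ} (h1 : π / 2 < ψ) (_h2 : ψ < 3 * π / 2) : (fin ψ).re < 0 := by
  have h3 := cp_im_sq ψ
  rw [fin_eq h1]
  change 2 - √(16 - (cp ψ).im ^ 2) < 0
  have h4 : (3 : ℝ) ≤ √(16 - (cp ψ).im ^ 2) := Real.le_sqrt_of_sq_le (by linarith)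
  linarith

theorem fin_inj {ψ ψ' : ℝ} (h1 : π / 2 < ψ) (h2 : ψ < 3 * π / 2) (h1' : π / 2 < ψ')
    (h2' : ψ' < 3 * π / 2) (h : fin ψ = fin ψ') : ψ = ψ' := by
  have h3 : (fin ψ).im = (fin ψ').im := by rw [h]
  rw [fin_eq h1, fin_eq h1'] at h3
  change (cp ψ).im = (cp ψ').im at h3
  rw [cp_im, cp_im] at h3
  have h4 : Real.sin (ψ - π) = Real.sin (ψ' - π) := by
    rw [Real.sin_sub_pi, Real.sin_sub_pi]; linarith
  have h5 := Real.injOn_sin (show ψ - π ∈ Set.Icc (-(π / 2)) (π / 2) from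
    ⟨by linarith, by linarith⟩) (show ψ' - π ∈ Set.Icc (-(π / 2)) (π / 2) from
    ⟨by linarith, by linarith⟩) h4
  linarith

theorem cp_ne_fin {ψ : ℝ} (h : Adm ψ) : cp ψ ≠ fin ψ := by
  intro hc
  rcases h with rfl | ⟨h1, h2⟩
  · have h3 := cp_norm 0
    rw [hc, fin_zero] at h3
    norm_num at h3
  · have h3 := cp_norm ψ
    have h4 := fin_norm h1 h2
    rw [← hc] at h4
    have h5 := norm_sub_le (cp ψ) 2
    rw [h4, h3] at h5
    norm_num at h5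

theorem arc_ext {p : ℂ} (hp : ‖p‖ = 1) (θ : ℝ) {ψ : ℝ} (h : Adm ψ) :
    Arc (ext p θ ψ) p (fin ψ) := by
  have h1 : Arc (colf p θ ψ '' Set.Icc 0 1) (colf p θ ψ 0) (colf p θ ψ 1) :=
    Arc.of_Icc zero_lt_one (colf_continuous p θ ψ).continuousOn (colf_injOn p θ ψ)
  rw [colf_zero hp, colf_one] at h1
  refine h1.trans (arc_segment (cp_ne_fin h)) ?_
  rintro z ⟨⟨s, ⟨hs0, hs1⟩, rfl⟩, hz⟩
  rcases seg_norm h hz with h2 | h2
  · rw [colf_norm p θ ψ hs0] at h2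
    linarith
  · exact h2

end Pool.Agent.MP_245544_coL
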