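import Pool.Agent.Lib.MP_245544_coL.Arc

/-! MP_245544_co, lower bound, geometry: definition of the prolongation of a strand from the unit
circle to the point `2` or to the circle with centre `2` and radius `4`. -/

namespace Pool.Agent.MP_245544_coL

open Real

/-- The angle of `p` after a turn by `-θ`, in `[0, 2π)`. -/
noncomputable def ang (p : ℂ) (θ : ℝ) : ℝ := toIcoMod Real.two_pi_pos 0 (Complex.arg p - θ)

/-- The point of the collar. -/
noncomputable def colf (p : ℂ) (θ ψ : ℝ) (s : ℝ) : ℂ :=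
  ((1 + s / 2 : ℝ) : ℂ) * Complex.exp ((((1 - s) * (θ + ang p θ) + s * ψ : ℝ) : ℂ) * Complex.I)

/-- The admissible final angles. -/
def Adm (ψ : ℝ) : Prop := ψ = 0 ∨ (π / 2 < ψ ∧ ψ < 3 * π / 2)

/-- The point of the circle of radius `3 / 2` with angle `ψ`. -/
noncomputable def cp (ψ : ℝ) : ℂ := ((3 / 2 : ℝ) : ℂ) * Complex.exp ((ψ : ℂ) * Complex.I)

open scoped Classical in
/-- The final point: `2` for `ψ = 0`, otherwise the point of the circle with centre `2` and radius
`4` on the left of `cp ψ`. -/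
noncomputable def fin (ψ : ℝ) : ℂ :=
  if ψ = 0 then 2 else ⟨2 - √(16 - (cp ψ).im ^ 2), (cp ψ).im⟩

/-- The prolongation of a strand. -/
noncomputable def ext (p : ℂ) (θ ψ : ℝ) : Set ℂ :=
  colf p θ ψ '' Set.Icc 0 1 ∪ segment ℝ (cp ψ) (fin ψ)

end Pool.Agent.MP_245544_coL
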