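import Pool.Agent.Lib.MP_245544_coL.Arc

/-! # MP_245544_co, lower bound: the strands of one level step

Local frame: the block lives in the closed unit disc, the collar is `1 ≤ |z| ≤ 2`, the big disc is
`|z - 5| ≤ 10`. `outS th u` is the strand of an edge which leaves the big disc, `innS th` the strand
of the edge which meets its other half in the point `5`. -/

set_option autoImplicit false

namespace Pool.Agent.MP_245544_coL

open Set Complex

/-- The angle of a strand at radius `r` in the collar. -/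
noncomputable def ang (th u h r : ℝ) : ℝ := (2 - r) * (th + u) + (r - 1) * h

/-- The part of a strand in the collar. -/
noncomputable def col (th u h : ℝ) : Set ℂ :=
  (fun r : ℝ => (r : ℂ) * exp (ang th u h r * I)) '' Icc 1 2

/-- The angle at which a strand leaves the collar. -/
noncomputable def hu (u : ℝ) : ℝ := 2 * Real.pi / 3 + u / 3

/-- The real part of the end point of a strand. -/
noncomputable def endX (h : ℝ) : ℝ := 5 - Real.sqrt (100 - 4 * Real.sin h ^ 2)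

/-- The horizontal part of a strand. -/
noncomputable def ray (h : ℝ) : Set ℂ :=
  (fun x : ℝ => (x : ℂ) + ((2 * Real.sin h : ℝ) : ℂ) * I) '' Icc (endX h) (2 * Real.cos h)

/-- The end point of a strand on the big circle. -/
noncomputable def endP (u : ℝ) : ℂ :=
  ((endX (hu u) : ℝ) : ℂ) + ((2 * Real.sin (hu u) : ℝ) : ℂ) * I

/-- The strand of an edge which leaves the big disc. -/
noncomputable def outS (th u : ℝ) : Set ℂ := col th u (hu u) ∪ ray (hu u)

/-- The strand of an inner edge. -/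
noncomputable def innS (th : ℝ) : Set ℂ := col th 0 0 ∪ (fun x : ℝ => (x : ℂ)) '' Icc 2 5

theorem exp_inj {a b : ℝ} (h : exp (a * I) = exp (b * I)) (h1 : a - b < 2 * Real.pi)
    (h2 : b - a < 2 * Real.pi) : a = b := by
  rw [exp_eq_exp_iff_exists_int] at h
  obtain ⟨n, hn⟩ := h
  have hn' : a = b + n * (2 * Real.pi) := by
    have h3 : (a : ℂ) * I = ((b + n * (2 * Real.pi) : ℝ) : ℂ) * I := by
      rw [hn]
      push_cast
      ring
    exact_mod_cast mul_right_cancel₀ I_ne_zero h3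
  have hp := Real.pi_pos
  have h4 : (n : ℝ) < 1 := by
    by_contra hc
    push Not at hc
    nlinarith
  have h5 : (-1 : ℝ) < n := by
    by_contra hc
    push Not at hc
    nlinarith
  have h6 : n = 0 := by
    have h7 : n < 1 := by exact_mod_cast h4
    have h8 : -1 < n := by exact_mod_cast h5
    omega
  rw [hn', h6]
  simp

theorem norm_pol {r : ℝ} (hr : 0 ≤ r) (a : ℝ) : ‖(r : ℂ) * exp (a * I)‖ = r := by
  rw [norm_mul, norm_exp_ofReal_mul_I, mul_one, norm_real, Real.norm_eq_abs, abs_of_nonneg hr]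

theorem mem_col {th u h : ℝ} {z : ℂ} (hz : z ∈ col th u h) :
    1 ≤ ‖z‖ ∧ ‖z‖ ≤ 2 ∧ z = (‖z‖ : ℂ) * exp (ang th u h ‖z‖ * I) := by
  obtain ⟨r, hr, rfl⟩ := hz
  have h1 : ‖(r : ℂ) * exp (ang th u h r * I)‖ = r := norm_pol (by linarith [hr.1]) _
  simp only [h1]
  exact ⟨hr.1, hr.2, trivial⟩

theorem re_pol (r a : ℝ) : ((r : ℂ) * exp (a * I)).re = r * Real.cos a := by
  rw [re_ofReal_mul, exp_ofReal_mul_I_re]

theorem im_pol (r a : ℝ) : ((r : ℂ) * exp (a * I)).im = r * Real.sin a := by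
  rw [im_ofReal_mul, exp_ofReal_mul_I_im]

theorem re_xy (x y : ℝ) : ((x : ℂ) + (y : ℂ) * I).re = x := by simp

theorem im_xy (x y : ℝ) : ((x : ℂ) + (y : ℂ) * I).im = y := by simp

theorem hu_mem {u : ℝ} (h0 : 0 ≤ u) (h1 : u < 2 * Real.pi) :
    2 * Real.pi / 3 ≤ hu u ∧ hu u < 4 * Real.pi / 3 := by
  unfold hu
  constructor
  · linarith
  · linarith

theorem cos_hu {h : ℝ} (h0 : 2 * Real.pi / 3 ≤ h) (h1 : h < 4 * Real.pi / 3) :
    Real.cos h ≤ -1 / 2 := by
  have hp := Real.pi_pos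
  have e : Real.cos h = -Real.cos (h - Real.pi) := by rw [Real.cos_sub_pi, neg_neg]
  have h2 : Real.cos (Real.pi / 3) ≤ Real.cos |h - Real.pi| := by
    refine Real.cos_le_cos_of_nonneg_of_le_pi (abs_nonneg _) (by linarith) ?_
    rw [abs_le]
    constructor
    · linarith
    · linarith
  rw [Real.cos_abs, Real.cos_pi_div_three] at h2
  rw [e]
  linarith

theorem sin_inj {h h' : ℝ} (h0 : 2 * Real.pi / 3 ≤ h) (h1 : h < 4 * Real.pi / 3)
    (h0' : 2 * Real.pi / 3 ≤ h') (h1' : h' < 4 * Real.pi / 3) (e : Real.sin h = Real.sin h') :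
    h = h' := by
  have hp := Real.pi_pos
  have e2 : Real.sin (h - Real.pi) = Real.sin (h' - Real.pi) := by
    rw [Real.sin_sub_pi, Real.sin_sub_pi, e]
  have e3 := Real.injOn_sin (by constructor <;> linarith) (by constructor <;> linarith) e2
  linarith

theorem sqrt_lower (h : ℝ) : 9 ≤ Real.sqrt (100 - 4 * Real.sin h ^ 2) := by
  apply Real.le_sqrt_of_sq_le
  have := Real.sin_sq_le_one h
  nlinarith

theorem endX_le (h : ℝ) : endX h ≤ -4 := by
  have := sqrt_lower h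
  unfold endX
  linarith

theorem endX_lt_cos (h : ℝ) : endX h < 2 * Real.cos h := by
  have h1 := endX_le h
  have h2 := Real.neg_one_le_cos h
  linarith

/-- The description of the horizontal part. -/
theorem mem_ray {h : ℝ} {z : ℂ} :
    z ∈ ray h ↔ z.im = 2 * Real.sin h ∧ endX h ≤ z.re ∧ z.re ≤ 2 * Real.cos h := by
  constructor
  · rintro ⟨x, hx, rfl⟩
    simp only [re_xy, im_xy]
    exact ⟨trivial, hx.1, hx.2⟩
  · rintro ⟨h1, h2, h3⟩
    refine ⟨z.re, ⟨h2, h3⟩, ?_⟩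
    apply Complex.ext
    · simp only [re_xy]
    · simp only [im_xy, h1]

theorem arc_ray (h : ℝ) : Arc (ray h) ((2 : ℝ) * exp (h * I))
    (((endX h : ℝ) : ℂ) + ((2 * Real.sin h : ℝ) : ℂ) * I) := by
  refine Arc.symm (Arc.of_path (f := fun x : ℝ => (x : ℂ) + ((2 * Real.sin h : ℝ) : ℂ) * I)
    (endX_lt_cos h) ?_ ?_ rfl ?_ rfl)
  · exact Continuous.continuousOn (by fun_prop)
  · intro x _ y _ hxy
    exact_mod_cast add_right_cancel hxy
  · apply Complex.ext
    · rw [re_pol]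
      simp only [re_xy]
    · rw [im_pol]
      simp only [im_xy]

theorem norm_ray {h : ℝ} (h0 : 2 * Real.pi / 3 ≤ h) (h1 : h < 4 * Real.pi / 3) {z : ℂ}
    (hz : z ∈ ray h) : 2 ≤ ‖z‖ ∧ (‖z‖ ≤ 2 → z = (2 : ℝ) * exp (h * I)) := by
  obtain ⟨hi, _, hr⟩ := mem_ray.mp hz
  have hc := cos_hu h0 h1
  have hs := Real.sin_sq_add_cos_sq h
  have hn : ‖z‖ ^ 2 = z.re ^ 2 + z.im ^ 2 := by
    rw [Complex.sq_norm, normSq_apply]
    ring
  have hsq : 4 * Real.cos h ^ 2 ≤ z.re ^ 2 := by nlinarith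
  constructor
  · have h4 : (4 : ℝ) ≤ ‖z‖ ^ 2 := by
      rw [hn, hi]
      nlinarith
    nlinarith [norm_nonneg z]
  · intro hle
    have h4 : ‖z‖ ^ 2 ≤ 4 := by nlinarith [norm_nonneg z]
    rw [hn, hi] at h4
    have h5 : z.re ^ 2 ≤ 4 * Real.cos h ^ 2 := by nlinarith
    have h6 : z.re = 2 * Real.cos h := by nlinarith
    apply Complex.ext
    · rw [re_pol, h6]
    · rw [im_pol, hi]

theorem arc_col (th u h : ℝ) : Arc (col th u h) (exp ((th + u : ℝ) * I)) ((2 : ℝ) * exp (h * I)) := by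
  have h1 : ContinuousOn (ang th u h) (Icc 1 2) := by
    unfold ang
    exact Continuous.continuousOn (by fun_prop)
  have h2 := arc_polar one_pos one_lt_two h1
  have e1 : ang th u h 1 = th + u := by
    unfold ang
    ring
  have e2 : ang th u h 2 = h := by
    unfold ang
    ring
  rw [e1, e2] at h2
  have e3 : ((1 : ℝ) : ℂ) * exp ((th + u : ℝ) * I) = exp ((th + u : ℝ) * I) := by
    rw [ofReal_one, one_mul]
  rw [e3] at h2
  exact h2

theorem arc_out {th u : ℝ} (h0 : 0 ≤ u) (h1 : u < 2 * Real.pi) :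
    Arc (outS th u) (exp ((th + u : ℝ) * I)) (endP u) := by
  obtain ⟨h2, h3⟩ := hu_mem h0 h1
  refine (arc_col th u (hu u)).trans (arc_ray (hu u)) ?_
  rintro z ⟨hz1, hz2⟩
  exact (norm_ray h2 h3 hz2).2 (mem_col hz1).2.1

theorem arc_real {a b : ℝ} (h : a < b) : Arc ((fun x : ℝ => (x : ℂ)) '' Icc a b) a b := by
  refine Arc.of_Icc (f := fun x : ℝ => (x : ℂ)) h continuous_ofReal.continuousOn ?_
  exact ofReal_injective.injOn

theorem arc_inn (th : ℝ) : Arc (innS th) (exp (th * I)) 5 := by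
  have h1 := arc_col th 0 0
  have h2 : Arc ((fun x : ℝ => (x : ℂ)) '' Icc 2 5) ((2 : ℝ) : ℂ) ((5 : ℝ) : ℂ) :=
    arc_real (by norm_num)
  have e1 : ((2 : ℝ) : ℂ) * exp ((0 : ℝ) * I) = ((2 : ℝ) : ℂ) := by simp
  rw [e1, add_zero] at h1
  have h3 := h1.trans h2 ?_
  · simpa [innS] using h3
  · rintro z ⟨hz1, x, hx, rfl⟩
    have h4 := (mem_col hz1).2.1
    rw [norm_real, Real.norm_eq_abs, abs_of_nonneg (by linarith [hx.1])] at h4
    have h5 : x = 2 := le_antisymm h4 hx.1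
    rw [h5]
    rfl

theorem col_disc {th u h : ℝ} {z : ℂ} (hz : z ∈ col th u h) (hn : ‖z‖ ≤ 1) :
    z = exp ((th + u : ℝ) * I) := by
  obtain ⟨h1, _, h3⟩ := mem_col hz
  have h4 : ‖z‖ = 1 := le_antisymm hn h1
  rw [h4] at h3
  rw [h3]
  unfold ang
  norm_num

theorem out_disc {th u : ℝ} (h0 : 0 ≤ u) (h1 : u < 2 * Real.pi) {z : ℂ} (hz : z ∈ outS th u) :
    1 ≤ ‖z‖ ∧ (‖z‖ ≤ 1 → z = exp ((th + u : ℝ) * I)) := by
  obtain ⟨h2, h3⟩ := hu_mem h0 h1
  rcases hz with hz | hz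
  · exact ⟨(mem_col hz).1, col_disc hz⟩
  · have h4 := (norm_ray h2 h3 hz).1
    exact ⟨by linarith, fun h => by linarith⟩

theorem inn_disc {th : ℝ} {z : ℂ} (hz : z ∈ innS th) :
    1 ≤ ‖z‖ ∧ (‖z‖ ≤ 1 → z = exp (th * I)) := by
  rcases hz with hz | hz
  · refine ⟨(mem_col hz).1, fun h => ?_⟩
    have := col_disc hz h
    rwa [add_zero] at this
  · obtain ⟨x, hx, rfl⟩ := hz
    have h4 : ‖(x : ℂ)‖ = x := by
      rw [norm_real, Real.norm_eq_abs, abs_of_nonneg (by linarith [hx.1])]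
    simp only [h4]
    exact ⟨by linarith [hx.1], fun h => by linarith [hx.1]⟩

theorem col_big {th u h : ℝ} {z : ℂ} (hz : z ∈ col th u h) : ‖z - 5‖ < 10 ∧ z.re ≤ 2 := by
  obtain ⟨_, h2, _⟩ := mem_col hz
  constructor
  · have : ‖z - 5‖ ≤ ‖z‖ + ‖(5 : ℂ)‖ := norm_sub_le _ _
    have h5 : ‖(5 : ℂ)‖ = 5 := by norm_num
    rw [h5] at this
    linarith
  · exact (re_le_norm z).trans h2

theorem ray_big {h : ℝ} (h0 : 2 * Real.pi / 3 ≤ h) (h1 : h < 4 * Real.pi / 3) {z : ℂ}
    (hz : z ∈ ray h) : ‖z - 5‖ ≤ 10 ∧ z.re < 0 ∧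
      (10 ≤ ‖z - 5‖ → z = ((endX h : ℝ) : ℂ) + ((2 * Real.sin h : ℝ) : ℂ) * I) := by
  obtain ⟨hi, hl, hr⟩ := mem_ray.mp hz
  have hc := cos_hu h0 h1
  have hn : ‖z - 5‖ ^ 2 = (5 - z.re) ^ 2 + z.im ^ 2 := by
    rw [Complex.sq_norm, normSq_apply]
    simp
    ring
  have hS : Real.sqrt (100 - 4 * Real.sin h ^ 2) ^ 2 = 100 - 4 * Real.sin h ^ 2 := by
    apply Real.sq_sqrt
    have := Real.sin_sq_le_one h
    nlinarith
  have hS0 := sqrt_lower h
  have hle : 5 - z.re ≤ Real.sqrt (100 - 4 * Real.sin h ^ 2) := by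
    unfold endX at hl
    linarith
  have hpos : 0 < 5 - z.re := by linarith
  refine ⟨?_, by linarith, ?_⟩
  · have : ‖z - 5‖ ^ 2 ≤ 100 := by
      rw [hn, hi]
      nlinarith
    nlinarith [norm_nonneg (z - 5)]
  · intro hge
    have h4 : 100 ≤ ‖z - 5‖ ^ 2 := by nlinarith
    rw [hn, hi] at h4
    have h5 : Real.sqrt (100 - 4 * Real.sin h ^ 2) ≤ 5 - z.re := by nlinarith
    apply Complex.ext
    · simp only [re_xy]
      unfold endX
      linarith
    · simp only [im_xy, hi]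

theorem out_big {th u : ℝ} (h0 : 0 ≤ u) (h1 : u < 2 * Real.pi) {z : ℂ} (hz : z ∈ outS th u) :
    ‖z - 5‖ ≤ 10 ∧ z.re < 5 ∧ (10 ≤ ‖z - 5‖ → z = endP u) := by
  obtain ⟨h2, h3⟩ := hu_mem h0 h1
  rcases hz with hz | hz
  · have h4 := col_big hz
    exact ⟨h4.1.le, by linarith [h4.2], fun h => by linarith [h4.1]⟩
  · obtain ⟨h4, h5, h6⟩ := ray_big h2 h3 hz
    exact ⟨h4, by linarith, h6⟩

theorem inn_big {th : ℝ} {z : ℂ} (hz : z ∈ innS th) :
    ‖z - 5‖ < 10 ∧ z.re ≤ 5 ∧ (5 ≤ z.re → z = 5) := by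
  rcases hz with hz | hz
  · have h4 := col_big hz
    exact ⟨h4.1, by linarith [h4.2], fun h => by linarith [h4.2]⟩
  · obtain ⟨x, hx, rfl⟩ := hz
    have h4 : ‖(x : ℂ) - 5‖ = |x - 5| := by
      rw [← Real.norm_eq_abs, ← norm_real]
      push_cast
      rfl
    simp only [ofReal_re]
    refine ⟨?_, hx.2, fun h => ?_⟩
    · rw [h4, abs_lt]
      constructor
      · linarith [hx.1]
      · linarith [hx.2]
    · have : x = 5 := le_antisymm hx.2 h
      rw [this]
      norm_num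

theorem norm_endP {u : ℝ} : ‖endP u - 5‖ = 10 := by
  have hn : ‖endP u - 5‖ ^ 2 = (5 - endX (hu u)) ^ 2 + (2 * Real.sin (hu u)) ^ 2 := by
    have e1 : (endP u - 5).re = endX (hu u) - 5 := by
      unfold endP
      rw [sub_re, re_xy]
      simp
    have e2 : (endP u - 5).im = 2 * Real.sin (hu u) := by
      unfold endP
      rw [sub_im, im_xy]
      simp
    rw [Complex.sq_norm, normSq_apply, e1, e2]
    ring
  have hS : Real.sqrt (100 - 4 * Real.sin (hu u) ^ 2) ^ 2 = 100 - 4 * Real.sin (hu u) ^ 2 := by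
    apply Real.sq_sqrt
    have := Real.sin_sq_le_one (hu u)
    nlinarith
  have h2 : ‖endP u - 5‖ ^ 2 = 10 ^ 2 := by
    rw [hn]
    unfold endX
    nlinarith
  exact (pow_left_inj₀ (norm_nonneg _) (by norm_num) two_ne_zero).mp h2

/-- Two strands of the collar with the same reference angle. -/
theorem col_disj {th u u' h h' : ℝ} (hu1 : u < u') (hu2 : u' - u < 2 * Real.pi) (hh1 : h < h')
    (hh2 : h' - h < 2 * Real.pi) : Disjoint (col th u h) (col th u' h') := by
  rw [Set.disjoint_left]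
  intro z hz hz'
  obtain ⟨h1, h2, h3⟩ := mem_col hz
  obtain ⟨_, _, h6⟩ := mem_col hz'
  have hz0 : (‖z‖ : ℂ) ≠ 0 := by
    have : ‖z‖ ≠ 0 := by linarith
    exact_mod_cast this
  have h7 : exp (ang th u h ‖z‖ * I) = exp (ang th u' h' ‖z‖ * I) :=
    mul_left_cancel₀ hz0 (h3.symm.trans h6)
  have h8 : ang th u' h' ‖z‖ - ang th u h ‖z‖ = (2 - ‖z‖) * (u' - u) + (‖z‖ - 1) * (h' - h) := by
    unfold ang
    ring
  have hp := Real.pi_pos
  have h9 : 0 < ang th u' h' ‖z‖ - ang th u h ‖z‖ := by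
    rw [h8]
    rcases h2.eq_or_lt with h2 | h2
    · rw [h2]
      nlinarith
    · have : 0 < (2 - ‖z‖) * (u' - u) := mul_pos (by linarith) (by linarith)
      have : 0 ≤ (‖z‖ - 1) * (h' - h) := mul_nonneg (by linarith) (by linarith)
      linarith
  have h10 : ang th u' h' ‖z‖ - ang th u h ‖z‖ < 2 * Real.pi := by
    rw [h8]
    have a1 : (2 - ‖z‖) * (u' - u) ≤ (2 - ‖z‖) * (2 * Real.pi) :=
      mul_le_mul_of_nonneg_left hu2.le (by linarith)
    rcases h1.eq_or_lt with h1 | h1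
    · rw [← h1]
      nlinarith
    · have a2 : (‖z‖ - 1) * (h' - h) < (‖z‖ - 1) * (2 * Real.pi) :=
        mul_lt_mul_of_pos_left hh2 (by linarith)
      nlinarith
  have h11 := exp_inj h7 (by linarith) h10
  linarith

/-- A point of the collar and of a horizontal part. -/
theorem col_ray {th u h h' : ℝ} (h0 : 2 * Real.pi / 3 ≤ h') (h1 : h' < 4 * Real.pi / 3) {z : ℂ}
    (hz : z ∈ col th u h) (hz' : z ∈ ray h') : exp (h * I) = exp (h' * I) := by
  obtain ⟨_, h2, h3⟩ := mem_col hz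
  obtain ⟨h4, h5⟩ := norm_ray h0 h1 hz'
  have h6 : ‖z‖ = 2 := le_antisymm h2 h4
  have h7 := h5 h2
  rw [h6] at h3
  have e : ang th u h 2 = h := by
    unfold ang
    ring
  rw [e] at h3
  have h8 : ((2 : ℝ) : ℂ) * exp (h * I) = ((2 : ℝ) : ℂ) * exp (h' * I) := h3.symm.trans h7
  exact mul_left_cancel₀ (by norm_num) h8

theorem out_disj_lt {th u u' : ℝ} (h0 : 0 ≤ u) (huu : u < u') (h1 : u' < 2 * Real.pi) :
    Disjoint (outS th u) (outS th u') := by
  obtain ⟨a1, a2⟩ := hu_mem h0 (huu.trans h1)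
  obtain ⟨b1, b2⟩ := hu_mem (h0.trans huu.le) h1
  have hh : hu u < hu u' := by
    unfold hu
    linarith
  have hp := Real.pi_pos
  have hh2 : hu u' - hu u < 2 * Real.pi := by linarith
  rw [Set.disjoint_left]
  rintro z (hz | hz) (hz' | hz')
  · exact Set.disjoint_left.mp (col_disj huu (by linarith) hh hh2) hz hz'
  · have := exp_inj (col_ray b1 b2 hz hz') (by linarith) (by linarith)
    linarith
  · have := exp_inj (col_ray a1 a2 hz' hz) (by linarith) (by linarith)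
    linarith
  · have e1 := (mem_ray.mp hz).1
    have e2 := (mem_ray.mp hz').1
    have := sin_inj a1 a2 b1 b2 (by linarith)
    linarith

/-- Strands of two different edges of one class are disjoint. -/
theorem out_disj {th u u' : ℝ} (h0 : 0 ≤ u) (h1 : u < 2 * Real.pi) (h0' : 0 ≤ u')
    (h1' : u' < 2 * Real.pi) (huu : u ≠ u') : Disjoint (outS th u) (outS th u') := by
  rcases lt_or_gt_of_ne huu with h | h
  · exact out_disj_lt h0 h h1'
  · exact (out_disj_lt h0' h h1).symm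

/-- The inner strand of a class and the other strands are disjoint. -/
theorem inn_disj {th u : ℝ} (h0 : 0 < u) (h1 : u < 2 * Real.pi) :
    Disjoint (innS th) (outS th u) := by
  obtain ⟨a1, a2⟩ := hu_mem h0.le h1
  have hp := Real.pi_pos
  rw [Set.disjoint_left]
  rintro z (hz | hz) (hz' | hz')
  · exact Set.disjoint_left.mp (col_disj h0 (by linarith) (by linarith) (by linarith)) hz hz'
  · have := exp_inj (col_ray a1 a2 hz hz') (by linarith) (by linarith)
    linarith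
  · obtain ⟨x, hx, rfl⟩ := hz
    obtain ⟨_, h2, h3⟩ := mem_col hz'
    have e : ‖(x : ℂ)‖ = x := by
      rw [norm_real, Real.norm_eq_abs, abs_of_nonneg (by linarith [hx.1])]
    rw [e] at h2 h3
    have hx2 : x = 2 := le_antisymm h2 hx.1
    have e2 : ang th u (hu u) x = hu u := by
      rw [hx2]
      unfold ang
      ring
    rw [e2] at h3
    have hx0 : (x : ℂ) ≠ 0 := by
      have : x ≠ 0 := by linarith
      exact_mod_cast this
    have h4 : exp ((0 : ℝ) * I) = exp ((hu u : ℝ) * I) := by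
      have : (x : ℂ) * 1 = (x : ℂ) * exp ((hu u : ℝ) * I) := by
        rw [mul_one]
        exact h3
      have := mul_left_cancel₀ hx0 this
      rw [← this]
      simp
    have := exp_inj h4 (by linarith) (by linarith)
    linarith
  · obtain ⟨x, hx, rfl⟩ := hz
    obtain ⟨_, _, h3⟩ := mem_ray.mp hz'
    have := cos_hu a1 a2
    rw [ofReal_re] at h3
    linarith [hx.1]

/-- Every direction has an angle relative to the reference angle `th`. -/
theorem exists_rel (th : ℝ) {z : ℂ} (hz : ‖z‖ = 1) :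
    ∃ u : ℝ, 0 ≤ u ∧ u < 2 * Real.pi ∧ z = exp ((th + u : ℝ) * I) := by
  have h1 := norm_mul_exp_arg_mul_I z
  rw [hz, ofReal_one, one_mul] at h1
  refine ⟨toIcoMod Real.two_pi_pos 0 (arg z - th), ?_, ?_, ?_⟩
  · exact (toIcoMod_mem_Ico Real.two_pi_pos 0 _).1
  · have := (toIcoMod_mem_Ico Real.two_pi_pos 0 (arg z - th)).2
    linarith
  · rw [← h1, exp_eq_exp_iff_exists_int]
    refine ⟨toIcoDiv Real.two_pi_pos 0 (arg z - th), ?_⟩
    rw [h1]
    have h2 := toIcoMod_add_toIcoDiv_zsmul Real.two_pi_pos 0 (arg z - th)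
    have h3 : arg z = th + toIcoMod Real.two_pi_pos 0 (arg z - th)
        + toIcoDiv Real.two_pi_pos 0 (arg z - th) * (2 * Real.pi) := by
      rw [zsmul_eq_mul] at h2
      linarith
    have h4 : (arg z : ℂ) = ((th + toIcoMod Real.two_pi_pos 0 (arg z - th)
        + toIcoDiv Real.two_pi_pos 0 (arg z - th) * (2 * Real.pi) : ℝ) : ℂ) := by
      exact_mod_cast congrArg (fun x : ℝ => (x : ℂ)) h3
    rw [h4]
    push_cast
    ring

end Pool.Agent.MP_245544_coL
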