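import Mathlib

/-! MP_245544_co (lower bound): incidence structures, forests (`Leaf`), zones and covers. -/

namespace Pool.Agent.MP_245544_coL

/-- A bipartite incidence structure: every `e : E` joins the point `a e` and the line `b e`. -/
structure Inc (P Q E : Type) where
  a : E → P
  b : E → Q

variable {P Q E : Type}

/-- `Z` is a forest: every nonempty finite subset has an end vertex that lies on only one of its edges. -/
def Inc.Leaf (I : Inc P Q E) (Z : Set E) : Prop :=
  ∀ S : Finset E, S.Nonempty → (∀ e ∈ S, e ∈ Z) →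
    (∃ e ∈ S, ∀ e' ∈ S, I.a e' = I.a e → e' = e) ∨ (∃ e ∈ S, ∀ e' ∈ S, I.b e' = I.b e → e' = e)

theorem Inc.Leaf.mono {I : Inc P Q E} {Z Z' : Set E} (h : I.Leaf Z') (hZ : Z ⊆ Z') : I.Leaf Z :=
  fun S hS hSZ => h S hS fun e he => hZ (hSZ e he)

theorem Inc.Leaf.ne_aux {I : Inc P Q E} {Z : Set E} (h : I.Leaf Z) :
    ∀ (m : ℕ) (S : Finset E), S.card = m → S.Nonempty → (∀ e ∈ S, e ∈ Z) →
      (∀ p : P, (∃ e ∈ S, I.a e ≠ p ∧ ∀ e' ∈ S, I.a e' = I.a e → e' = e) ∨
        (∃ e ∈ S, ∀ e' ∈ S, I.b e' = I.b e → e' = e)) ∧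
      (∀ q : Q, (∃ e ∈ S, ∀ e' ∈ S, I.a e' = I.a e → e' = e) ∨
        (∃ e ∈ S, I.b e ≠ q ∧ ∀ e' ∈ S, I.b e' = I.b e → e' = e)) := by
  classical
  intro m
  induction m with
  | zero =>
    intro S hc hS
    rw [Finset.card_eq_zero] at hc
    exact absurd hS (by simp [hc])
  | succ m ih =>
    intro S hc hS hSZ
    refine ⟨fun p => ?_, fun q => ?_⟩
    · rcases h S hS hSZ with ⟨e, he, hu⟩ | hb
      · by_cases hp : I.a e = p
        · by_cases hne : (S.erase e).Nonempty
          · have hc' : (S.erase e).card = m := by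
              rw [Finset.card_erase_of_mem he, hc]; rfl
            have hZ' : ∀ x ∈ S.erase e, x ∈ Z := fun x hx => hSZ x (Finset.mem_of_mem_erase hx)
            rcases (ih _ hc' hne hZ').2 (I.b e) with ⟨e1, he1, hu1⟩ | ⟨e1, he1, hne1, hu1⟩
            · have hm := Finset.mem_erase.1 he1
              have hpe : I.a e1 ≠ p := fun hh => hm.1 (hu e1 hm.2 (hh.trans hp.symm))
              refine Or.inl ⟨e1, hm.2, hpe, fun e' he' haa => ?_⟩
              refine hu1 e' (Finset.mem_erase.2 ⟨fun hh => hpe ?_, he'⟩) haa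
              rw [← haa, hh, hp]
            · have hm := Finset.mem_erase.1 he1
              refine Or.inr ⟨e1, hm.2, fun e' he' hbb => ?_⟩
              refine hu1 e' (Finset.mem_erase.2 ⟨fun hh => hne1 ?_, he'⟩) hbb
              rw [← hbb, hh]
          · rw [Finset.not_nonempty_iff_eq_empty] at hne
            refine Or.inr ⟨e, he, fun e' he' _ => ?_⟩
            by_contra hh
            have : e' ∈ S.erase e := Finset.mem_erase.2 ⟨hh, he'⟩
            rw [hne] at this
            exact absurd this (Finset.notMem_empty _)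
        · exact Or.inl ⟨e, he, hp, hu⟩
      · exact Or.inr hb
    · rcases h S hS hSZ with ha | ⟨e, he, hu⟩
      · exact Or.inl ha
      · by_cases hq : I.b e = q
        · by_cases hne : (S.erase e).Nonempty
          · have hc' : (S.erase e).card = m := by
              rw [Finset.card_erase_of_mem he, hc]; rfl
            have hZ' : ∀ x ∈ S.erase e, x ∈ Z := fun x hx => hSZ x (Finset.mem_of_mem_erase hx)
            rcases (ih _ hc' hne hZ').1 (I.a e) with ⟨e1, he1, hne1, hu1⟩ | ⟨e1, he1, hu1⟩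
            · have hm := Finset.mem_erase.1 he1
              refine Or.inl ⟨e1, hm.2, fun e' he' haa => ?_⟩
              refine hu1 e' (Finset.mem_erase.2 ⟨fun hh => hne1 ?_, he'⟩) haa
              rw [← haa, hh]
            · have hm := Finset.mem_erase.1 he1
              have hqe : I.b e1 ≠ q := fun hh => hm.1 (hu e1 hm.2 (hh.trans hq.symm))
              refine Or.inr ⟨e1, hm.2, hqe, fun e' he' hbb => ?_⟩
              refine hu1 e' (Finset.mem_erase.2 ⟨fun hh => hqe ?_, he'⟩) hbb
              rw [← hbb, hh, hq]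
          · rw [Finset.not_nonempty_iff_eq_empty] at hne
            refine Or.inl ⟨e, he, fun e' he' _ => ?_⟩
            by_contra hh
            have : e' ∈ S.erase e := Finset.mem_erase.2 ⟨hh, he'⟩
            rw [hne] at this
            exact absurd this (Finset.notMem_empty _)
        · exact Or.inr ⟨e, he, hq, hu⟩

/-- A finite forest with an edge has a leaf different from the point `p`. -/
theorem Inc.Leaf.ne {I : Inc P Q E} {Z : Set E} (h : I.Leaf Z) (S : Finset E) (hS : S.Nonempty)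
    (hSZ : ∀ e ∈ S, e ∈ Z) (p : P) :
    (∃ e ∈ S, I.a e ≠ p ∧ ∀ e' ∈ S, I.a e' = I.a e → e' = e) ∨
      (∃ e ∈ S, ∀ e' ∈ S, I.b e' = I.b e → e' = e) :=
  (h.ne_aux S.card S rfl hS hSZ).1 p

/-- `p'` is reached from `p` by at most `r` double steps. -/
def Inc.Near (I : Inc P Q E) : ℕ → P → P → Prop
  | 0, p, p' => p = p'
  | r + 1, p, p' => p = p' ∨ ∃ e e' : E, I.a e = p ∧ I.b e = I.b e' ∧ I.Near r (I.a e') p'

theorem Inc.Near.refl (I : Inc P Q E) (r : ℕ) (p : P) : I.Near r p p := by
  cases r with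
  | zero => exact rfl
  | succ r => exact Or.inl rfl

theorem Inc.Near.succ {I : Inc P Q E} {r : ℕ} : ∀ {p p' : P}, I.Near r p p' → I.Near (r + 1) p p' := by
  induction r with
  | zero => intro p p' h; exact Or.inl h
  | succ r ih =>
    intro p p' h
    rcases h with h | ⟨e, e', h1, h2, h3⟩
    · exact Or.inl h
    · exact Or.inr ⟨e, e', h1, h2, ih h3⟩

theorem Inc.Near.mono {I : Inc P Q E} {r s : ℕ} (hrs : r ≤ s) {p p' : P} (h : I.Near r p p') :
    I.Near s p p' := by
  induction hrs with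
  | refl => exact h
  | step _ ih => exact ih.succ

/-- The level `m` is reached from `p` by at most `r` double steps. -/
def Inc.Up (I : Inc P Q E) (n : P → ℕ) (r : ℕ) (p : P) (m : ℕ) : Prop :=
  ∃ p', I.Near r p p' ∧ m ≤ n p'

/-- The zone of radius `r` at the time `τ`. -/
def Inc.Zone {T : Type} [LinearOrder T] (I : Inc P Q E) (n : P → T) (r : ℕ) (τ : T) : Set E :=
  {e | n (I.a e) ≤ τ ∧ ∃ p', I.Near r (I.a e) p' ∧ τ ≤ n p'}

/-- All zones of radius `r` are forests. -/
def Inc.Fr {T : Type} [LinearOrder T] (I : Inc P Q E) (n : P → T) (r : ℕ) : Prop :=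
  ∀ τ, I.Leaf (I.Zone n r τ)

theorem Inc.Fr.mono {T : Type} [LinearOrder T] {I : Inc P Q E} {n : P → T} {r s : ℕ} (hrs : r ≤ s)
    (h : I.Fr n s) : I.Fr n r := fun τ =>
  (h τ).mono fun _ he => ⟨he.1, he.2.choose, he.2.choose_spec.1.mono hrs, he.2.choose_spec.2⟩

/-- The mod 2 homology cover. -/
def Inc.cov [DecidableEq E] (I : Inc P Q E) : Inc (P × Finset E) (Q × Finset E) (E × Finset E) where
  a x := (I.a x.1, x.2)
  b x := (I.b x.1, symmDiff x.2 {x.1})

end Pool.Agent.MP_245544_coL
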