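import Pool.Agent.Lib.MP_245544_coL.Step

/-! MP_245544_co (lower bound): iterated covers of the complete bipartite structure. -/

namespace Pool.Agent.MP_245544_coL

/-- Every function to a linear order on a finite type is refined by an injective one to `ℕ`. -/
theorem exists_refine {X T : Type} [Fintype X] [LinearOrder T] (f : X → T) :
    ∃ g : X → ℕ, Function.Injective g ∧ ∀ x y, f x < f y → g x < g y := by
  classical
  let enc := Fintype.equivFin X
  let l : X → T ×ₗ Fin (Fintype.card X) := fun x => toLex (f x, enc x)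
  have hl : Function.Injective l := by
    intro x y h
    have h1 : (f x, enc x) = (f y, enc y) := toLex.injective h
    exact enc.injective (congrArg Prod.snd h1)
  let g : X → ℕ := fun x => (Finset.univ.filter fun y => l y < l x).card
  have hg : ∀ x y, l x < l y → g x < g y := by
    intro x y h
    refine Finset.card_lt_card ?_
    rw [Finset.ssubset_iff_of_subset]
    · exact ⟨x, by simp [h], by simp⟩
    · intro z hz
      simp only [Finset.mem_filter, Finset.mem_univ, true_and] at hz ⊢
      exact hz.trans h
  refine ⟨g, ?_, ?_⟩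
  · intro x y h
    rcases lt_trichotomy (l x) (l y) with h1 | h1 | h1
    · have := hg x y h1; omega
    · exact hl h1
    · have := hg y x h1; omega
  · intro x y h
    refine hg x y ?_
    show toLex (f x, enc x) < toLex (f y, enc y)
    rw [Prod.Lex.toLex_lt_toLex]
    exact Or.inl h

variable {P Q E : Type}

theorem Inc.Fr.refine {T : Type} [LinearOrder T] {I : Inc P Q E} {f : P → T} {g : P → ℕ} {r : ℕ}
    (hF : I.Fr f r) (hg : ∀ x y, f x < f y → g x < g y) : I.Fr g r := by
  refine Inc.Fr.of_range fun p0 => (hF (f p0)).mono ?_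
  rintro e ⟨h1, p', h2, h3⟩
  refine ⟨?_, p', h2, ?_⟩
  · by_contra h
    have := hg p0 (I.a e) (not_le.1 h)
    omega
  · by_contra h
    have := hg p' p0 (not_le.1 h)
    omega

/-- The numbers of edges of the iterated covers. -/
def tow (D : ℕ) : ℕ → ℕ
  | 0 => D * D
  | s + 1 => tow D s * 2 ^ tow D s

/-- For all `D` and `s` there is an incidence structure of average degree `D` with `tow D s` edges in
which all zones of radius `2 ^ s - 1` are forests. -/
theorem exists_inc (D s : ℕ) : ∃ (P Q E : Type) (_ : Fintype P) (_ : Fintype Q) (_ : Fintype E)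
    (I : Inc P Q E) (n : P → ℕ), Function.Injective n ∧ I.Fr n (2 ^ s - 1) ∧
      Fintype.card E = tow D s ∧ Fintype.card E = D * Fintype.card P ∧
      Fintype.card Q = Fintype.card P := by
  classical
  induction s with
  | zero =>
    refine ⟨Fin D, Fin D, Fin D × Fin D, inferInstance, inferInstance, inferInstance,
      ⟨Prod.fst, Prod.snd⟩, Fin.val, Fin.val_injective, ?_, ?_, ?_, rfl⟩
    · intro τ S hS hSZ
      obtain ⟨e, he⟩ := hS
      refine Or.inr ⟨e, he, fun e' he' hb => ?_⟩
      have h1 : ∀ x ∈ S, (x.1 : ℕ) = τ := by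
        intro x hx
        obtain ⟨h2, p', h3, h4⟩ := hSZ x hx
        have h3' : x.1 = p' := h3
        rw [← h3'] at h4
        exact le_antisymm h2 h4
      refine Prod.ext (Fin.ext ?_) hb
      rw [h1 e' he', h1 e he]
    · simp [tow]
    · simp
  | succ s ih =>
    obtain ⟨P, Q, E, fP, fQ, fE, I, n, hn, hF, h1, h2, h3⟩ := ih
    obtain ⟨rk, hrk, hmono⟩ := exists_refine (fun e => n (I.a e))
    have h4 := hF.step hn hrk hmono
    obtain ⟨g, hg, hg'⟩ := exists_refine (fun x : P × Finset E => key rk (I.cut n (2 ^ s - 1) x))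
    have h5 : 2 * (2 ^ s - 1) + 1 = 2 ^ (s + 1) - 1 := by
      have : 1 ≤ 2 ^ s := Nat.one_le_two_pow
      rw [pow_succ]; omega
    rw [h5] at h4
    refine ⟨P × Finset E, Q × Finset E, E × Finset E, inferInstance, inferInstance, inferInstance,
      I.cov, g, hg, h4.refine hg', ?_, ?_, ?_⟩
    · rw [Fintype.card_prod, Fintype.card_finset, h1, tow]
    · rw [Fintype.card_prod, Fintype.card_prod, Fintype.card_finset, h2]
      ring
    · rw [Fintype.card_prod, Fintype.card_prod, h3]

end Pool.Agent.MP_245544_coL
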