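import Pool.Agent.Lib.MP_245544_coL.Core

/-! MP_245544_co (lower bound): the step from radius `r` to radius `2 r + 1`. -/

namespace Pool.Agent.MP_245544_coL

variable {P Q E : Type}

theorem Inc.Near.trans {I : Inc P Q E} {r : ℕ} : ∀ {s : ℕ} {p q u : P}, I.Near r p q → I.Near s q u →
    I.Near (r + s) p u := by
  induction r with
  | zero =>
    intro s p q u h1 h2
    have h3 : p = q := h1
    rw [h3, Nat.zero_add]
    exact h2
  | succ r ih =>
    intro s p q u h1 h2
    rcases h1 with h1 | ⟨e, e', h3, h4, h5⟩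
    · rw [h1]
      exact h2.mono (by omega)
    · rw [show r + 1 + s = (r + s) + 1 by omega]
      exact Or.inr ⟨e, e', h3, h4, ih h5 h2⟩

theorem Inc.Near.symm {I : Inc P Q E} {r : ℕ} : ∀ {p q : P}, I.Near r p q → I.Near r q p := by
  induction r with
  | zero =>
    intro p q h
    have h' : p = q := h
    exact Eq.symm h'
  | succ r ih =>
    intro p q h
    rcases h with h | ⟨e, e', h3, h4, h5⟩
    · rw [h]; exact Inc.Near.refl I _ _
    · refine (ih h5).trans (Or.inr ⟨e', e, rfl, h4.symm, ?_⟩ : I.Near 1 (I.a e') p)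
      exact h3

theorem Inc.Up.mono {I : Inc P Q E} {n : P → ℕ} {r : ℕ} {p : P} {m m' : ℕ} (h : I.Up n r p m)
    (hm : m' ≤ m) : I.Up n r p m' :=
  ⟨h.choose, h.choose_spec.1, hm.trans h.choose_spec.2⟩

/-- It is enough to look at the zones at the times of the points. -/
theorem Inc.Fr.of_range {T : Type} [LinearOrder T] {I : Inc P Q E} {n : P → T} {r : ℕ}
    (h : ∀ p0, I.Leaf (I.Zone n r (n p0))) : I.Fr n r := by
  intro τ S hS hSZ
  obtain ⟨e0, he0, hmax⟩ := S.exists_max_image (fun e => n (I.a e)) hS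
  refine h (I.a e0) S hS fun e he => ⟨hmax e he, ?_⟩
  obtain ⟨p', h1, h2⟩ := (hSZ e he).2
  exact ⟨p', h1, (hSZ e0 he0).1.trans h2⟩

variable [DecidableEq E]

theorem Inc.Near.proj {I : Inc P Q E} {k : ℕ} : ∀ {x y : P × Finset E}, I.cov.Near k x y →
    I.Near k x.1 y.1 := by
  induction k with
  | zero => intro x y h; exact congrArg Prod.fst (h : x = y)
  | succ k ih =>
    intro x y h
    rcases h with h | ⟨X, X', h1, h2, h3⟩
    · rw [h]; exact Inc.Near.refl I _ _
    · refine Or.inr ⟨X.1, X'.1, ?_, ?_, ?_⟩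
      · rw [← h1]; rfl
      · exact (congrArg Prod.fst h2 :)
      · exact ih h3

/-- Along a path of the cover only digits of the levels of the visited points change. -/
theorem Inc.path {I : Inc P Q E} (n : P → ℕ) {k : ℕ} : ∀ {x y : P × Finset E}, I.cov.Near k x y →
    ∃ i j : ℕ, i + j ≤ k ∧ ∃ p, I.Near i x.1 p ∧ I.Near j p y.1 ∧ n x.1 ≤ n p ∧
      ∀ e, n p < n (I.a e) → (e ∈ x.2 ↔ e ∈ y.2) := by
  induction k with
  | zero =>
    intro x y h
    have h' : x = y := h
    rw [h']
    exact ⟨0, 0, le_rfl, y.1, rfl, rfl, le_rfl, fun e _ => Iff.rfl⟩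
  | succ k ih =>
    intro x y h
    rcases h with h | ⟨X, X', h1, h2, h3⟩
    · rw [h]
      exact ⟨0, 0, by omega, y.1, rfl, rfl, le_rfl, fun e _ => Iff.rfl⟩
    · obtain ⟨i, j, hij, p, h4, h5, h6, h7⟩ := ih h3
      have ha : I.a X.1 = x.1 := by rw [← h1]; rfl
      have hx2 : X.2 = x.2 := by rw [← h1]; rfl
      have hb : I.b X.1 = I.b X'.1 := (congrArg Prod.fst h2 :)
      have hs : symmDiff X.2 {X.1} = symmDiff X'.2 {X'.1} := (congrArg Prod.snd h2 :)
      have h4' : I.Near i (I.a X'.1) p := h4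
      have h6' : n (I.a X'.1) ≤ n p := h6
      have h7' : ∀ e, n p < n (I.a e) → (e ∈ X'.2 ↔ e ∈ y.2) := h7
      have hflip : ∀ e, e ≠ X.1 → e ≠ X'.1 → (e ∈ x.2 ↔ e ∈ X'.2) := by
        intro e he he'
        have h8 : e ∈ symmDiff X.2 {X.1} ↔ e ∈ symmDiff X'.2 {X'.1} := by rw [hs]
        rw [Finset.mem_symmDiff, Finset.mem_symmDiff, Finset.mem_singleton, Finset.mem_singleton] at h8
        rw [← hx2]
        tauto
      rcases le_or_gt (n x.1) (n p) with hle | hlt
      · refine ⟨i + 1, j, by omega, p, Or.inr ⟨X.1, X'.1, ha, hb, h4'⟩, h5, hle, fun e he => ?_⟩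
        have he1 : e ≠ X.1 := by rintro rfl; rw [ha] at he; omega
        have he2 : e ≠ X'.1 := by rintro rfl; omega
        exact (hflip e he1 he2).trans (h7' e he)
      · refine ⟨0, k + 1, by omega, x.1, rfl, Or.inr ⟨X.1, X'.1, ha, hb, ?_⟩, le_rfl, fun e he => ?_⟩
        · exact Inc.Near.proj h3
        · have he1 : e ≠ X.1 := by rintro rfl; rw [ha] at he; omega
          have he2 : e ≠ X'.1 := by rintro rfl; omega
          exact (hflip e he1 he2).trans (h7' e (by omega))

/-- The colexicographic key of a set of edges. -/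
def key (rk : E → ℕ) (s : Finset E) : Colex (Finset ℕ) := toColex (s.image rk)

omit [DecidableEq E] in
theorem key_lt {rk : E → ℕ} (hrk : Function.Injective rk) {s t : Finset E} {e : E} (he : e ∈ t)
    (hes : e ∉ s) (h : ∀ e' ∈ s, e' ∉ t → rk e' < rk e) : key rk s < key rk t := by
  rw [key, key, Finset.Colex.toColex_lt_toColex_iff_exists_forall_lt]
  refine ⟨rk e, Finset.mem_image_of_mem rk he, ?_, ?_⟩
  · intro h1
    obtain ⟨e', h2, h3⟩ := Finset.mem_image.1 h1
    exact hes (hrk h3 ▸ h2)
  · intro b hb hbt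
    obtain ⟨e', h2, rfl⟩ := Finset.mem_image.1 hb
    exact h e' h2 fun h3 => hbt (Finset.mem_image_of_mem rk h3)

open Classical in
/-- The new times: the levels up to the reach of radius `r` are put to zero. -/
noncomputable def Inc.cut (I : Inc P Q E) (n : P → ℕ) (r : ℕ) (x : P × Finset E) : Finset E :=
  x.2.filter fun e => ¬ I.Up n r x.1 (n (I.a e))

theorem Inc.zone_sub (I : Inc P Q E) {n : P → ℕ} {r : ℕ} {rk : E → ℕ}
    (hrk : Function.Injective rk) (hmono : ∀ e e', n (I.a e) < n (I.a e') → rk e < rk e')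
    (t : Finset E) :
    I.cov.Zone (fun x => key rk (I.cut n r x)) (2 * r + 1) (key rk t) ⊆ I.Reg n r t := by
  classical
  rintro ⟨e, ε⟩ ⟨h1, ⟨p', δ⟩, h2, h3⟩
  have h1' : key rk (I.cut n r (I.a e, ε)) ≤ key rk t := h1
  have h2' : I.cov.Near (2 * r + 1) (I.a e, ε) (p', δ) := h2
  by_contra hR
  have hR' : ¬ (I.J n t ε ≠ I.J n t (symmDiff ε {e}) ∨
    ∃ m, I.J n t ε = m + 1 ∧ e ∈ I.Zone n r m) := hR
  rw [not_or, not_not] at hR'
  obtain ⟨hJ, hZ⟩ := hR'
  -- the common value of `J` is positive and at least the level of `e`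
  have hle : n (I.a e) + 1 ≤ I.J n t ε := by
    by_cases he : e ∈ symmDiff ε t
    · exact I.le_lev n he
    · rw [hJ, I.J_toggle]
      refine I.le_lev n ?_
      rw [Finset.mem_symmDiff]
      exact Or.inr ⟨Finset.mem_singleton_self e, he⟩
  obtain ⟨m, hm⟩ := Nat.exists_eq_succ_of_ne_zero (n := I.J n t ε) (by omega)
  rw [Nat.succ_eq_add_one] at hm
  have hup : ¬ I.Up n r (I.a e) m := by
    intro hu
    exact hZ ⟨m, hm, by omega, hu⟩
  -- the top difference
  have hne : (symmDiff ε t).Nonempty := by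
    obtain ⟨e', he', -⟩ := I.exists_lev n (D := symmDiff ε t) hm
    exact ⟨e', he'⟩
  obtain ⟨e1, he1, hmax⟩ := (symmDiff ε t).exists_max_image rk hne
  have hlev1 : n (I.a e1) = m := by
    have h4 := I.le_lev n he1
    have h5 : I.lev n (symmDiff ε t) = m + 1 := hm
    obtain ⟨e', he', hem⟩ := I.exists_lev n (D := symmDiff ε t) hm
    have h6 := hmax e' he'
    by_contra h7
    have h8 := hmono e1 e' (by omega)
    omega
  have habove : ∀ b, rk e1 < rk b → (b ∈ ε ↔ b ∈ t) := by
    intro b hb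
    by_contra h4
    have h5 : b ∈ symmDiff ε t := by
      rw [Finset.mem_symmDiff]; tauto
    have := hmax b h5
    omega
  have hlevb : ∀ b, rk e1 < rk b → m ≤ n (I.a b) := by
    intro b hb
    by_contra h4
    have := hmono b e1 (by omega)
    omega
  have h1t : e1 ∈ t ∧ e1 ∉ ε := by
    rw [Finset.mem_symmDiff] at he1
    rcases he1 with ⟨h4, h5⟩ | h4
    · exfalso
      have h6 : key rk t < key rk (I.cut n r (I.a e, ε)) := by
        refine key_lt hrk (e := e1) ?_ h5 ?_
        · rw [Inc.cut, Finset.mem_filter]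
          refine ⟨h4, ?_⟩
          rw [hlev1]
          exact hup
        · intro b hbt hbc
          by_contra hlt
          have hbe : rk e1 < rk b := by
            rcases Nat.lt_or_ge (rk e1) (rk b) with h | h
            · exact h
            · have : rk b = rk e1 := by omega
              exact absurd (hrk this ▸ hbt) h5
          refine hbc ?_
          rw [Inc.cut, Finset.mem_filter]
          refine ⟨(habove b hbe).2 hbt, fun hu => hup ?_⟩
          exact Inc.Up.mono hu (hlevb b hbe)
      exact absurd h1' (not_le.2 h6)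
    · exact h4
  -- the path to the live point
  obtain ⟨i, j, hij, p, h4, h5, h6, h7⟩ := I.path n h2'
  have h4' : I.Near i (I.a e) p := h4
  have h5' : I.Near j p p' := h5
  have h7' : ∀ e, n p < n (I.a e) → (e ∈ ε ↔ e ∈ δ) := h7
  have h3' : key rk t ≤ key rk (I.cut n r (p', δ)) := h3
  refine absurd h3' (not_le.2 ?_)
  rcases lt_or_ge (n p) m with hlt | hge
  · -- only low digits change
    refine key_lt hrk h1t.1 (fun h8 => ?_) fun b hb hbt => ?_
    · rw [Inc.cut, Finset.mem_filter] at h8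
      exact h1t.2 ((h7' e1 (by omega)).2 h8.1)
    · rw [Inc.cut, Finset.mem_filter] at hb
      by_contra hlt'
      have hbe : rk e1 < rk b := by
        rcases Nat.lt_or_ge (rk e1) (rk b) with h | h
        · exact h
        · have : rk b = rk e1 := by omega
          exact absurd (hrk this ▸ h1t.1) hbt
      have h9 := hlevb b hbe
      exact hbt ((habove b hbe).1 ((h7' b (by omega)).2 hb.1))
  · have hi : ¬ i ≤ r := fun hi => hup ⟨p, h4'.mono hi, hge⟩
    have hup' : I.Up n r p' (n p) := ⟨p, (h5'.mono (by omega : j ≤ r)).symm, le_rfl⟩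
    refine key_lt hrk h1t.1 (fun h8 => ?_) fun b hb hbt => ?_
    · rw [Inc.cut, Finset.mem_filter] at h8
      exact h8.2 (Inc.Up.mono hup' (by omega))
    · exfalso
      rw [Inc.cut, Finset.mem_filter] at hb
      have h9 : n p < n (I.a b) := by
        by_contra h10
        exact hb.2 (Inc.Up.mono hup' (by omega))
      have h11 : b ∈ ε := (h7' b h9).2 hb.1
      have h12 : b ∉ symmDiff ε t := by
        intro h13
        have h14 := I.le_lev n h13
        have h15 : I.lev n (symmDiff ε t) = m + 1 := hm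
        omega
      rw [Finset.mem_symmDiff] at h12
      tauto

/-- STEP: radius `r` of the base gives radius `2 r + 1` of the cover. -/
theorem Inc.Fr.step {I : Inc P Q E} {n : P → ℕ} {r : ℕ} (hn : Function.Injective n) (hF : I.Fr n r)
    {rk : E → ℕ} (hrk : Function.Injective rk)
    (hmono : ∀ e e', n (I.a e) < n (I.a e') → rk e < rk e') :
    I.cov.Fr (fun x => key rk (I.cut n r x)) (2 * r + 1) :=
  Inc.Fr.of_range fun x0 => (I.leaf_Reg hn hF (I.cut n r x0)).mono (I.zone_sub hrk hmono _)

end Pool.Agent.MP_245544_coL
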